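import Pool.Agent.H54.HL.D

/-!
# HL: basic facts
-/

set_option autoImplicit false

namespace HLP

open Cardinal Ordinal

theorem res_res {α β : Ordinal.{0}} (h : β ≤ α) (η : Sq) : res β (res α η) = res β η := by
  funext ξ
  unfold res
  by_cases h1 : ξ < β
  · rw [if_pos h1, if_pos (h1.trans_le h), if_pos h1]
  · rw [if_neg h1, if_neg h1]

theorem res_self {α : Ordinal.{0}} {η : Sq} (h : IsSeq α η) : res α η = η := by
  funext ξ
  unfold res
  by_cases h1 : ξ < α
  · rw [if_pos h1]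
  · rw [if_neg h1, h ξ (not_lt.1 h1)]

theorem isSeq_res (α : Ordinal.{0}) (η : Sq) : IsSeq α (res α η) := by
  intro ξ h
  unfold res
  rw [if_neg (not_lt.2 h)]

theorem res_apply {α ξ : Ordinal.{0}} (h : ξ < α) (η : Sq) : res α η ξ = η ξ := by
  unfold res
  rw [if_pos h]

theorem IsSeq.mono {α β : Ordinal.{0}} {η : Sq} (h : IsSeq α η) (hab : α ≤ β) : IsSeq β η :=
  fun ξ hξ => h ξ (hab.trans hξ)

theorem isSeq_update {α : Ordinal.{0}} {η : Sq} (h : IsSeq α η) (i : Bool) :
    IsSeq (Order.succ α) (Function.update η α i) := by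
  intro ξ hξ
  have h1 : α < ξ := (Order.lt_succ α).trans_le hξ
  rw [Function.update_of_ne h1.ne']
  exact h ξ h1.le

theorem res_update {α : Ordinal.{0}} {η : Sq} (h : IsSeq α η) (i : Bool) :
    res α (Function.update η α i) = η := by
  funext ξ
  unfold res
  by_cases h1 : ξ < α
  · rw [if_pos h1, Function.update_of_ne h1.ne]
  · rw [if_neg h1, h ξ (not_lt.1 h1)]

/-- a sequence of length `α + 1` -/
theorem eq_update {α : Ordinal.{0}} {η : Sq} (h : IsSeq (Order.succ α) η) :
    η = Function.update (res α η) α (η α) := by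
  funext ξ
  by_cases h1 : ξ = α
  · rw [h1, Function.update_self]
  · rw [Function.update_of_ne h1]
    rcases lt_or_gt_of_ne h1 with h2 | h2
    · rw [res_apply h2]
    · rw [isSeq_res α η ξ h2.le, h ξ (Order.succ_le_of_lt h2)]

theorem lt_rho {a : Ordinal.{0} → Ordinal.{0}} (ha : StrictMono a) {ξ α : Ordinal.{0}} : ξ < rho a α ↔ a ξ < α := by
  have hmem : α ≤ a (rho a α) := by
    have h1 : rho a α ∈ {ξ | α ≤ a ξ} := csInf_mem ⟨α, ha.le_apply⟩
    exact h1
  constructor
  · intro h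
    by_contra h2
    have h3 : rho a α ≤ ξ := csInf_le' (not_lt.1 h2)
    exact absurd h (not_lt.2 h3)
  · intro h
    by_contra h2
    have h3 : a (rho a α) ≤ a ξ := ha.monotone (not_lt.1 h2)
    exact absurd h (not_lt.2 (hmem.trans h3))

theorem rho_le_iff {a : Ordinal.{0} → Ordinal.{0}} (ha : StrictMono a) {ξ α : Ordinal.{0}} : rho a α ≤ ξ ↔ α ≤ a ξ := by
  rw [← not_lt, lt_rho ha, not_lt]

theorem rho_apply {a : Ordinal.{0} → Ordinal.{0}} (ha : StrictMono a) (ξ : Ordinal.{0}) : rho a (a ξ) = ξ := by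
  refine le_antisymm ((rho_le_iff ha).2 le_rfl) (le_of_not_gt fun h => ?_)
  have h1 := (rho_le_iff ha).1 (le_refl (rho a (a ξ)))
  exact absurd (ha h) (not_lt.2 h1)

theorem rho_mono {a : Ordinal.{0} → Ordinal.{0}} (ha : StrictMono a) : Monotone (rho a) := by
  intro α β h
  rw [rho_le_iff ha]
  exact h.trans ((rho_le_iff ha).1 le_rfl)

theorem rho_le_self {a : Ordinal.{0} → Ordinal.{0}} (ha : StrictMono a) (α : Ordinal.{0}) : rho a α ≤ α :=
  (rho_le_iff ha).2 ha.le_apply

theorem rho_succ {a : Ordinal.{0} → Ordinal.{0}} (ha : StrictMono a) (ξ : Ordinal.{0}) :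
    rho a (Order.succ (a ξ)) = Order.succ ξ := by
  refine eq_of_forall_lt_iff fun ζ => ?_
  rw [lt_rho ha, Order.lt_succ_iff, Order.lt_succ_iff, ha.le_iff_le]

theorem rho_succ' {a : Ordinal.{0} → Ordinal.{0}} (ha : StrictMono a) {α : Ordinal.{0}} (h : ∀ ξ, a ξ ≠ α) :
    rho a (Order.succ α) = rho a α := by
  refine eq_of_forall_lt_iff fun ζ => ?_
  rw [lt_rho ha, lt_rho ha, Order.lt_succ_iff]
  exact ⟨fun h1 => lt_of_le_of_ne h1 (h ζ), le_of_lt⟩

theorem res_comp {a : Ordinal.{0} → Ordinal.{0}} (ha : StrictMono a) (α : Ordinal.{0}) (η : Sq) :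
    res α η ∘ a = res (rho a α) (η ∘ a) := by
  funext ξ
  show res α η (a ξ) = res (rho a α) (η ∘ a) ξ
  unfold res
  by_cases h1 : a ξ < α
  · rw [if_pos h1, if_pos ((lt_rho ha).2 h1)]
    rfl
  · rw [if_neg h1, if_neg (fun h => h1 ((lt_rho ha).1 h))]

theorem isSeq_comp {a : Ordinal.{0} → Ordinal.{0}} (ha : StrictMono a) {α : Ordinal.{0}} {η : Sq} (h : IsSeq α η) :
    IsSeq (rho a α) (η ∘ a) := by
  intro ξ hξ
  exact h (a ξ) ((rho_le_iff ha).1 hξ)

theorem update_comp {a : Ordinal.{0} → Ordinal.{0}} (ha : StrictMono a) (ξ : Ordinal.{0}) (η : Sq) (i : Bool) :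
    Function.update η (a ξ) i ∘ a = Function.update (η ∘ a) ξ i := by
  funext ζ
  show Function.update η (a ξ) i (a ζ) = _
  by_cases h : ζ = ξ
  · rw [h, Function.update_self, Function.update_self]
  · rw [Function.update_of_ne h, Function.update_of_ne (fun h1 => h (ha.injective h1))]
    rfl

/-- the first difference of two sequences of length `α` -/
theorem exists_diff {α : Ordinal.{0}} {η η' : Sq} (h : IsSeq α η) (h' : IsSeq α η') (hne : η ≠ η') :
    ∃ δ < α, η δ ≠ η' δ ∧ res δ η = res δ η' := by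
  have h1 : ∃ ξ, η ξ ≠ η' ξ := by
    by_contra h2
    push Not at h2
    exact hne (funext h2)
  have h2 : sInf {ξ | η ξ ≠ η' ξ} ∈ {ξ | η ξ ≠ η' ξ} := csInf_mem h1
  refine ⟨sInf {ξ | η ξ ≠ η' ξ}, ?_, h2, ?_⟩
  · by_contra h3
    have h4 := not_lt.1 h3
    exact h2 ((h _ h4).trans (h' _ h4).symm)
  · funext ξ
    unfold res
    by_cases h3 : ξ < sInf {ξ | η ξ ≠ η' ξ}
    · rw [if_pos h3, if_pos h3]
      by_contra h4
      exact absurd h3 (not_lt.2 (csInf_le' h4))
    · rw [if_neg h3, if_neg h3]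

/-- in a suitable tree the first difference is at a splitting level -/
theorem Suitable.diff {κ : Cardinal.{0}} {T : Ordinal.{0} → Set Sq} {A : Set Ordinal.{0}} (h : Suitable κ T A)
    {α : Ordinal.{0}} {η η' : Sq} (hη : η ∈ T α) (hη' : η' ∈ T α) {δ : Ordinal.{0}} (hδ : δ < α) (hne : η δ ≠ η' δ)
    (hr : res δ η = res δ η') : δ ∈ A := by
  have h1 := h.down α η (Order.succ δ) hη (Order.succ_le_of_lt hδ)
  have h2 := h.down α η' (Order.succ δ) hη' (Order.succ_le_of_lt hδ)
  have h3 := h.down α η δ hη hδ.le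
  rw [eq_update (isSeq_res (Order.succ δ) η), res_res (Order.le_succ δ), res_apply (Order.lt_succ δ)] at h1
  rw [eq_update (isSeq_res (Order.succ δ) η'), res_res (Order.le_succ δ), res_apply (Order.lt_succ δ), ← hr] at h2
  refine (h.split δ _ h3).1 ?_
  cases e : η δ with
  | false =>
    cases e' : η' δ with
    | false => exact absurd (e.trans e'.symm) hne
    | true =>
      rw [e] at h1
      rw [e'] at h2
      exact ⟨h1, h2⟩
  | true =>
    cases e' : η' δ with
    | true => exact absurd (e.trans e'.symm) hne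
    | false =>
      rw [e] at h1
      rw [e'] at h2
      exact ⟨h2, h1⟩

end HLP
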