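import Mathlib

/-!
# HL: strong Halpern-Lauchli principles (MP_aed4c8): definitions

A sequence of length `α` of zeros and ones is coded by a function `η : Ordinal → Bool` which is `false` at all `ξ ≥ α`; a set of sequences of length
less than `κ` is a family `T`, `T α` is the set of its members of length `α`.
-/

set_option autoImplicit false

namespace HLP

open Cardinal Ordinal

/-- functions coding sequences -/
abbrev Sq : Type 1 := Ordinal.{0} → Bool

/-- `η` codes a sequence of length `α` -/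
def IsSeq (α : Ordinal.{0}) (η : Sq) : Prop := ∀ ξ, α ≤ ξ → η ξ = false

/-- the initial segment of length `α` -/
noncomputable def res (α : Ordinal.{0}) (η : Sq) : Sq := fun ξ => if ξ < α then η ξ else false

/-- the triple `(κ, T, A)` is suitable: `T` is a regular subtree, `A` has size `κ`, `T` splits exactly at the levels in `A` -/
structure Suitable (κ : Cardinal.{0}) (T : Ordinal.{0} → Set Sq) (A : Set Ordinal.{0}) : Prop where
  sub : ∀ α ∈ A, α < κ.ord
  card : #A = Cardinal.lift.{1} κ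
  seq : ∀ α η, η ∈ T α → α < κ.ord ∧ IsSeq α η
  nonempty : ∃ α, (T α).Nonempty
  down : ∀ α η β, η ∈ T α → β ≤ α → res β η ∈ T β
  up : ∀ α η β, η ∈ T α → β < κ.ord → ∃ ν ∈ T (max α β), res α ν = η
  lim : ∀ δ η, δ < κ.ord → Order.IsSuccLimit δ → IsSeq δ η → (∀ α < δ, res α η ∈ T α) → η ∈ T δ
  split : ∀ α η, η ∈ T α →
    ((Function.update η α false ∈ T (Order.succ α) ∧ Function.update η α true ∈ T (Order.succ α)) ↔ α ∈ A)

/-- each `lt α` well-orders the sequences of length `α` -/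
def WO (κ : Cardinal.{0}) (lt : Ordinal.{0} → Sq → Sq → Prop) : Prop :=
  ∀ α < κ.ord, IsWellOrder {η : Sq // IsSeq α η} (fun x y => lt α x.1 y.1)

/-- the set `S(η₀, η₁)`, `α` is the length of `η₀`, `η₁`: the triples `(β, ν₀, ν₁)` -/
def S (T : Ordinal.{0} → Set Sq) (A : Set Ordinal.{0}) (lt : Ordinal.{0} → Sq → Sq → Prop) (α : Ordinal.{0}) (η₀ η₁ : Sq) :
    Set (Ordinal.{0} × Sq × Sq) :=
  {p | α < p.1 ∧ p.1 ∈ A ∧ p.2.1 ∈ T p.1 ∧ p.2.2 ∈ T p.1 ∧ res α p.2.1 = η₀ ∧ res α p.2.2 = η₁ ∧ lt p.1 p.2.1 p.2.2}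

/-- a colouring of pairs of sequences of the same length -/
def Sym {C : Type} (c : Ordinal.{0} → Sq → Sq → C) : Prop := ∀ α x y, c α x y = c α y x

/-- the principle with `θ` colours, one of them omitted on every `S(η₀, η₁)` -/
def HLb (κ : Cardinal.{0}) (θ : ℕ) : Prop :=
  ∀ lt : Ordinal.{0} → Sq → Sq → Prop, WO κ lt → ∀ c : Ordinal.{0} → Sq → Sq → Fin θ, Sym c →
    ∃ (T : Ordinal.{0} → Set Sq) (A : Set Ordinal.{0}), Suitable κ T A ∧
      ∀ α η₀ η₁, η₀ ∈ T α → η₁ ∈ T α → η₀ ≠ η₁ → ∃ i : Fin θ, ∀ p ∈ S T A lt α η₀ η₁, c p.1 p.2.1 p.2.2 ≠ i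

/-- enumeration of `A` -/
structure En (κ : Cardinal.{0}) (A : Set Ordinal.{0}) (a : Ordinal.{0} → Ordinal.{0}) : Prop where
  mono : StrictMono a
  mem : ∀ α, α ∈ A ↔ ∃ ξ < κ.ord, a ξ = α

/-- the order type of the part of `A` below `α` -/
noncomputable def rho (a : Ordinal.{0} → Ordinal.{0}) (α : Ordinal.{0}) : Ordinal.{0} := sInf {ξ | α ≤ a ξ}

/-- composition of suitable trees -/
def cT (T T' : Ordinal.{0} → Set Sq) (a : Ordinal.{0} → Ordinal.{0}) (β : Ordinal.{0}) : Set Sq :=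
  {ν | ν ∈ T β ∧ ν ∘ a ∈ T' (rho a β)}

/-- the full tree with splitting levels `B` -/
def Fu (κ : Cardinal.{0}) (B : Set Ordinal.{0}) (α : Ordinal.{0}) : Set Sq :=
  {η | α < κ.ord ∧ IsSeq α η ∧ ∀ ξ, ξ ∉ B → η ξ = false}

end HLP
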