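import Pool.Agent.H54.HL.B

/-!
ROW HL/Ea. Enumeration of `A`. Let `S = A ∪ {α | κ.ord ≤ α}`, not bounded above, `a = Ordinal.enumOrd S` (strictly monotone, range `S`).
(⟸) `ξ < κ.ord` implies `a ξ < κ.ord`: otherwise `A ⊆ a '' Iio ξ` (an element `α ∈ A` is `a ζ` with `a ζ < κ.ord ≤ a ξ`, so `ζ < ξ`), so `lift κ = #A ≤ #(Iio ξ) = lift (card ξ) < lift κ`
(`Cardinal.mk_Iio_ordinal`, `lt_ord`). (⟹) `α = a ξ` with `ξ ≤ a ξ = α < κ.ord`.
-/

set_option autoImplicit false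

namespace HLP

open Cardinal Ordinal

theorem exists_En {κ : Cardinal.{0}} {A : Set Ordinal.{0}} (hA : ∀ α ∈ A, α < κ.ord) (hc : #A = Cardinal.lift.{1} κ) :
    ∃ a : Ordinal.{0} → Ordinal.{0}, En κ A a := by
  have hb : ¬ BddAbove (A ∪ Set.Ici κ.ord) := by
    rintro ⟨b, hb⟩
    have h1 : max κ.ord (Order.succ b) ∈ A ∪ Set.Ici κ.ord :=
      Or.inr (Set.mem_Ici.2 (le_max_left _ _))
    have h2 := hb h1
    exact absurd ((le_max_right κ.ord (Order.succ b)).trans h2) (not_le.2 (Order.lt_succ b))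
  have ha : StrictMono (enumOrd (A ∪ Set.Ici κ.ord)) := enumOrd_strictMono hb
  have hr : Set.range (enumOrd (A ∪ Set.Ici κ.ord)) = A ∪ Set.Ici κ.ord := range_enumOrd hb
  refine ⟨enumOrd (A ∪ Set.Ici κ.ord), ha, fun α => ⟨fun h => ?_, ?_⟩⟩
  · have h1 : α ∈ Set.range (enumOrd (A ∪ Set.Ici κ.ord)) := by
      rw [hr]; exact Or.inl h
    obtain ⟨ξ, hξ⟩ := h1
    refine ⟨ξ, ?_, hξ⟩
    have h2 : ξ ≤ enumOrd (A ∪ Set.Ici κ.ord) ξ := ha.le_apply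
    rw [hξ] at h2
    exact h2.trans_lt (hA α h)
  · rintro ⟨ξ, hξ, rfl⟩
    have h1 : enumOrd (A ∪ Set.Ici κ.ord) ξ ∈ A ∪ Set.Ici κ.ord := by
      have h := Set.mem_range_self (f := enumOrd (A ∪ Set.Ici κ.ord)) ξ
      rwa [hr] at h
    rcases h1 with h1 | h1
    · exact h1
    · exfalso
      have h2 : A ⊆ enumOrd (A ∪ Set.Ici κ.ord) '' Set.Iio ξ := by
        intro α hα
        have h3 : α ∈ Set.range (enumOrd (A ∪ Set.Ici κ.ord)) := by
          rw [hr]; exact Or.inl hα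
        obtain ⟨ζ, hζ⟩ := h3
        refine ⟨ζ, ?_, hζ⟩
        have h4 : enumOrd (A ∪ Set.Ici κ.ord) ζ < enumOrd (A ∪ Set.Ici κ.ord) ξ := by
          rw [hζ]; exact (hA α hα).trans_le h1
        exact ha.lt_iff_lt.1 h4
      have h5 : #A ≤ #(Set.Iio ξ) := (mk_le_mk_of_subset h2).trans mk_image_le
      rw [hc, Cardinal.mk_Iio_ordinal, Cardinal.lift_le] at h5
      exact absurd (lt_ord.1 hξ) (not_lt.2 h5)

end HLP
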