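import Pool.Agent.H54.HL.B

/-!
ROW HL/Eb. `En.lt`: `a ξ ∈ A` for `ξ < κ.ord`. `uniq`: if `ν ≠ ν'`, `exists_diff` (with `h.seq`) and `Suitable.diff` give `δ ∈ A`, `δ = a ξ`, `ν δ ≠ ν' δ`, but `ν (a ξ) = ν' (a ξ)`.
-/

set_option autoImplicit false

namespace HLP

open Cardinal Ordinal

theorem En.lt {κ : Cardinal.{0}} {T : Ordinal.{0} → Set Sq} {A : Set Ordinal.{0}} {a : Ordinal.{0} → Ordinal.{0}}
    (h : Suitable κ T A) (e : En κ A a) {ξ : Ordinal.{0}} (hξ : ξ < κ.ord) : a ξ < κ.ord :=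
  h.sub _ ((e.mem _).2 ⟨ξ, hξ, rfl⟩)

theorem uniq {κ : Cardinal.{0}} {T : Ordinal.{0} → Set Sq} {A : Set Ordinal.{0}} {a : Ordinal.{0} → Ordinal.{0}}
    (h : Suitable κ T A) (e : En κ A a) {α : Ordinal.{0}} {ν ν' : Sq} (hν : ν ∈ T α) (hν' : ν' ∈ T α)
    (hc : ν ∘ a = ν' ∘ a) : ν = ν' := by
  by_contra hne
  obtain ⟨δ, hδ, hd, hr⟩ := exists_diff (h.seq α ν hν).2 (h.seq α ν' hν').2 hne
  obtain ⟨ξ, -, rfl⟩ := (e.mem δ).1 (h.diff hν hν' hδ hd hr)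
  exact hd (congrFun hc ξ)

end HLP
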