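import Pool.Agent.H54.HL.Eb

/-!
ROW HL/Ec. Extension with prescribed values at the splitting levels. Transfinite induction on `α` (`Ordinal.limitRecOn` or strong induction with the three cases), `β ν` fixed.
* `α = β`: `ν' = ν` (`res_self`, `η = res (rho a β) η = ν ∘ a`).
* `α = succ α₁`, `β ≤ α₁`: apply the induction hypothesis to `res (rho a α₁) η` (`res_res`, `rho_mono`): `ν₁ ∈ T α₁`. If `α₁ = a ξ` for some `ξ` (`ξ < κ.ord` by `lt_of_le_of_lt`, `a` increasing; then `α₁ ∈ A`):
  `split` gives both updates in `T α`; take `ν' = Function.update ν₁ α₁ (η ξ)`; `rho_apply`, `rho_succ`, `update_comp`, `eq_update`, `res_update`. If `α₁` is no value of `a`: take any extension (`up`), `rho_succ'`, `res_comp`.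
* `α` a limit: for `γ` with `β ≤ γ < α` let `N γ ∈ T γ` be the node from the induction hypothesis for `res (rho a γ) η`; by `uniq` (and `down`, `res_comp`) `res γ (N γ') = N γ` for `γ ≤ γ'`. Put
  `ν' ξ = N (max β (succ ξ)) ξ` for `ξ < α`, `false` otherwise; then `res γ ν' = N γ`, so `ν' ∈ T α` by `lim` (for `γ < β` use `down`), and `ν' ∘ a = η` pointwise (for `ξ < rho a α`: `a ξ < α`, use `γ = max β (succ (a ξ))`).
-/

set_option autoImplicit false

namespace HLP

open Cardinal Ordinal

theorem exists_ext {κ : Cardinal.{0}} {T : Ordinal.{0} → Set Sq} {A : Set Ordinal.{0}} {a : Ordinal.{0} → Ordinal.{0}}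
    (h : Suitable κ T A) (e : En κ A a) {β : Ordinal.{0}} {ν : Sq} (hν : ν ∈ T β) (α : Ordinal.{0}) (hα : α < κ.ord) (hβ : β ≤ α)
    (η : Sq) (hη : IsSeq (rho a α) η) (hr : res (rho a β) η = ν ∘ a) : ∃ ν' ∈ T α, res β ν' = ν ∧ ν' ∘ a = η := by
  have ha := e.mono
  induction α using WellFoundedLT.induction generalizing η with
  | ind α ih =>
    rcases hβ.eq_or_lt with h0 | h0
    · subst h0
      refine ⟨ν, hν, res_self (h.seq β ν hν).2, ?_⟩
      rw [← hr, res_self hη]
    by_cases hs : ∃ α₁, Order.succ α₁ = α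
    · obtain ⟨α₁, rfl⟩ := hs
      have h1 : β ≤ α₁ := Order.lt_succ_iff.1 h0
      have h2 : α₁ < κ.ord := (Order.lt_succ α₁).trans hα
      obtain ⟨ν₁, hν₁, hr₁, hc₁⟩ := ih α₁ (Order.lt_succ α₁) h2 h1 (res (rho a α₁) η) (isSeq_res _ _)
        (by rw [res_res (rho_mono ha h1), hr])
      have hseq := (h.seq α₁ ν₁ hν₁).2
      by_cases hx : ∃ ξ, a ξ = α₁
      · obtain ⟨ξ, rfl⟩ := hx
        have h3 : ξ < κ.ord := lt_of_le_of_lt ha.le_apply h2
        have h4 : a ξ ∈ A := (e.mem _).2 ⟨ξ, h3, rfl⟩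
        have h5 := (h.split (a ξ) ν₁ hν₁).2 h4
        refine ⟨Function.update ν₁ (a ξ) (η ξ), ?_, ?_, ?_⟩
        · cases η ξ with
          | false => exact h5.1
          | true => exact h5.2
        · rw [← res_res h1, res_update hseq, hr₁]
        · rw [update_comp ha, hc₁, rho_apply ha]
          rw [rho_succ ha] at hη
          exact (eq_update hη).symm
      · have h3 : ∀ ξ, a ξ ≠ α₁ := fun ξ hξ => hx ⟨ξ, hξ⟩
        rw [rho_succ' ha h3] at hη
        obtain ⟨ν', hν', hr'⟩ := h.up α₁ ν₁ (Order.succ α₁) hν₁ hα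
        rw [max_eq_right (Order.le_succ α₁)] at hν'
        refine ⟨ν', hν', ?_, ?_⟩
        · rw [← res_res h1, hr', hr₁]
        · have h4 := isSeq_comp ha (h.seq _ ν' hν').2
          rw [rho_succ' ha h3] at h4
          rw [← res_self h4, ← res_comp ha, hr', hc₁, res_self hη]
    · have hlim : Order.IsSuccLimit α := by
        refine ⟨fun hm => ?_, ?_⟩
        · exact absurd (hm h0.le) (not_le.2 h0)
        · intro γ hγ
          exact hs ⟨γ, hγ.succ_eq⟩
      have hex : ∀ γ, β ≤ γ → γ < α → ∃ ν', ν' ∈ T γ ∧ res β ν' = ν ∧ ν' ∘ a = res (rho a γ) η := by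
        intro γ h1 h2
        obtain ⟨ν', h3, h4, h5⟩ := ih γ h2 (h2.trans hα) h1 (res (rho a γ) η) (isSeq_res _ _)
          (by rw [res_res (rho_mono ha h1), hr])
        exact ⟨ν', h3, h4, h5⟩
      choose! N hN1 hN2 hN3 using hex
      have hcomp : ∀ γ γ', β ≤ γ → γ ≤ γ' → γ' < α → res γ (N γ') = N γ := by
        intro γ γ' h1 h2 h3
        refine uniq h e (h.down γ' _ γ (hN1 γ' (h1.trans h2) h3) h2) (hN1 γ h1 (h2.trans_lt h3)) ?_
        rw [res_comp ha, hN3 γ' (h1.trans h2) h3, res_res (rho_mono ha h2), hN3 γ h1 (h2.trans_lt h3)]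
      set ν' : Sq := fun ξ => if ξ < α then N (max β (Order.succ ξ)) ξ else false with hν'
      have hres : ∀ γ, β ≤ γ → γ < α → res γ ν' = N γ := by
        intro γ h1 h2
        funext ξ
        by_cases h3 : ξ < γ
        · rw [res_apply h3]
          have h4 : max β (Order.succ ξ) ≤ γ := max_le h1 (Order.succ_le_of_lt h3)
          have h5 := hcomp (max β (Order.succ ξ)) γ (le_max_left _ _) h4 h2
          have h6 : ξ < max β (Order.succ ξ) := (Order.lt_succ ξ).trans_le (le_max_right _ _)
          have h7 : ν' ξ = N (max β (Order.succ ξ)) ξ := by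
            rw [hν']
            exact if_pos (h3.trans h2)
          rw [h7, ← h5, res_apply h6]
        · rw [isSeq_res γ ν' ξ (not_lt.1 h3), (h.seq γ _ (hN1 γ h1 h2)).2 ξ (not_lt.1 h3)]
      refine ⟨ν', ?_, ?_, ?_⟩
      · refine h.lim α ν' hα hlim ?_ ?_
        · intro ξ hξ
          rw [hν']
          exact if_neg (not_lt.2 hξ)
        · intro γ hγ
          by_cases h1 : β ≤ γ
          · rw [hres γ h1 hγ]
            exact hN1 γ h1 hγ
          · have h2 : γ ≤ β := (not_le.1 h1).le
            rw [← res_res h2, hres β le_rfl h0]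
            exact h.down β _ γ (hN1 β le_rfl h0) h2
      · rw [hres β le_rfl h0, ← hN2 β le_rfl h0]
        exact (res_self (h.seq β _ (hN1 β le_rfl h0)).2).symm
      · funext ξ
        show ν' (a ξ) = η ξ
        by_cases h1 : ξ < rho a α
        · have h2 : a ξ < α := (lt_rho ha).1 h1
          have h3 : max β (Order.succ (a ξ)) < α := max_lt h0 (hlim.succ_lt h2)
          have h4 : ν' (a ξ) = N (max β (Order.succ (a ξ))) (a ξ) := by
            rw [hν']
            exact if_pos h2
          have h5 := congrFun (hN3 _ (le_max_left β (Order.succ (a ξ))) h3) ξ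
          have h6 : ξ < rho a (max β (Order.succ (a ξ))) :=
            (lt_rho ha).2 ((Order.lt_succ _).trans_le (le_max_right _ _))
          rw [h4]
          rw [res_apply h6] at h5
          exact h5
        · have h2 : α ≤ a ξ := (rho_le_iff ha).1 (not_lt.1 h1)
          rw [hη ξ (not_lt.1 h1), hν']
          exact if_neg (not_lt.2 h2)

end HLP
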