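import Pool.Agent.H54.HL.Ec

/-!
ROW HL/Ed. Composition of suitable trees (`cT` in `D.lean`: `ν ∈ T β ∧ ν ∘ a ∈ T' (rho a β)`). `sub`, `card`: `a '' A'`, `a` injective (`Cardinal.mk_image_eq`), `a ξ < κ.ord` (`En.lt`).
`nonempty`: level `0`: the zero sequence is in `T 0` and in `T' 0` (`down` from the nonempty level, `res 0 η = fun _ => false`), `rho a 0 = 0`. `down`: `res_comp`, `rho_mono`.
`up`: if `β ≤ α` take `η`; else `T'.up` for `η ∘ a ∈ T' (rho a α)` and `rho a β` (`rho_le_self`), then `exists_ext`. `lim`: `η ∈ T δ` by `lim` of `T`. `η ∘ a ∈ T' (rho a δ)`: for every `ζ < rho a δ`: `a ζ < δ`, so `α = succ (a ζ) < δ`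
and `rho a α = succ ζ` (`rho_succ`), `res α η ∘ a = res (succ ζ) (η ∘ a) ∈ T' (succ ζ)`. If `rho a δ` is a limit use `lim` of `T'`; if it is `succ ζ`, `res (succ ζ) (η ∘ a) = η ∘ a`; if it is `0`: `res 0 η ∘ a` with `0 < δ`.
`split`: if `α ∈ A`, `α = a ξ`, `ξ < κ.ord`: `rho_succ`, `rho_apply`, `update_comp`, `T.split` gives both updates in `T`; then `T'.split`. If `α ∉ A` both sides are false.
-/

set_option autoImplicit false

namespace HLP

open Cardinal Ordinal

theorem compose {κ : Cardinal.{0}} {T T' : Ordinal.{0} → Set Sq} {A A' : Set Ordinal.{0}} {a : Ordinal.{0} → Ordinal.{0}}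
    (h : Suitable κ T A) (e : En κ A a) (h' : Suitable κ T' A') : Suitable κ (cT T T' a) (a '' A') := by
  have ha : StrictMono a := e.mono
  have hr0 : rho a 0 = 0 := le_antisymm (rho_le_self ha 0) (zero_le)
  refine ⟨?_, ?_, ?_, ?_, ?_, ?_, ?_, ?_⟩
  · rintro α ⟨ξ, hξ, rfl⟩
    exact En.lt h e (h'.sub ξ hξ)
  · rw [Cardinal.mk_image_eq ha.injective]
    exact h'.card
  · intro α η hη
    exact h.seq α η hη.1
  · obtain ⟨α, η, hη⟩ := h.nonempty
    obtain ⟨α', η', hη'⟩ := h'.nonempty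
    have h1 := h.down α η 0 hη zero_le
    have h2 := h'.down α' η' 0 hη' zero_le
    refine ⟨0, res 0 η, h1, ?_⟩
    rw [hr0]
    have h3 : res 0 η ∘ a = res 0 η' := by
      funext ξ
      show res 0 η (a ξ) = res 0 η' ξ
      unfold res
      rw [if_neg (not_lt.2 zero_le), if_neg (not_lt.2 zero_le)]
    rw [h3]
    exact h2
  · intro α η β hη hβ
    refine ⟨h.down α η β hη.1 hβ, ?_⟩
    rw [res_comp ha]
    exact h'.down _ _ _ hη.2 (rho_mono ha hβ)
  · intro α η β hη hβ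
    rcases le_or_gt β α with hba | hab
    · rw [max_eq_left hba]
      exact ⟨η, hη, res_self (h.seq α η hη.1).2⟩
    · rw [max_eq_right hab.le]
      have h1 : rho a β < κ.ord := (rho_le_self ha β).trans_lt hβ
      obtain ⟨ν₁, hν₁, hr⟩ := h'.up (rho a α) (η ∘ a) (rho a β) hη.2 h1
      rw [max_eq_right (rho_mono ha hab.le)] at hν₁
      have hres : res (rho a α) ν₁ = η ∘ a := hr
      obtain ⟨ν', hν', h3, h4⟩ := exists_ext h e hη.1 β hβ hab.le ν₁ (h'.seq _ _ hν₁).2 hres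
      refine ⟨ν', ⟨hν', ?_⟩, h3⟩
      rw [h4]
      exact hν₁
  · intro δ η hδ hlim hs hall
    refine ⟨h.lim δ η hδ hlim hs fun α hα => (hall α hα).1, ?_⟩
    have hs' : IsSeq (rho a δ) (η ∘ a) := isSeq_comp ha hs
    have key : ∀ ζ < rho a δ, res (Order.succ ζ) (η ∘ a) ∈ T' (Order.succ ζ) := by
      intro ζ hζ
      have h1 : a ζ < δ := (lt_rho ha).1 hζ
      have h2 := (hall (Order.succ (a ζ)) (hlim.succ_lt h1)).2
      rw [res_comp ha, rho_succ ha] at h2
      exact h2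
    rcases Ordinal.zero_or_succ_or_isSuccLimit (rho a δ) with h0 | ⟨ζ, hζ⟩ | hl
    · have h1 := (hall 0 hlim.bot_lt).2
      rw [res_comp ha, hr0] at h1
      rw [h0] at hs' ⊢
      rw [res_self hs'] at h1
      exact h1
    · have h1 := key ζ (by rw [← hζ]; exact Order.lt_succ ζ)
      rw [← hζ] at hs' ⊢
      rw [res_self hs'] at h1
      exact h1
    · refine h'.lim (rho a δ) (η ∘ a) ((rho_le_self ha δ).trans_lt hδ) hl hs' fun ζ hζ => ?_
      have h1 := h'.down _ _ ζ (key ζ hζ) (Order.le_succ ζ)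
      rw [res_res (Order.le_succ ζ)] at h1
      exact h1
  · intro α η hη
    constructor
    · rintro ⟨h1, h2⟩
      have h3 : α ∈ A := (h.split α η hη.1).1 ⟨h1.1, h2.1⟩
      obtain ⟨ξ, hξ, rfl⟩ := (e.mem α).1 h3
      refine ⟨ξ, ?_, rfl⟩
      have h4 := hη.2
      rw [rho_apply ha] at h4
      have h5 := h1.2
      have h6 := h2.2
      rw [update_comp ha, rho_succ ha] at h5 h6
      exact (h'.split ξ (η ∘ a) h4).1 ⟨h5, h6⟩
    · rintro ⟨ξ, hξ, rfl⟩
      have h3 : a ξ ∈ A := (e.mem _).2 ⟨ξ, h'.sub ξ hξ, rfl⟩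
      obtain ⟨h1, h2⟩ := (h.split (a ξ) η hη.1).2 h3
      have h4 := hη.2
      rw [rho_apply ha] at h4
      obtain ⟨h5, h6⟩ := (h'.split ξ (η ∘ a) h4).2 hξ
      refine ⟨⟨h1, ?_⟩, ⟨h2, ?_⟩⟩
      · rw [update_comp ha, rho_succ ha]
        exact h5
      · rw [update_comp ha, rho_succ ha]
        exact h6

end HLP
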