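import Pool.Agent.H54.HL.B

/-!
ROW HL/Ee. The full trees. `Fu_suitable`: all fields are direct (`up`: `η` itself is in `Fu κ B (max α β)`; `lim`: value at `ξ ∉ B`: if `ξ < δ`, use `α = succ ξ < δ`; `split`: if `α ∉ B` the update with `true` is not in the tree;
`κ.ord` is a limit: `Cardinal.isSuccLimit_ord`). `even_card`: `ξ ↦ 2 * ξ` is injective, `2 * ξ < κ.ord` (`Cardinal.principal_mul_ord` or `Cardinal.mul_lt_of_lt`); `#(Iio κ.ord) = lift κ` (`Cardinal.mk_Iio_ordinal`, `card_ord`).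
-/

set_option autoImplicit false

namespace HLP

open Cardinal Ordinal

theorem Fu_suitable {κ : Cardinal.{0}} (hκ : ℵ₀ ≤ κ) {B : Set Ordinal.{0}} (hB : ∀ α ∈ B, α < κ.ord)
    (hc : #B = Cardinal.lift.{1} κ) : Suitable κ (Fu κ B) B := by
  have hlim : Order.IsSuccLimit κ.ord := Cardinal.isSuccLimit_ord hκ
  have hpos : (0 : Ordinal.{0}) < κ.ord := by
    exact Ordinal.omega0_pos.trans_le (Ordinal.omega0_le_of_isSuccLimit hlim)
  refine
    { sub := hB
      card := hc
      seq := fun α η h => ⟨h.1, h.2.1⟩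
      nonempty := ⟨0, fun _ => false, hpos, fun _ _ => rfl, fun _ _ => rfl⟩
      down := ?_
      up := ?_
      lim := ?_
      split := ?_ }
  · intro α η β h hβ
    refine ⟨hβ.trans_lt h.1, isSeq_res β η, fun ξ hξ => ?_⟩
    unfold res
    split_ifs
    · exact h.2.2 ξ hξ
    · rfl
  · intro α η β h hβ
    exact ⟨η, ⟨max_lt h.1 hβ, h.2.1.mono (le_max_left _ _), h.2.2⟩, res_self h.2.1⟩
  · intro δ η hδ hl hs hall
    refine ⟨hδ, hs, fun ξ hξ => ?_⟩
    by_cases h1 : ξ < δ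
    · have h2 := (hall (Order.succ ξ) (hl.succ_lt h1)).2.2 ξ hξ
      rwa [res_apply (Order.lt_succ ξ)] at h2
    · exact hs ξ (not_lt.1 h1)
  · intro α η h
    constructor
    · intro h2
      by_contra h3
      have h4 := h2.2.2.2 α h3
      rw [Function.update_self] at h4
      exact absurd h4 (by decide)
    · intro hα
      have key : ∀ i : Bool, Function.update η α i ∈ Fu κ B (Order.succ α) := by
        intro i
        refine ⟨hlim.succ_lt h.1, isSeq_update h.2.1 i, fun ξ hξ => ?_⟩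
        have h3 : ξ ≠ α := fun h4 => hξ (h4 ▸ hα)
        rw [Function.update_of_ne h3]
        exact h.2.2 ξ hξ
      exact ⟨key false, key true⟩

theorem all_card (κ : Cardinal.{0}) : #(Set.Iio κ.ord) = Cardinal.lift.{1} κ := by
  rw [Cardinal.mk_Iio_ordinal, Cardinal.card_ord]

theorem even_lt {κ : Cardinal.{0}} (hκ : ℵ₀ ≤ κ) : ∀ α ∈ (fun ξ : Ordinal.{0} => 2 * ξ) '' Set.Iio κ.ord, α < κ.ord := by
  rintro α ⟨ξ, hξ, rfl⟩
  have h2 : (2 : Ordinal.{0}) < κ.ord := by
    refine lt_of_lt_of_le ?_ (Ordinal.omega0_le_of_isSuccLimit (Cardinal.isSuccLimit_ord hκ))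
    exact_mod_cast Ordinal.natCast_lt_omega0 2
  exact Ordinal.isPrincipal_mul_ord hκ h2 hξ

theorem even_card (κ : Cardinal.{0}) :
    #((fun ξ : Ordinal.{0} => 2 * ξ) '' Set.Iio κ.ord) = Cardinal.lift.{1} κ := by
  rw [Cardinal.mk_image_eq, all_card]
  intro a b h
  have h2 : (2 : Ordinal.{0}) * a = 2 * b := h
  exact mul_left_cancel₀ (two_ne_zero) h2

end HLP
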