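import Pool.Agent.H54.HL.Ea
import Pool.Agent.H54.HL.Ed
import Pool.Agent.H54.HL.Ee

/-!
ROW HL/Ef. Thinning: compose with the full tree with the even splitting levels `B = (2 * ·) '' Iio κ.ord` (`Fu_suitable`, `even_lt`, `even_card`, `compose`, `exists_En`). `A' = a '' B ⊆ A`. For `ζ = a (2 * ζ')`, `ξ = a (2 * ξ')`, `ζ < ξ`: `ζ' < ξ'`,
`2 * ζ' + 1 < 2 * ξ'`, so `succ ζ ≤ a (2 * ζ' + 1) < ξ`.
-/

set_option autoImplicit false

namespace HLP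

open Cardinal Ordinal

theorem thin {κ : Cardinal.{0}} (hκ : ℵ₀ ≤ κ) {T : Ordinal.{0} → Set Sq} {A : Set Ordinal.{0}} (h : Suitable κ T A) :
    ∃ (T' : Ordinal.{0} → Set Sq) (A' : Set Ordinal.{0}), Suitable κ T' A' ∧ (∀ α, T' α ⊆ T α) ∧ A' ⊆ A ∧
      ∀ ζ ∈ A', ∀ ξ ∈ A', ζ < ξ → Order.succ ζ < ξ := by
  obtain ⟨a, e⟩ := exists_En h.sub h.card
  have hF := Fu_suitable hκ (even_lt hκ) (even_card κ)
  refine ⟨_, _, compose h e hF, fun α ν hν => hν.1, ?_, ?_⟩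
  · rintro _ ⟨α, hα, rfl⟩
    exact (e.mem _).2 ⟨α, even_lt hκ α hα, rfl⟩
  · rintro _ ⟨_, ⟨ζ, _, rfl⟩, rfl⟩ _ ⟨_, ⟨ξ, _, rfl⟩, rfl⟩ hlt
    have h1 : 2 * ζ < 2 * ξ := e.mono.lt_iff_lt.1 hlt
    have h2 : ζ < ξ := by
      by_contra h3
      exact absurd h1 (not_lt.2 (mul_le_mul_right (not_lt.1 h3) 2))
    have h4 : Order.succ (2 * ζ) < 2 * ξ := by
      have h5 : 2 * Order.succ ζ ≤ 2 * ξ := mul_le_mul_right (Order.succ_le_of_lt h2) 2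
      refine lt_of_lt_of_le ?_ h5
      rw [Order.succ_eq_add_one, Order.succ_eq_add_one, mul_add, mul_one]
      exact (add_lt_add_iff_left (2 * ζ)).2 one_lt_two
    exact lt_of_le_of_lt (Order.succ_le_of_lt (e.mono (Order.lt_succ (2 * ζ)))) (e.mono h4)

end HLP
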