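import Pool.Agent.H54.HL.Ef

/-!
ROW HL/Eg. The principle relative to a suitable tree. Enumerate `A` by `a` (`exists_En`). For `IsSeq α x`, `α < κ.ord`, let `Φ α x ∈ T (a α)` with `Φ α x ∘ a = x` (`exists_ext` with `β = 0`, `rho_apply`; `T 0` contains the zero sequence by `down`). Pull back:
`lt' α x y = lt (a α) (Φ α x) (Φ α y)`, a well-order on the sequences of length `α` (`RelEmbedding.isWellOrder` for the injective map `Φ α`, `IsSeq (a α) (Φ α x)`), `c' α x y = d (a α) (Φ α x) (Φ α y)`, symmetric.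
`HLb` gives `T₁, A₁`; `thin` gives `T₂ ⊆ T₁`, `A₂ ⊆ A₁`; `T' = cT T T₂ a`, `A' = a '' A₂` (`compose`).
Colours: `η₀ ≠ η₁` in `T' α`; `x_l = η_l ∘ a ∈ T₂ (rho a α)`, different (`uniq`); `exists_diff`: `ζ < rho a α` first difference, `ζ ∈ A₂` (`Suitable.diff`); `e_l = res (succ ζ) x_l ∈ T₂ (succ ζ)`, different at `ζ`. Let `i` be the omitted colour for `succ ζ, e₀, e₁`.
For `(β, ν₀, ν₁) ∈ S T' A' lt α η₀ η₁`: `β = a ξ`, `ξ ∈ A₂`, `ζ < rho a α ≤ rho a β = ξ`, so `succ ζ < ξ`; `(ξ, ν₀ ∘ a, ν₁ ∘ a) ∈ S T₁ A₁ lt' (succ ζ) e₀ e₁` because `Φ ξ (ν_l ∘ a) = ν_l` (`uniq`), `res_comp`, `res_res`.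
-/

set_option autoImplicit false

namespace HLP

open Cardinal Ordinal

theorem relative {κ : Cardinal.{0}} (hκ : ℵ₀ ≤ κ) {θ : ℕ} (hθ : HLb κ θ) {lt : Ordinal.{0} → Sq → Sq → Prop} (hlt : WO κ lt)
    {T : Ordinal.{0} → Set Sq} {A : Set Ordinal.{0}} (h : Suitable κ T A) {d : Ordinal.{0} → Sq → Sq → Fin θ} (hd : Sym d) :
    ∃ (T' : Ordinal.{0} → Set Sq) (A' : Set Ordinal.{0}), Suitable κ T' A' ∧ (∀ α, T' α ⊆ T α) ∧ A' ⊆ A ∧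
      ∀ α η₀ η₁, η₀ ∈ T' α → η₁ ∈ T' α → η₀ ≠ η₁ → ∃ i : Fin θ, ∀ p ∈ S T' A' lt α η₀ η₁, d p.1 p.2.1 p.2.2 ≠ i := by
  classical
  obtain ⟨a, e⟩ := exists_En h.sub h.card
  have ha := e.mono
  have hz : (fun _ => false : Sq) ∈ T 0 := by
    obtain ⟨α, η, hη⟩ := h.nonempty
    have h1 := h.down α η 0 hη zero_le
    have h2 : res 0 η = fun _ => false := by
      funext ξ
      unfold res
      rw [if_neg (not_lt.2 zero_le)]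
    rwa [h2] at h1
  have hr0 : rho a 0 = 0 := le_antisymm (rho_le_self ha 0) zero_le
  have hex : ∀ (ξ : Ordinal.{0}) (x : Sq), ξ < κ.ord → IsSeq ξ x → ∃ ν : Sq, ν ∈ T (a ξ) ∧ ν ∘ a = x := by
    intro ξ x hξ hx
    obtain ⟨ν, h1, _, h3⟩ := exists_ext h e hz (a ξ) (En.lt h e hξ) zero_le x (by rwa [rho_apply ha]) (by
      rw [hr0]
      funext ζ
      unfold res
      rw [if_neg (not_lt.2 zero_le)]
      rfl)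
    exact ⟨ν, h1, h3⟩
  choose! Φ hΦ1 hΦ2 using hex
  let lt' : Ordinal.{0} → Sq → Sq → Prop := fun ξ x y => lt (a ξ) (Φ ξ x) (Φ ξ y)
  let c' : Ordinal.{0} → Sq → Sq → Fin θ := fun ξ x y => d (a ξ) (Φ ξ x) (Φ ξ y)
  have hWO : WO κ lt' := by
    intro ξ hξ
    have := hlt (a ξ) (En.lt h e hξ)
    let g : {η : Sq // IsSeq ξ η} → {η : Sq // IsSeq (a ξ) η} :=
      fun x => ⟨Φ ξ x.1, (h.seq _ _ (hΦ1 ξ x.1 hξ x.2)).2⟩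
    have hg : Function.Injective g := by
      intro x y hxy
      have h1 : Φ ξ x.1 = Φ ξ y.1 := congrArg Subtype.val hxy
      have h2 := hΦ2 ξ x.1 hξ x.2
      rw [h1, hΦ2 ξ y.1 hξ y.2] at h2
      exact Subtype.ext h2.symm
    let E : (fun x y : {η : Sq // IsSeq ξ η} => lt' ξ x.1 y.1) ↪r
        (fun x y : {η : Sq // IsSeq (a ξ) η} => lt (a ξ) x.1 y.1) := ⟨⟨g, hg⟩, Iff.rfl⟩
    exact E.isWellOrder
  obtain ⟨T₁, A₁, h₁, hc₁⟩ := hθ lt' hWO c' (fun ξ x y => hd _ _ _)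
  obtain ⟨T₂, A₂, h₂, hTT, hAA, hthin⟩ := thin hκ h₁
  refine ⟨cT T T₂ a, a '' A₂, compose h e h₂, fun α ν hν => hν.1, ?_, ?_⟩
  · rintro _ ⟨ξ, hξ, rfl⟩
    exact (e.mem _).2 ⟨ξ, h₂.sub ξ hξ, rfl⟩
  · intro α η₀ η₁ m₀ m₁ hne
    have hx : η₀ ∘ a ≠ η₁ ∘ a := fun h5 => hne (uniq h e m₀.1 m₁.1 h5)
    obtain ⟨ζ, hζ, hd1, hr1⟩ := exists_diff (h₂.seq _ _ m₀.2).2 (h₂.seq _ _ m₁.2).2 hx
    have hζA : ζ ∈ A₂ := h₂.diff m₀.2 m₁.2 hζ hd1 hr1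
    have hs : Order.succ ζ ≤ rho a α := Order.succ_le_of_lt hζ
    have k₀ : res (Order.succ ζ) (η₀ ∘ a) ∈ T₁ (Order.succ ζ) := hTT _ (h₂.down _ _ _ m₀.2 hs)
    have k₁ : res (Order.succ ζ) (η₁ ∘ a) ∈ T₁ (Order.succ ζ) := hTT _ (h₂.down _ _ _ m₁.2 hs)
    have kne : res (Order.succ ζ) (η₀ ∘ a) ≠ res (Order.succ ζ) (η₁ ∘ a) := by
      intro h1
      have h2 := congrFun h1 ζ
      rw [res_apply (Order.lt_succ ζ), res_apply (Order.lt_succ ζ)] at h2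
      exact hd1 h2
    obtain ⟨i, hi⟩ := hc₁ _ _ _ k₀ k₁ kne
    refine ⟨i, ?_⟩
    rintro ⟨β, ν₀, ν₁⟩ ⟨p1, ⟨ξ, hξ, hβ⟩, p3, p4, p5, p6, p7⟩
    have hβ' : a ξ = β := hβ
    subst hβ'
    have hξκ : ξ < κ.ord := h₂.sub ξ hξ
    have hζξ : ζ < ξ := by
      have h3 : rho a α ≤ ξ := (rho_le_iff ha).2 (le_of_lt p1)
      exact hζ.trans_le h3
    have hsξ : Order.succ ζ < ξ := hthin ζ hζA ξ hξ hζξ
    have hn₀ : ν₀ ∘ a ∈ T₂ ξ := by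
      have h3 := p3.2
      change ν₀ ∘ a ∈ T₂ (rho a (a ξ)) at h3
      rwa [rho_apply ha] at h3
    have hn₁ : ν₁ ∘ a ∈ T₂ ξ := by
      have h3 := p4.2
      change ν₁ ∘ a ∈ T₂ (rho a (a ξ)) at h3
      rwa [rho_apply ha] at h3
    have q₀ : Φ ξ (ν₀ ∘ a) = ν₀ :=
      uniq h e (hΦ1 ξ _ hξκ (h₂.seq _ _ hn₀).2) p3.1 (hΦ2 ξ _ hξκ (h₂.seq _ _ hn₀).2)
    have q₁ : Φ ξ (ν₁ ∘ a) = ν₁ :=
      uniq h e (hΦ1 ξ _ hξκ (h₂.seq _ _ hn₁).2) p4.1 (hΦ2 ξ _ hξκ (h₂.seq _ _ hn₁).2)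
    have r₀ : res (Order.succ ζ) (ν₀ ∘ a) = res (Order.succ ζ) (η₀ ∘ a) := by
      have h3 : res α ν₀ ∘ a = η₀ ∘ a := congrArg (· ∘ a) p5
      rw [res_comp ha] at h3
      rw [← h3, res_res hs]
    have r₁ : res (Order.succ ζ) (ν₁ ∘ a) = res (Order.succ ζ) (η₁ ∘ a) := by
      have h3 : res α ν₁ ∘ a = η₁ ∘ a := congrArg (· ∘ a) p6
      rw [res_comp ha] at h3
      rw [← h3, res_res hs]
    have hlt' : lt' ξ (ν₀ ∘ a) (ν₁ ∘ a) := by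
      show lt (a ξ) (Φ ξ (ν₀ ∘ a)) (Φ ξ (ν₁ ∘ a))
      rw [q₀, q₁]
      exact p7
    have hfin := hi ⟨ξ, ν₀ ∘ a, ν₁ ∘ a⟩ ⟨hsξ, hAA hξ, hTT _ hn₀, hTT _ hn₁, r₀, r₁, hlt'⟩
    intro hcon
    apply hfin
    show d (a ξ) (Φ ξ (ν₀ ∘ a)) (Φ ξ (ν₁ ∘ a)) = i
    rw [q₀, q₁]
    exact hcon

end HLP
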