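import Pool.Agent.H54.HL.Eg

/-!
ROW HL/Eh. One colour less. `C e₀ e₁ α = {i | ∃ p ∈ S T A lt α e₀ e₁, c p = i}`. For every set `C` of colours choose `f C : Fin m → Fin θ` with `θ ≤ C.ncard → ∀ i, ∃ j ∈ C, f C j = i`. For a level `β` and `x y : Sq` let `δ = sInf {ξ | x ξ ≠ y ξ}`,
`F β x y = f (C (succ δ) (res (succ δ) x) (res (succ δ) y)) (c β x y)`, and `d β x y = if lt β x y ∧ ¬ lt β y x then F β x y else if lt β y x ∧ ¬ lt β x y then F β y x else i₀` (`i₀ : Fin θ`, `θ > 0`), symmetric. `relative` gives `T', A'`.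
For `η₀ ≠ η₁` in `T' α` let `δ < α` be the first difference (`exists_diff`), `e_l = res (succ δ) η_l ∈ T (succ δ)`, different. `S T' A' lt α η₀ η₁ ⊆ S T A lt (succ δ) e₀ e₁` (`res_res`), and for `p` in the first set the first difference of `p.2.1, p.2.2` is `δ`,
`¬ lt p.2.2 p.2.1` (asymmetry of the well-order, `hlt`, `p.1 < κ.ord`), so `d p = f (C e₀ e₁) (c p)`. If the colour set of `η₀, η₁` had `≥ k` elements it would be equal to `C e₀ e₁` (`Set.eq_of_subset_of_ncard_le`), `f` maps it onto `Fin θ`: no colour of `d` is omitted, contradiction.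
-/

set_option autoImplicit false

namespace HLP

open Cardinal Ordinal

/-- the first difference -/
noncomputable def ehfd (x y : Sq) : Ordinal.{0} := sInf {ξ | x ξ ≠ y ξ}

theorem ehfd_eq {x y : Sq} {δ : Ordinal.{0}} (h : x δ ≠ y δ) (h' : ∀ ξ < δ, x ξ = y ξ) : ehfd x y = δ := by
  refine le_antisymm (csInf_le' h) (le_csInf ⟨δ, h⟩ fun ξ hξ => ?_)
  by_contra h2
  exact hξ (h' ξ (not_le.1 h2))

theorem eh_onto {m θ : ℕ} (hθ0 : 0 < θ) (C : Set (Fin m)) :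
    ∃ f : Fin m → Fin θ, θ ≤ C.ncard → ∀ i : Fin θ, ∃ j ∈ C, f j = i := by
  classical
  by_cases h : θ ≤ C.ncard
  · haveI : Nonempty (Fin θ) := ⟨⟨0, hθ0⟩⟩
    have h1 : Fintype.card (Fin θ) ≤ Fintype.card C := by
      rw [Fintype.card_fin, ← Nat.card_eq_fintype_card]
      exact h
    obtain ⟨e⟩ := Function.Embedding.nonempty_of_card_le h1
    refine ⟨fun j => if hj : j ∈ C then Function.invFun e ⟨j, hj⟩ else ⟨0, hθ0⟩, fun _ i => ?_⟩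
    obtain ⟨x, hx⟩ := Function.invFun_surjective e.injective i
    refine ⟨x.1, x.2, ?_⟩
    show (if hj : x.1 ∈ C then Function.invFun e ⟨x.1, hj⟩ else ⟨0, hθ0⟩) = i
    rw [dif_pos x.2]
    exact hx
  · exact ⟨fun _ => ⟨0, hθ0⟩, fun h1 => absurd h1 h⟩

/-- the set of colours -/
def ehC (T : Ordinal.{0} → Set Sq) (A : Set Ordinal.{0}) (lt : Ordinal.{0} → Sq → Sq → Prop) {m : ℕ}
    (c : Ordinal.{0} → Sq → Sq → Fin m) (α : Ordinal.{0}) (e₀ e₁ : Sq) : Set (Fin m) :=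
  {i | ∃ p ∈ S T A lt α e₀ e₁, c p.1 p.2.1 p.2.2 = i}

theorem step {κ : Cardinal.{0}} (hκ : ℵ₀ ≤ κ) {θ : ℕ} (hθ0 : 0 < θ) (hθ : HLb κ θ) {lt : Ordinal.{0} → Sq → Sq → Prop} (hlt : WO κ lt)
    {m : ℕ} (c : Ordinal.{0} → Sq → Sq → Fin m) {T : Ordinal.{0} → Set Sq} {A : Set Ordinal.{0}} (h : Suitable κ T A) {k : ℕ} (hk : θ ≤ k)
    (hC : ∀ α η₀ η₁, η₀ ∈ T α → η₁ ∈ T α → η₀ ≠ η₁ → {i : Fin m | ∃ p ∈ S T A lt α η₀ η₁, c p.1 p.2.1 p.2.2 = i}.ncard ≤ k) :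
    ∃ (T' : Ordinal.{0} → Set Sq) (A' : Set Ordinal.{0}), Suitable κ T' A' ∧
      ∀ α η₀ η₁, η₀ ∈ T' α → η₁ ∈ T' α → η₀ ≠ η₁ →
        {i : Fin m | ∃ p ∈ S T' A' lt α η₀ η₁, c p.1 p.2.1 p.2.2 = i}.ncard ≤ k - 1 := by
  classical
  choose f hf using fun C : Set (Fin m) => eh_onto hθ0 C
  let F : Ordinal.{0} → Sq → Sq → Fin θ := fun β x y =>
    f (ehC T A lt c (Order.succ (ehfd x y)) (res (Order.succ (ehfd x y)) x) (res (Order.succ (ehfd x y)) y)) (c β x y)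
  let d : Ordinal.{0} → Sq → Sq → Fin θ := fun β x y =>
    if lt β x y ∧ ¬ lt β y x then F β x y else if lt β y x ∧ ¬ lt β x y then F β y x else ⟨0, hθ0⟩
  have hd : Sym d := by
    intro β x y
    show (if lt β x y ∧ ¬ lt β y x then F β x y else if lt β y x ∧ ¬ lt β x y then F β y x else ⟨0, hθ0⟩) =
      (if lt β y x ∧ ¬ lt β x y then F β y x else if lt β x y ∧ ¬ lt β y x then F β x y else ⟨0, hθ0⟩)
    by_cases h1 : lt β x y ∧ ¬ lt β y x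
    · rw [if_pos h1, if_neg (fun h2 => h2.2 h1.1), if_pos h1]
    · rw [if_neg h1]
      by_cases h2 : lt β y x ∧ ¬ lt β x y
      · rw [if_pos h2, if_pos h2]
      · rw [if_neg h2, if_neg h2, if_neg h1]
  obtain ⟨T', A', h', hTT, hAA, hsep⟩ := relative hκ hθ hlt h hd
  refine ⟨T', A', h', fun α η₀ η₁ m₀ m₁ hne => ?_⟩
  by_contra hcon
  obtain ⟨i, hi⟩ := hsep α η₀ η₁ m₀ m₁ hne
  obtain ⟨δ, hδ, hdne, hdr⟩ := exists_diff (h'.seq α η₀ m₀).2 (h'.seq α η₁ m₁).2 hne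
  have hsδ : Order.succ δ ≤ α := Order.succ_le_of_lt hδ
  have hlow : ∀ ξ < δ, η₀ ξ = η₁ ξ := by
    intro ξ hξ
    have h1 := congrFun hdr ξ
    rwa [res_apply hξ, res_apply hξ] at h1
  have e₀ : res (Order.succ δ) η₀ ∈ T (Order.succ δ) := h.down α η₀ _ (hTT α m₀) hsδ
  have e₁ : res (Order.succ δ) η₁ ∈ T (Order.succ δ) := h.down α η₁ _ (hTT α m₁) hsδ
  have ene : res (Order.succ δ) η₀ ≠ res (Order.succ δ) η₁ := by
    intro h1
    have h2 := congrFun h1 δ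
    rw [res_apply (Order.lt_succ δ), res_apply (Order.lt_succ δ)] at h2
    exact hdne h2
  have hCk : (ehC T A lt c (Order.succ δ) (res (Order.succ δ) η₀) (res (Order.succ δ) η₁)).ncard ≤ k :=
    hC _ _ _ e₀ e₁ ene
  have hsub : ehC T' A' lt c α η₀ η₁ ⊆ ehC T A lt c (Order.succ δ) (res (Order.succ δ) η₀) (res (Order.succ δ) η₁) := by
    rintro j ⟨p, ⟨p1, p2, p3, p4, p5, p6, p7⟩, hpj⟩
    refine ⟨p, ⟨hsδ.trans_lt p1, hAA p2, hTT _ p3, hTT _ p4, ?_, ?_, p7⟩, hpj⟩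
    · rw [← p5, res_res hsδ]
    · rw [← p6, res_res hsδ]
  have hk1 : k ≤ (ehC T' A' lt c α η₀ η₁).ncard := by
    have h1 : k - 1 < (ehC T' A' lt c α η₀ η₁).ncard := not_le.1 hcon
    omega
  have heq := Set.eq_of_subset_of_ncard_le hsub (hCk.trans hk1) (Set.toFinite _)
  have hθk : θ ≤ (ehC T A lt c (Order.succ δ) (res (Order.succ δ) η₀) (res (Order.succ δ) η₁)).ncard := by
    rw [← heq]
    exact hk.trans hk1
  obtain ⟨j, hj, hji⟩ := hf _ hθk i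
  have hj' : j ∈ ehC T' A' lt c α η₀ η₁ := by
    rw [heq]
    exact hj
  obtain ⟨p, hp, hpj⟩ := hj'
  have hp' := hp
  obtain ⟨p1, p2, p3, p4, p5, p6, p7⟩ := hp'
  refine hi p hp ?_
  have hasym : ¬ lt p.1 p.2.2 p.2.1 := by
    haveI := hlt p.1 (h'.seq p.1 p.2.1 p3).1
    exact asymm_of (fun x y : {η : Sq // IsSeq p.1 η} => lt p.1 x.1 y.1)
      (a := ⟨p.2.1, (h'.seq p.1 p.2.1 p3).2⟩) (b := ⟨p.2.2, (h'.seq p.1 p.2.2 p4).2⟩) p7
  have hx : ∀ ξ < α, p.2.1 ξ = η₀ ξ := by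
    intro ξ hξ
    rw [← p5, res_apply hξ]
  have hy : ∀ ξ < α, p.2.2 ξ = η₁ ξ := by
    intro ξ hξ
    rw [← p6, res_apply hξ]
  have hfd : ehfd p.2.1 p.2.2 = δ := by
    refine ehfd_eq ?_ fun ξ hξ => ?_
    · rw [hx δ hδ, hy δ hδ]
      exact hdne
    · rw [hx ξ (hξ.trans hδ), hy ξ (hξ.trans hδ)]
      exact hlow ξ hξ
  show (if lt p.1 p.2.1 p.2.2 ∧ ¬ lt p.1 p.2.2 p.2.1 then F p.1 p.2.1 p.2.2 else _) = i
  rw [if_pos ⟨p7, hasym⟩]
  show f (ehC T A lt c (Order.succ (ehfd p.2.1 p.2.2)) (res (Order.succ (ehfd p.2.1 p.2.2)) p.2.1)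
    (res (Order.succ (ehfd p.2.1 p.2.2)) p.2.2)) (c p.1 p.2.1 p.2.2) = i
  have q0 : res (Order.succ δ) p.2.1 = res (Order.succ δ) η₀ := by rw [← p5, res_res hsδ]
  have q1 : res (Order.succ δ) p.2.2 = res (Order.succ δ) η₁ := by rw [← p6, res_res hsδ]
  rw [hfd, hpj, q0, q1]
  exact hji

end HLP
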