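import Pool.Agent.H54.HL.Eg

/-!
ROW HL/G0. `exists_node`: `nonempty` and `up`, `down`. `pull`: the first part of the proof of `relative` (`Eg.lean`): `a` from `exists_En`, `Φ` from `exists_ext` (`choose!`); `Φ ξ (ν ∘ a) = ν` by `uniq` (`IsSeq ξ (ν ∘ a)` by `isSeq_comp` and `rho_apply`).
-/

set_option autoImplicit false

namespace HLP

open Cardinal Ordinal

theorem Suitable.exists_node {κ : Cardinal.{0}} {T : Ordinal.{0} → Set Sq} {A : Set Ordinal.{0}} (h : Suitable κ T A)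
    {β : Ordinal.{0}} (hβ : β < κ.ord) : ∃ x, x ∈ T β := by
  obtain ⟨α, η, hη⟩ := h.nonempty
  obtain ⟨ν, hν, _⟩ := h.up α η β hη hβ
  exact ⟨res β ν, h.down _ ν β hν (le_max_right α β)⟩

theorem pull {κ : Cardinal.{0}} {T : Ordinal.{0} → Set Sq} {A : Set Ordinal.{0}} (h : Suitable κ T A) :
    ∃ (a : Ordinal.{0} → Ordinal.{0}) (Φ : Ordinal.{0} → Sq → Sq), En κ A a ∧
      (∀ α x, α < κ.ord → IsSeq α x → Φ α x ∈ T (a α) ∧ Φ α x ∘ a = x) ∧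
      ∀ ξ < κ.ord, ∀ ν ∈ T (a ξ), IsSeq ξ (ν ∘ a) ∧ Φ ξ (ν ∘ a) = ν := by
  classical
  obtain ⟨a, e⟩ := exists_En h.sub h.card
  have ha := e.mono
  have hz : (fun _ => false : Sq) ∈ T 0 := by
    obtain ⟨α, η, hη⟩ := h.nonempty
    have h1 := h.down α η 0 hη zero_le
    have h2 : res 0 η = fun _ => false := by
      funext ξ
      unfold res
      rw [if_neg (not_lt.2 zero_le)]
    rwa [h2] at h1
  have hr0 : rho a 0 = 0 := le_antisymm (rho_le_self ha 0) zero_le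
  have hex : ∀ (ξ : Ordinal.{0}) (x : Sq), ξ < κ.ord → IsSeq ξ x → ∃ ν : Sq, ν ∈ T (a ξ) ∧ ν ∘ a = x := by
    intro ξ x hξ hx
    obtain ⟨ν, h1, _, h3⟩ := exists_ext h e hz (a ξ) (En.lt h e hξ) zero_le x (by rwa [rho_apply ha]) (by
      rw [hr0]
      funext ζ
      unfold res
      rw [if_neg (not_lt.2 zero_le)]
      rfl)
    exact ⟨ν, h1, h3⟩
  choose! Φ hΦ1 hΦ2 using hex
  refine ⟨a, Φ, e, fun α x hα hx => ⟨hΦ1 α x hα hx, hΦ2 α x hα hx⟩, fun ξ hξ ν hν => ?_⟩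
  have h1 : IsSeq ξ (ν ∘ a) := by
    have h2 := isSeq_comp ha (h.seq _ _ hν).2
    rwa [rho_apply ha] at h2
  exact ⟨h1, uniq h e (hΦ1 ξ _ hξ h1) hν (hΦ2 ξ _ hξ h1)⟩

end HLP
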