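import Pool.Agent.H54.HL.W0

/-!
ROW HL/G1. The tree above a node with splitting levels `B`, as `Fu_suitable` (`Ee.lean`). `up`: extend `η` by `t₀` below `γ₀` and by zeros: `ν ε = η ε` for `ε < α`, `t₀ ε` for `α ≤ ε < min γ₀ (max α β)`, else `false`.
-/

set_option autoImplicit false

namespace HLP

open Cardinal Ordinal

/-- the tree of the sequences comparable with `t₀` that are `0` at the levels `≥ γ₀` outside `B` -/
def Fc (κ : Cardinal.{0}) (γ₀ : Ordinal.{0}) (t₀ : Sq) (B : Set Ordinal.{0}) (α : Ordinal.{0}) : Set Sq :=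
  {η | α < κ.ord ∧ IsSeq α η ∧ (∀ ε, ε < α → ε < γ₀ → η ε = t₀ ε) ∧ ∀ ε, γ₀ ≤ ε → ε ∉ B → η ε = false}

theorem Fc_suitable {κ : Cardinal.{0}} (hκ : ℵ₀ ≤ κ) {γ₀ : Ordinal.{0}} {t₀ : Sq} {B : Set Ordinal.{0}}
    (hB : ∀ α ∈ B, γ₀ ≤ α ∧ α < κ.ord) (hc : #B = Cardinal.lift.{1} κ) : Suitable κ (Fc κ γ₀ t₀ B) B := by
  have hlim : Order.IsSuccLimit κ.ord := Cardinal.isSuccLimit_ord hκ
  have hpos : (0 : Ordinal.{0}) < κ.ord := by
    exact Ordinal.omega0_pos.trans_le (Ordinal.omega0_le_of_isSuccLimit hlim)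
  refine
    { sub := fun α h => (hB α h).2
      card := hc
      seq := fun α η h => ⟨h.1, h.2.1⟩
      nonempty := ⟨0, fun _ => false, hpos, fun _ _ => rfl, fun ε h _ => absurd h (not_lt.2 (by simp)), fun _ _ _ => rfl⟩
      down := ?_
      up := ?_
      lim := ?_
      split := ?_ }
  · intro α η β h hβ
    refine ⟨hβ.trans_lt h.1, isSeq_res β η, fun ε h1 h2 => ?_, fun ε h1 h2 => ?_⟩
    · rw [res_apply h1]
      exact h.2.2.1 ε (h1.trans_le hβ) h2
    · unfold res
      split_ifs
      · exact h.2.2.2 ε h1 h2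
      · rfl
  · intro α η β h hβ
    refine ⟨fun ε => if ε < α then η ε else if ε < γ₀ ∧ ε < β then t₀ ε else false, ⟨max_lt h.1 hβ, ?_, ?_, ?_⟩, ?_⟩
    · intro ε h1
      have h2 : ¬ ε < α := not_lt.2 ((le_max_left _ _).trans h1)
      have h3 : ¬ (ε < γ₀ ∧ ε < β) := fun h4 => absurd h4.2 (not_lt.2 ((le_max_right _ _).trans h1))
      show (if ε < α then η ε else if ε < γ₀ ∧ ε < β then t₀ ε else false) = false
      rw [if_neg h2, if_neg h3]
    · intro ε h1 h2
      show (if ε < α then η ε else if ε < γ₀ ∧ ε < β then t₀ ε else false) = t₀ ε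
      by_cases h3 : ε < α
      · rw [if_pos h3]
        exact h.2.2.1 ε h3 h2
      · have h4 : ε < β := by
          rcases lt_max_iff.1 h1 with h5 | h5
          · exact absurd h5 h3
          · exact h5
        rw [if_neg h3, if_pos ⟨h2, h4⟩]
    · intro ε h1 h2
      show (if ε < α then η ε else if ε < γ₀ ∧ ε < β then t₀ ε else false) = false
      by_cases h3 : ε < α
      · rw [if_pos h3]
        exact h.2.2.2 ε h1 h2
      · rw [if_neg h3, if_neg (fun h4 => absurd h4.1 (not_lt.2 h1))]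
    · funext ε
      by_cases h3 : ε < α
      · rw [res_apply h3]
        show (if ε < α then η ε else if ε < γ₀ ∧ ε < β then t₀ ε else false) = η ε
        rw [if_pos h3]
      · rw [isSeq_res α _ ε (not_lt.1 h3), h.2.1 ε (not_lt.1 h3)]
  · intro δ η hδ hl hs hall
    refine ⟨hδ, hs, fun ε h1 h2 => ?_, fun ε h1 h2 => ?_⟩
    · have h3 := (hall (Order.succ ε) (hl.succ_lt h1)).2.2.1 ε (Order.lt_succ ε) h2
      rwa [res_apply (Order.lt_succ ε)] at h3
    · by_cases h3 : ε < δ
      · have h4 := (hall (Order.succ ε) (hl.succ_lt h3)).2.2.2 ε h1 h2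
        rwa [res_apply (Order.lt_succ ε)] at h4
      · exact hs ε (not_lt.1 h3)
  · intro α η h
    constructor
    · intro h2
      by_contra h3
      rcases lt_or_ge α γ₀ with h4 | h4
      · have h5 := h2.1.2.2.1 α (Order.lt_succ α) h4
        have h6 := h2.2.2.2.1 α (Order.lt_succ α) h4
        rw [Function.update_self] at h5 h6
        rw [← h5] at h6
        exact absurd h6 (by decide)
      · have h5 := h2.2.2.2.2 α h4 h3
        rw [Function.update_self] at h5
        exact absurd h5 (by decide)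
    · intro hα
      have key : ∀ i : Bool, Function.update η α i ∈ Fc κ γ₀ t₀ B (Order.succ α) := by
        intro i
        refine ⟨hlim.succ_lt h.1, isSeq_update h.2.1 i, fun ε h1 h2 => ?_, fun ε h1 h2 => ?_⟩
        · have h3 : ε < α := h2.trans_le (hB α hα).1
          rw [Function.update_of_ne h3.ne]
          exact h.2.2.1 ε h3 h2
        · have h3 : ε ≠ α := fun h4 => h2 (h4 ▸ hα)
          rw [Function.update_of_ne h3]
          exact h.2.2.2 ε h1 h2
      exact ⟨key false, key true⟩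

end HLP
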