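import Pool.Agent.H54.HL.W3

/-!
ROW HL/G2. As `agree` in `W4.lean`: `choose` for every `γ` a level `b γ` and `X γ : Sq → Sq` (`X γ s` = the `x` of the hypothesis), `exists_Lev`, `T = Tr κ γ₀ t₀ a g X`, `A = a '' Iio κ.ord`; `Tr_sel` with `lt = lt' = fun _ _ _ => True`.
-/

set_option autoImplicit false

namespace HLP

open Cardinal Ordinal

theorem good_tree {κ : Cardinal.{0}} (hκ : κ.IsInaccessible) {γ₀ : Ordinal.{0}} {t₀ : Sq} (h0 : γ₀ < κ.ord) (ht : IsSeq γ₀ t₀)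
    (P : Ordinal.{0} → Sq → Prop)
    (h : ∀ γ, γ₀ ≤ γ → γ < κ.ord → ∃ β, γ ≤ β ∧ β < κ.ord ∧ ∀ s, IsSeq γ s → res γ₀ s = t₀ → ∃ x, IsSeq β x ∧ res γ x = s ∧ P β x) :
    ∃ (T : Ordinal.{0} → Set Sq) (A : Set Ordinal.{0}), Suitable κ T A ∧ ∀ β ∈ A, ∀ x ∈ T β, P β x := by
  have hK' : ∀ γ : Ordinal.{0}, ∃ β : Ordinal.{0}, ∃ X : Sq → Sq, γ₀ ≤ γ → γ < κ.ord →
      (γ ≤ β ∧ β < κ.ord ∧ ∀ s, IsSeq γ s → res γ₀ s = t₀ →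
        IsSeq β (X s) ∧ res γ (X s) = s ∧ P β (X s)) := by
    intro γ
    by_cases hγ : γ₀ ≤ γ ∧ γ < κ.ord
    · obtain ⟨β, h1, h2, h3⟩ := h γ hγ.1 hγ.2
      have h4 : ∀ s : Sq, ∃ x : Sq, IsSeq γ s → res γ₀ s = t₀ →
          IsSeq β x ∧ res γ x = s ∧ P β x := by
        intro s
        by_cases hs : IsSeq γ s ∧ res γ₀ s = t₀
        · obtain ⟨x, hx⟩ := h3 s hs.1 hs.2
          exact ⟨x, fun _ _ => hx⟩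
        · exact ⟨s, fun h5 h6 => absurd ⟨h5, h6⟩ hs⟩
      choose X hX using h4
      exact ⟨β, X, fun _ _ => ⟨h1, h2, hX⟩⟩
    · exact ⟨0, id, fun h1 h2 => absurd ⟨h1, h2⟩ hγ⟩
  choose b X hbX using hK'
  obtain ⟨a, g, L⟩ := exists_Lev hκ h0 (b := b)
    (fun γ h1 h2 => ⟨(hbX γ h1 h2).1, (hbX γ h1 h2).2.1⟩)
  refine ⟨Tr κ γ₀ t₀ a g X, a '' Set.Iio κ.ord, Tr_suitable hκ.aleph0_lt.le L X, ?_⟩
  rintro β ⟨ξ, hξ, rfl⟩ x hx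
  have hξ' : ξ < κ.ord := hξ
  have hg : γ₀ ≤ g ξ := ((L.glb ξ hξ' (g ξ)).1 le_rfl).1
  have hgk : g ξ < κ.ord := (L.le ξ hξ').trans_lt (L.lt ξ hξ')
  have hb := (hbX _ hg hgk).2.2
  rw [← L.eq ξ hξ'] at hb
  have hS : Sel (fun _ _ _ => True) (fun _ _ _ => True) γ₀ t₀ (g ξ) (a ξ) (X (g ξ)) :=
    ⟨fun s hs hst => ⟨(hb s hs hst).1, (hb s hs hst).2.1⟩, fun _ _ _ _ _ _ => Iff.rfl⟩
  obtain ⟨hx1, hx2, hx3⟩ := Tr_sel ht L hξ' hS hx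
  rw [hx3]
  exact (hb _ hx1 hx2).2.2

end HLP
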