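import Pool.Agent.H54.HL.K0

/-!
ROW HL/G3. Pigeonhole: `K0b` for `κ`: the `s` are listed by `i < δ`, `δ < κ.ord`. If every set `B s = {β | γ ≤ β ∧ β < κ.ord ∧ P β s}` had fewer than `κ` elements, then the interval `[γ, κ.ord)` (with `lift κ` elements) would be a union of fewer than `κ` sets
of size `< lift κ`, against the regularity of `κ` (`Cardinal.mk_iUnion_le`, `IsRegular`, or `infinite_pigeonhole_card`; or with bounded sets: a bounded subset of `κ.ord` has fewer than `κ` elements and an unbounded one has `κ`). `#(B s) ≤ lift κ` is clear.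
-/

set_option autoImplicit false

namespace HLP

open Cardinal Ordinal

theorem pigeon {κ : Cardinal.{0}} (hκ : κ.IsInaccessible) {γ : Ordinal.{0}} (hγ : γ < κ.ord) (P : Ordinal.{0} → Sq → Prop)
    (h : ∀ β, γ ≤ β → β < κ.ord → ∃ s, IsSeq γ s ∧ P β s) :
    ∃ s, IsSeq γ s ∧ #{β : Ordinal.{0} | γ ≤ β ∧ β < κ.ord ∧ P β s} = Cardinal.lift.{1} κ := by
  classical
  by_contra hcon
  push Not at hcon
  have hreg : (Cardinal.lift.{1} κ).IsRegular := hκ.isRegular.lift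
  have hκκ : #(Set.Iio κ.ord) = Cardinal.lift.{1} κ := by
    rw [Cardinal.mk_Iio_ordinal, Cardinal.card_ord]
  have hlt : ∀ s, IsSeq γ s → #{β : Ordinal.{0} | γ ≤ β ∧ β < κ.ord ∧ P β s} < Cardinal.lift.{1} κ := by
    intro s hs
    refine lt_of_le_of_ne ?_ (hcon s hs)
    rw [← hκκ]
    exact Cardinal.mk_le_mk_of_subset (fun β hβ => hβ.2.1)
  obtain ⟨δ, hδ, e, he⟩ := K0b hκ hγ
  let t : Set.Iio δ → Set Ordinal.{0} := fun i =>
    if IsSeq γ (e i.1) then {β : Ordinal.{0} | γ ≤ β ∧ β < κ.ord ∧ P β (e i.1)} else ∅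
  have ht : ∀ i, #(t i) < Cardinal.lift.{1} κ := by
    intro i
    show #((if IsSeq γ (e i.1) then {β : Ordinal.{0} | γ ≤ β ∧ β < κ.ord ∧ P β (e i.1)} else ∅ : Set Ordinal.{0})) < _
    by_cases hi : IsSeq γ (e i.1)
    · rw [if_pos hi]
      exact hlt _ hi
    · rw [if_neg hi, Cardinal.mk_emptyCollection]
      exact lt_of_lt_of_le Cardinal.aleph0_pos hreg.aleph0_le
  have hι : #(Set.Iio δ) < Cardinal.lift.{1} κ := by
    rw [Cardinal.mk_Iio_ordinal, Cardinal.lift_lt]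
    exact Cardinal.lt_ord.1 hδ
  have hU : #(⋃ i, t i) < Cardinal.lift.{1} κ :=
    (Cardinal.card_iUnion_lt_iff_forall_of_isRegular hreg hι).2 ht
  have hsub : Set.Iio κ.ord ⊆ Set.Iio γ ∪ ⋃ i, t i := by
    intro β hβ
    by_cases h1 : β < γ
    · exact Or.inl h1
    · obtain ⟨s, hs, hP⟩ := h β (not_lt.1 h1) hβ
      obtain ⟨i, hi, rfl⟩ := he s hs
      refine Or.inr (Set.mem_iUnion.2 ⟨⟨i, hi⟩, ?_⟩)
      show β ∈ (if IsSeq γ (e i) then {β : Ordinal.{0} | γ ≤ β ∧ β < κ.ord ∧ P β (e i)} else ∅ : Set Ordinal.{0})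
      rw [if_pos hs]
      exact ⟨not_lt.1 h1, hβ, hP⟩
  have hγ' : #(Set.Iio γ) < Cardinal.lift.{1} κ := by
    rw [Cardinal.mk_Iio_ordinal, Cardinal.lift_lt]
    exact Cardinal.lt_ord.1 hγ
  have h2 : #(Set.Iio κ.ord) < Cardinal.lift.{1} κ :=
    ((Cardinal.mk_le_mk_of_subset hsub).trans (Cardinal.mk_union_le _ _)).trans_lt
      (Cardinal.add_lt_of_lt hreg.aleph0_le hγ' hU)
  rw [hκκ] at h2
  exact lt_irrefl _ h2

end HLP
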