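import Pool.Agent.H54.HL.G0
import Pool.Agent.H54.HL.G1
import Pool.Agent.H54.HL.G2
import Pool.Agent.H54.HL.G3

/-!
ROW HL/G4. Colourings of nodes, induction on `n`. `n = 0`: `A₀` is nonempty (`card`), `exists_node`: contradiction. `n + 1`: `pull` for `T₀`: `a, Φ`. Case 1: the hypothesis of `good_tree` holds for `γ₀ = 0`, `t₀ = fun _ => false`, `P ξ x := F (a ξ) (Φ ξ x) = n`: get `T₁, A₁`;
`T = cT T₀ T₁ a`, `A = a '' A₁` (`compose`), colour `n` (`ν = Φ ξ (ν ∘ a)`, `rho_apply`). Case 2: there is `γ < κ.ord` such that for every `β` with `γ ≤ β < κ.ord` some `s` (`IsSeq γ s`) has `F (a β) (Φ β x) ≠ n` for all `x` with `IsSeq β x`, `res γ x = s`. `pigeon`: one `s` and a set `B` of levels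
of size `κ`. `Fc_suitable` for `(γ, s, B)`; `T₂ = cT T₀ (Fc κ γ s B) a`, `A₂ = a '' B`: there `F < n` (for `ξ ∈ B`, `ν ∈ T₂ (a ξ)`: `ν ∘ a ∈ Fc κ γ s B ξ`, so `res γ (ν ∘ a) = s` as `γ ≤ ξ`). Induction hypothesis for `T₂, A₂`.
-/

set_option autoImplicit false

namespace HLP

open Cardinal Ordinal

theorem HL1 {κ : Cardinal.{0}} (hκ : κ.IsInaccessible) (F : Ordinal.{0} → Sq → ℕ) (n : ℕ) {T₀ : Ordinal.{0} → Set Sq}
    {A₀ : Set Ordinal.{0}} (h : Suitable κ T₀ A₀) (hF : ∀ β ∈ A₀, ∀ x ∈ T₀ β, F β x < n) :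
    ∃ (T : Ordinal.{0} → Set Sq) (A : Set Ordinal.{0}), Suitable κ T A ∧ (∀ α, T α ⊆ T₀ α) ∧ A ⊆ A₀ ∧
      ∃ i, ∀ β ∈ A, ∀ x ∈ T β, F β x = i := by
  have hω : ℵ₀ ≤ κ := hκ.aleph0_lt.le
  have hpos : (0 : Ordinal.{0}) < κ.ord :=
    Ordinal.omega0_pos.trans_le (Ordinal.omega0_le_of_isSuccLimit (Cardinal.isSuccLimit_ord hω))
  induction n generalizing T₀ A₀ with
  | zero =>
    exfalso
    have hne : A₀.Nonempty := by
      rw [Set.nonempty_iff_ne_empty]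
      intro h0
      have h1 := h.card
      rw [h0, Cardinal.mk_eq_zero] at h1
      have h2 : κ = 0 := Cardinal.lift_eq_zero.1 h1.symm
      rw [h2] at hω
      exact absurd (Cardinal.aleph0_pos.trans_le hω) (lt_irrefl _)
    obtain ⟨β, hβ⟩ := hne
    obtain ⟨x, hx⟩ := h.exists_node (h.sub β hβ)
    exact absurd (hF β hβ x hx) (Nat.not_lt_zero _)
  | succ n ih =>
    obtain ⟨a, Φ, e, hΦ, hΦ'⟩ := pull h
    have ha : StrictMono a := e.mono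
    by_cases hc : ∀ γ, γ < κ.ord → ∃ β, γ ≤ β ∧ β < κ.ord ∧ ∀ s, IsSeq γ s →
        ∃ x, IsSeq β x ∧ res γ x = s ∧ F (a β) (Φ β x) = n
    · obtain ⟨T₁, A₁, h₁, hT₁⟩ := good_tree hκ (γ₀ := 0) (t₀ := fun _ => false) hpos (fun _ _ => rfl)
        (fun β x => F (a β) (Φ β x) = n) (fun γ _ hγ => by
          obtain ⟨β, b1, b2, b3⟩ := hc γ hγ
          exact ⟨β, b1, b2, fun s hs _ => b3 s hs⟩)
      refine ⟨cT T₀ T₁ a, a '' A₁, compose h e h₁, fun α x hx => hx.1, ?_, n, ?_⟩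
      · rintro _ ⟨ξ, hξ, rfl⟩
        exact (e.mem _).2 ⟨ξ, h₁.sub ξ hξ, rfl⟩
      · rintro _ ⟨ξ, hξ, rfl⟩ x ⟨hx1, hx2⟩
        rw [rho_apply ha] at hx2
        have h3 := hT₁ ξ hξ _ hx2
        have h4 := (hΦ' ξ (h₁.sub ξ hξ) x hx1).2
        simp only [h4] at h3
        exact h3
    · push Not at hc
      obtain ⟨γ, hγ, hc⟩ := hc
      obtain ⟨s, hs, hcard⟩ := pigeon hκ hγ
        (fun β s => ∀ x, IsSeq β x → res γ x = s → F (a β) (Φ β x) ≠ n) hc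
      obtain ⟨B, hB⟩ : ∃ B : Set Ordinal.{0}, B = {β : Ordinal.{0} | γ ≤ β ∧ β < κ.ord ∧
          ∀ x, IsSeq β x → res γ x = s → F (a β) (Φ β x) ≠ n} := ⟨_, rfl⟩
      rw [← hB] at hcard
      have hBm : ∀ β, β ∈ B → γ ≤ β ∧ β < κ.ord ∧ ∀ x, IsSeq β x → res γ x = s → F (a β) (Φ β x) ≠ n := by
        intro β hβ
        rw [hB] at hβ
        exact hβ
      have hsuit := Fc_suitable hω (γ₀ := γ) (t₀ := s) (B := B) (fun α hα => ⟨(hBm α hα).1, (hBm α hα).2.1⟩) hcard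
      have hcomp := compose h e hsuit
      have hsub : a '' B ⊆ A₀ := by
        rintro _ ⟨ξ, hξ, rfl⟩
        exact (e.mem _).2 ⟨ξ, (hBm ξ hξ).2.1, rfl⟩
      obtain ⟨T, A, hT1, hT2, hT3, hT4⟩ := ih hcomp (by
        rintro _ ⟨ξ, hξ, rfl⟩ x ⟨hx1, hx2⟩
        rw [rho_apply ha] at hx2
        obtain ⟨b1, b2, b3⟩ := hBm ξ hξ
        have hr : res γ (x ∘ a) = s := by
          funext ε
          by_cases hε : ε < γ
          · rw [res_apply hε]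
            exact hx2.2.2.1 ε (hε.trans_le b1) hε
          · rw [isSeq_res γ (x ∘ a) ε (not_lt.1 hε), hs ε (not_lt.1 hε)]
        have h5 := b3 (x ∘ a) hx2.2.1 hr
        rw [(hΦ' ξ b2 x hx1).2] at h5
        have h6 := hF (a ξ) (hsub ⟨ξ, hξ, rfl⟩) x hx1
        omega)
      exact ⟨T, A, hT1, fun α x hx => (hT2 α hx).1, fun α hα => hsub (hT3 hα), hT4⟩

end HLP
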