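import Pool.Agent.H54.HL.Z
import Pool.Agent.H54.HL.G4

/-!
ROW HL/G5. `main` gives `T₀, A₀`. For a node `s` of length `β`: `C₀ β s = {i | ∃ p ∈ S T₀ A₀ lt (succ β) (update s β false) (update s β true), c p = i}`, `C₁ β s` the same with the two nodes exchanged. `F β s` = code of `(C₀ β s, C₁ β s)` in `ℕ` (`Finite.equivFin` of
`Set (Fin m) × Set (Fin m)`). `HL1` gives `T₁, A₁` with `F` constant, so `C₀ β s = F₀`, `C₁ β s = F₁` for all `β ∈ A₁`, `s ∈ T₁ β` (`A₁` nonempty, `exists_node`; `F₀.ncard < θ` by `split` of `T₀` and `main`). `thin` gives `T₂, A₂`. For `x, y ∈ T₂ β`, `β ∈ A₂`, first difference `δ`, `x δ = false`, `y δ = true`: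
`δ < β` (`IsSeq β`), `δ ∈ A₂` (`Suitable.diff`), `succ δ < β`, `s = res δ x = res δ y ∈ T₂ δ` and `res (succ δ) x = update s δ false` (`eq_update`, `isSeq_res`, `res_res`, `res_apply`), so `(β, x, y) ∈ S T₀ A₀ lt (succ δ) ..` if `lt β x y`, and `(β, y, x)` in the other set if `lt β y x`.
-/

set_option autoImplicit false

namespace HLP

open Cardinal Ordinal

theorem degree {κ : Cardinal.{0}} (hκ : κ.IsInaccessible) {θ : ℕ} (hθ0 : 0 < θ) (hθ : HLb κ θ) {lt : Ordinal.{0} → Sq → Sq → Prop}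
    (hlt : WO κ lt) {m : ℕ} (c : Ordinal.{0} → Sq → Sq → Fin m) :
    ∃ (T : Ordinal.{0} → Set Sq) (A : Set Ordinal.{0}) (F₀ F₁ : Set (Fin m)), Suitable κ T A ∧ F₀.ncard < θ ∧ F₁.ncard < θ ∧
      ∀ β ∈ A, ∀ x ∈ T β, ∀ y ∈ T β, (∃ δ, res δ x = res δ y ∧ x δ = false ∧ y δ = true) →
        (lt β x y → c β x y ∈ F₀) ∧ (lt β y x → c β y x ∈ F₁) := by
  classical
  have hκ0 : ℵ₀ ≤ κ := hκ.1.le
  obtain ⟨T₀, A₀, h0, hC⟩ := main hκ0 hθ0 hθ hlt c
  let C₀ : Ordinal.{0} → Sq → Set (Fin m) := fun β s =>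
    {i | ∃ p ∈ S T₀ A₀ lt (Order.succ β) (Function.update s β false) (Function.update s β true), c p.1 p.2.1 p.2.2 = i}
  let C₁ : Ordinal.{0} → Sq → Set (Fin m) := fun β s =>
    {i | ∃ p ∈ S T₀ A₀ lt (Order.succ β) (Function.update s β true) (Function.update s β false), c p.1 p.2.1 p.2.2 = i}
  let e := Finite.equivFin (Set (Fin m) × Set (Fin m))
  obtain ⟨T₁, A₁, h1, hT1, hA1, i, hi⟩ := HL1 hκ (fun β s => ((e (C₀ β s, C₁ β s) : Fin _) : ℕ))
    (Nat.card (Set (Fin m) × Set (Fin m))) h0 (fun β _ x _ => (e _).2)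
  obtain ⟨T₂, A₂, h2, hT2, hA2, hthin⟩ := thin hκ0 h1
  have hne : A₁.Nonempty := by
    rw [Set.nonempty_iff_ne_empty]
    intro h
    have h3 := h1.card
    rw [h, Cardinal.mk_emptyCollection] at h3
    have h4 : κ = 0 := Cardinal.lift_eq_zero.1 h3.symm
    rw [h4] at hκ0
    exact absurd hκ0 (not_le.2 Cardinal.aleph0_pos)
  obtain ⟨β₁, hβ₁⟩ := hne
  obtain ⟨x₁, hx₁⟩ := h1.exists_node (h1.sub β₁ hβ₁)
  have hup := (h0.split β₁ x₁ (hT1 β₁ hx₁)).2 (hA1 hβ₁)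
  have hud : Function.update x₁ β₁ false ≠ Function.update x₁ β₁ true := by
    intro h
    have h3 := congrFun h β₁
    rw [Function.update_self, Function.update_self] at h3
    exact absurd h3 (by decide)
  refine ⟨T₂, A₂, C₀ β₁ x₁, C₁ β₁ x₁, h2, hC _ _ _ hup.1 hup.2 hud, hC _ _ _ hup.2 hup.1 hud.symm, ?_⟩
  rintro β hβ x hx y hy ⟨δ, hr, hxδ, hyδ⟩
  have hδ : δ < β := by
    by_contra h
    have h3 := (h2.seq β y hy).2 δ (not_lt.1 h)
    rw [hyδ] at h3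
    exact absurd h3 (by decide)
  have hδA : δ ∈ A₂ := h2.diff hx hy hδ (by rw [hxδ, hyδ]; decide) hr
  have hsβ : Order.succ δ < β := hthin δ hδA β hβ hδ
  have hs : res δ x ∈ T₁ δ := hT2 δ (h2.down β x δ hx hδ.le)
  have hpair : (C₀ δ (res δ x), C₁ δ (res δ x)) = (C₀ β₁ x₁, C₁ β₁ x₁) := by
    apply e.injective
    apply Fin.ext
    exact (hi δ (hA2 hδA) _ hs).trans (hi β₁ hβ₁ _ hx₁).symm
  have e0 : C₀ δ (res δ x) = C₀ β₁ x₁ := congrArg Prod.fst hpair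
  have e1 : C₁ δ (res δ x) = C₁ β₁ x₁ := congrArg Prod.snd hpair
  have hrx : res (Order.succ δ) x = Function.update (res δ x) δ false := by
    rw [eq_update (isSeq_res (Order.succ δ) x), res_res (Order.le_succ δ), res_apply (Order.lt_succ δ), hxδ]
  have hry : res (Order.succ δ) y = Function.update (res δ x) δ true := by
    rw [eq_update (isSeq_res (Order.succ δ) y), res_res (Order.le_succ δ), res_apply (Order.lt_succ δ), hyδ, hr]
  have hx0 : x ∈ T₀ β := hT1 β (hT2 β hx)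
  have hy0 : y ∈ T₀ β := hT1 β (hT2 β hy)
  have hβ0 : β ∈ A₀ := hA1 (hA2 hβ)
  constructor
  · intro hl
    rw [← e0]
    exact ⟨(β, x, y), ⟨hsβ, hβ0, hx0, hy0, hrx, hry, hl⟩, rfl⟩
  · intro hl
    rw [← e1]
    exact ⟨(β, y, x), ⟨hsβ, hβ0, hy0, hx0, hry, hrx, hl⟩, rfl⟩

end HLP
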