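import Pool.Agent.H54.HL.W0

/-!
ROW HL/K0. Cardinalities of nodes below an inaccessible `μ`. `IsSeq γ t` functions inject into `Set.Iio γ → Bool` (or `Set (Set.Iio γ)`), so their number is `lift (2 ^ card γ) < lift μ` (`hμ.isStrongLimit`, `mk_Iio_ordinal`,
`card_lt` from `lt_ord`). `K0b`: `δ = (2 ^ card γ).ord`, a surjection from `Iio δ` onto them (nonempty: the zero function). `K0a`: the number of pairs is at most `μ * μ = μ`; a surjection from `Iio μ.ord`.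
-/

set_option autoImplicit false

namespace HLP

open Cardinal Ordinal

theorem K0b {μ : Cardinal.{0}} (hμ : μ.IsInaccessible) {γ : Ordinal.{0}} (hγ : γ < μ.ord) :
    ∃ δ < μ.ord, ∃ e : Ordinal.{0} → Sq, ∀ t, IsSeq γ t → ∃ i < δ, e i = t := by
  classical
  have h1 : γ.card < μ := lt_ord.1 hγ
  have h2 : (2 : Cardinal.{0}) ^ γ.card < μ := hμ.isStrongPrelimit h1
  have h3 : #{t : Sq // IsSeq γ t} ≤ #(Set.Iio (((2 : Cardinal.{0}) ^ γ.card).ord)) := by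
    rw [Cardinal.mk_Iio_ordinal, card_ord]
    have h4 : #{t : Sq // IsSeq γ t} ≤ #(Set.Iio γ → Bool) := by
      refine mk_le_of_injective (f := fun (t : {t : Sq // IsSeq γ t}) (ξ : Set.Iio γ) => t.1 ξ.1) ?_
      intro t t' h
      refine Subtype.ext (funext fun ξ => ?_)
      by_cases hξ : ξ < γ
      · exact congrFun h ⟨ξ, hξ⟩
      · rw [t.2 ξ (not_lt.1 hξ), t'.2 ξ (not_lt.1 hξ)]
    refine h4.trans ?_
    rw [mk_arrow, Cardinal.mk_Iio_ordinal]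
    simp
  obtain ⟨f⟩ := h3
  have hne : Nonempty {t : Sq // IsSeq γ t} := ⟨⟨fun _ => false, fun _ _ => rfl⟩⟩
  refine ⟨_, ord_lt_ord.2 h2, fun i => if h : i ∈ Set.Iio (((2 : Cardinal.{0}) ^ γ.card).ord) then (Function.invFun f ⟨i, h⟩).1 else fun _ => false,
    fun t ht => ⟨(f ⟨t, ht⟩).1, (f ⟨t, ht⟩).2, ?_⟩⟩
  simp only
  rw [dif_pos (f ⟨t, ht⟩).2]
  have h5 : Function.invFun f (f ⟨t, ht⟩) = ⟨t, ht⟩ := Function.leftInverse_invFun f.injective ⟨t, ht⟩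
  exact congrArg Subtype.val h5

theorem K0a {μ : Cardinal.{0}} (hμ : μ.IsInaccessible) :
    ∃ e : Ordinal.{0} → Ordinal.{0} × Sq, ∀ γ t, γ < μ.ord → IsSeq γ t → ∃ i < μ.ord, e i = (γ, t) := by
  classical
  have h1 : ∀ γ : Ordinal.{0}, γ < μ.ord → ∃ e : Ordinal.{0} → Sq, ∀ t, IsSeq γ t → ∃ i < μ.ord, e i = t := by
    intro γ hγ
    obtain ⟨δ, hδ, e, he⟩ := K0b hμ hγ
    refine ⟨e, fun t ht => ?_⟩
    obtain ⟨i, hi, h⟩ := he t ht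
    exact ⟨i, hi.trans hδ, h⟩
  choose! e he using h1
  have h2 : #(Set.Iio μ.ord × Set.Iio μ.ord) = #(Set.Iio μ.ord) := by
    rw [mk_prod, Cardinal.lift_id, Cardinal.mk_Iio_ordinal, card_ord]
    exact mul_eq_self (aleph0_le_lift.2 hμ.aleph0_lt.le)
  obtain ⟨g⟩ := Cardinal.eq.1 h2
  refine ⟨fun i => if h : i ∈ Set.Iio μ.ord then ((g.symm ⟨i, h⟩).1.1, e (g.symm ⟨i, h⟩).1.1 (g.symm ⟨i, h⟩).2.1) else (0, fun _ => false), ?_⟩
  intro γ t hγ ht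
  obtain ⟨j, hj, h3⟩ := he γ hγ t ht
  refine ⟨(g (⟨γ, hγ⟩, ⟨j, hj⟩)).1, (g (⟨γ, hγ⟩, ⟨j, hj⟩)).2, ?_⟩
  simp only
  rw [dif_pos (g (⟨γ, hγ⟩, ⟨j, hj⟩)).2]
  simp [h3]

end HLP
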