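import Pool.Agent.H54.HL.W0

/-!
ROW HL/K1. Baire category. Let `F i`, `i < μ.ord`, be nowhere dense. By well-founded recursion on `i` define nodes `(l i, s i)`: `(l', s')` = union of the earlier nodes and `(γ, t)`: `l' = max γ (⨆ j < i, l j)` (`< μ.ord`, `μ` regular),
`s' ε = t ε` for `ε < γ`, else `s j ε` for the least `j < i` with `ε < l j`; `(l i, s i)` the node from `NWD` of `F i` above `(l', s')`. Invariant (strong induction): `j ≤ i` implies `l j ≤ l i`, `res (l j) (s i) = s j`, `res γ (s i) = t`.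
`x` = the union of all `s i`, `false` elsewhere: `IsSeq μ.ord x`, `res (l i) x = s i`, so `x ∉ F i` for all `i`. (Any other proof is fine, e.g. Zorn's lemma on chains of nodes.)
-/

set_option autoImplicit false

namespace HLP

open Cardinal Ordinal

theorem K1 {μ : Cardinal.{0}} (hμ : μ.IsInaccessible) {γ : Ordinal.{0}} {t : Sq} (hγ : γ < μ.ord) (ht : IsSeq γ t) :
    ¬ Sm μ {x | IsSeq μ.ord x ∧ res γ x = t} := by
  classical
  rintro ⟨F, hF, hcov⟩
  have sup_lt : ∀ i < μ.ord, ∀ f : Set.Iio i → Ordinal.{0}, (∀ k, f k < μ.ord) → ⨆ k, f k < μ.ord := by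
    intro i hi f hf
    apply Ordinal.lift_iSup_lt_of_lt_cof _ hf
    rw [← Ordinal.lift_cof, hμ.isRegular.cof_ord, Cardinal.mk_Iio_ordinal, Cardinal.lift_lift, Cardinal.lift_lt,
      ← Cardinal.lt_ord]
    exact hi
  obtain ⟨nx, hnx⟩ : ∃ nx : Ordinal.{0} → Ordinal.{0} × Sq → Ordinal.{0} × Sq, ∀ i p,
      (∃ q : Ordinal.{0} × Sq, p.1 ≤ q.1 ∧ q.1 < μ.ord ∧ IsSeq q.1 q.2 ∧ res p.1 q.2 = p.2 ∧
        ∀ x ∈ F i, res q.1 x ≠ q.2) →
      p.1 ≤ (nx i p).1 ∧ (nx i p).1 < μ.ord ∧ IsSeq (nx i p).1 (nx i p).2 ∧ res p.1 (nx i p).2 = p.2 ∧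
        ∀ x ∈ F i, res (nx i p).1 x ≠ (nx i p).2 := by
    refine ⟨fun i p => if h : ∃ q : Ordinal.{0} × Sq, p.1 ≤ q.1 ∧ q.1 < μ.ord ∧ IsSeq q.1 q.2 ∧
      res p.1 q.2 = p.2 ∧ ∀ x ∈ F i, res q.1 x ≠ q.2 then h.choose else p, fun i p h => ?_⟩
    simp only [dif_pos h]
    exact h.choose_spec
  let s : Ordinal.{0} → Ordinal.{0} × Sq :=
    (wellFounded_lt : WellFounded ((· < ·) : Ordinal.{0} → Ordinal.{0} → Prop)).fix (fun i ih =>
      nx i (sInf {l | γ ≤ l ∧ ∀ j (hj : j < i), (ih j hj).1 ≤ l},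
        fun ε => decide (t ε = true ∨ ∃ j, ∃ hj : j < i, (ih j hj).2 ε = true)))
  have hs : ∀ i, s i = nx i (sInf {l | γ ≤ l ∧ ∀ j (_ : j < i), (s j).1 ≤ l},
        fun ε => decide (t ε = true ∨ ∃ j, ∃ _ : j < i, (s j).2 ε = true)) := fun i =>
    WellFounded.fix_eq _ _ i
  clear_value s
  let Inv : Ordinal.{0} → Prop := fun i => (s i).1 < μ.ord ∧ IsSeq (s i).1 (s i).2 ∧ γ ≤ (s i).1 ∧
    res γ (s i).2 = t ∧ (∀ j < i, (s j).1 ≤ (s i).1 ∧ res (s j).1 (s i).2 = (s j).2) ∧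
    ∀ x ∈ F i, res (s i).1 x ≠ (s i).2
  have hU : ∀ i, (∀ j < i, Inv j) →
      res γ (fun ε => decide (t ε = true ∨ ∃ j, ∃ _ : j < i, (s j).2 ε = true)) = t ∧
      ∀ j < i, res (s j).1 (fun ε => decide (t ε = true ∨ ∃ j, ∃ _ : j < i, (s j).2 ε = true)) = (s j).2 := by
    intro i hi
    have e1 : ∀ j < i, ∀ ε < γ, (s j).2 ε = t ε := by
      intro j hj ε hε
      rw [← (hi j hj).2.2.2.1, res_apply hε]
    have tlt : ∀ ε, t ε = true → ε < γ := by
      intro ε h
      by_contra h1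
      rw [ht ε (not_lt.1 h1)] at h
      exact absurd h (by simp)
    have slt : ∀ j < i, ∀ ε, (s j).2 ε = true → ε < (s j).1 := by
      intro j hj ε h
      by_contra h1
      rw [(hi j hj).2.1 ε (not_lt.1 h1)] at h
      exact absurd h (by simp)
    constructor
    · funext ε
      by_cases h : ε < γ
      · rw [res_apply h]
        by_cases h1 : t ε = true
        · rw [h1]; simp
        · rw [decide_eq_false, Bool.eq_false_iff.2 h1]
          rintro (h2 | ⟨j, hj, h2⟩)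
          · exact h1 h2
          · exact h1 ((e1 j hj ε h).symm.trans h2)
      · rw [isSeq_res γ _ ε (not_lt.1 h), ht ε (not_lt.1 h)]
    · intro j hj
      funext ε
      by_cases h : ε < (s j).1
      · rw [res_apply h]
        by_cases h1 : (s j).2 ε = true
        · rw [h1, decide_eq_true]
          exact Or.inr ⟨j, hj, h1⟩
        · rw [decide_eq_false, Bool.eq_false_iff.2 h1]
          rintro (h2 | ⟨k, hk, h2⟩)
          · exact h1 ((e1 j hj ε (tlt ε h2)).trans h2)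
          · apply h1
            rcases lt_trichotomy j k with h3 | h3 | h3
            · have h4 := ((hi k hk).2.2.2.2.1 j h3).2
              rw [← h4, res_apply h]
              exact h2
            · rw [h3]; exact h2
            · have h4 := ((hi j hj).2.2.2.2.1 k h3).2
              have h5 := slt k hk ε h2
              rw [← h4, res_apply h5] at h2
              exact h2
      · rw [isSeq_res (s j).1 _ ε (not_lt.1 h), (hi j hj).2.1 ε (not_lt.1 h)]
  have hInv : ∀ i < μ.ord, Inv i := by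
    intro i
    induction i using WellFoundedLT.induction with
    | ind i ih =>
      intro hi
      have ih' : ∀ j < i, Inv j := fun j hj => ih j hj (hj.trans hi)
      obtain ⟨u1, u2⟩ := hU i ih'
      obtain ⟨L, hL⟩ : ∃ L, L = sInf {l | γ ≤ l ∧ ∀ j (_ : j < i), (s j).1 ≤ l} := ⟨_, rfl⟩
      obtain ⟨U, hUe⟩ : ∃ U : Sq, U = fun ε => decide (t ε = true ∨ ∃ j, ∃ _ : j < i, (s j).2 ε = true) :=
        ⟨_, rfl⟩
      have hLb : max γ (⨆ k : Set.Iio i, (s k).1) ∈ {l | γ ≤ l ∧ ∀ j (_ : j < i), (s j).1 ≤ l} := by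
        refine ⟨le_max_left _ _, fun j hj => le_trans ?_ (le_max_right _ _)⟩
        exact Ordinal.le_iSup (fun k : Set.Iio i => (s k).1) ⟨j, hj⟩
      have hLm : L ∈ {l | γ ≤ l ∧ ∀ j (_ : j < i), (s j).1 ≤ l} := by
        rw [hL]
        exact csInf_mem ⟨_, hLb⟩
      have hLlt : L < μ.ord := by
        refine lt_of_le_of_lt ?_ (max_lt hγ (sup_lt i hi (fun k => (s k).1) fun k => (ih' k.1 k.2).1))
        rw [hL]
        exact csInf_le' hLb
      have hUs : IsSeq L U := by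
        intro ξ hξ
        rw [hUe]
        apply decide_eq_false
        rintro (h2 | ⟨j, hj, h2⟩)
        · rw [ht ξ (hLm.1.trans hξ)] at h2
          exact absurd h2 (by simp)
        · rw [(ih' j hj).2.1 ξ ((hLm.2 j hj).trans hξ)] at h2
          exact absurd h2 (by simp)
      rw [← hUe] at u1 u2
      have e0 := hs i
      rw [← hL, ← hUe] at e0
      have h3 := hnx i (L, U) (by
        obtain ⟨γ', g1, g2, t', g3, g4, g5⟩ := hF i hi L hLlt U hUs
        exact ⟨(γ', t'), g2, g1, g3, g4, g5⟩)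
      rw [← e0] at h3
      obtain ⟨k1, k2, k3, k4, k5⟩ := h3
      have k1' : L ≤ (s i).1 := k1
      have k4' : res L (s i).2 = U := k4
      refine ⟨k2, k3, hLm.1.trans k1', ?_, fun j hj => ⟨(hLm.2 j hj).trans k1', ?_⟩, k5⟩
      · rw [← res_res hLm.1, k4', u1]
      · rw [← res_res (hLm.2 j hj), k4', u2 j hj]
  obtain ⟨x1, x2⟩ := hU μ.ord hInv
  obtain ⟨x, hx⟩ : ∃ x : Sq, x = fun ε => decide (t ε = true ∨ ∃ j, ∃ _ : j < μ.ord, (s j).2 ε = true) :=
    ⟨_, rfl⟩
  rw [← hx] at x1 x2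
  have hxs : IsSeq μ.ord x := by
    intro ξ hξ
    rw [hx]
    apply decide_eq_false
    rintro (h2 | ⟨j, hj, h2⟩)
    · rw [ht ξ (hγ.le.trans hξ)] at h2
      exact absurd h2 (by simp)
    · rw [(hInv j hj).2.1 ξ ((hInv j hj).1.le.trans hξ)] at h2
      exact absurd h2 (by simp)
  obtain ⟨i, hi, hxi⟩ := hcov x ⟨hxs, x1⟩
  exact (hInv i hi).2.2.2.2.2 x hxi (x2 i hi)

end HLP
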