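import Pool.Agent.H54.HL.W0

/-!
ROW HL/K2. Small sets. `Sm_iUnion`: `#(Iio μ.ord × Iio μ.ord) = #(Iio μ.ord)` (`mk_Iio_ordinal`, `mul_eq_self`), a surjection of `Iio μ.ord` onto the pairs. `Sm_union`: from `Sm_iUnion` with `G 0 = N`, `G i = N'` otherwise. `Sm_single`: `{x}` is nowhere dense:
above `(γ, t)` take `γ' = succ γ`, `t' = Function.update t γ (!x γ)` (`isSeq_update`, `res_update`, `μ.ord` is a limit: `Cardinal.isSuccLimit_ord`).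
-/

set_option autoImplicit false

namespace HLP

open Cardinal Ordinal

private theorem K2_one_lt {μ : Cardinal.{0}} (hμ : ℵ₀ ≤ μ) : (1 : Ordinal.{0}) < μ.ord := by
  have h1 : ω ≤ μ.ord := by
    rw [← Cardinal.ord_aleph0]
    exact Cardinal.ord_le_ord.2 hμ
  exact lt_of_lt_of_le Ordinal.one_lt_omega0 h1

private theorem K2_pos {μ : Cardinal.{0}} (hμ : ℵ₀ ≤ μ) : (0 : Ordinal.{0}) < μ.ord :=
  lt_trans zero_lt_one (K2_one_lt hμ)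

theorem Sm_mono {μ : Cardinal.{0}} {N N' : Set Sq} (h : N ⊆ N') (h' : Sm μ N') : Sm μ N := by
  obtain ⟨F, hF, hc⟩ := h'
  exact ⟨F, hF, fun x hx => hc x (h hx)⟩

theorem Sm_nwd {μ : Cardinal.{0}} (hμ : ℵ₀ ≤ μ) {N : Set Sq} (h : NWD μ.ord N) : Sm μ N :=
  ⟨fun _ => N, fun _ _ => h, fun _ hx => ⟨0, K2_pos hμ, hx⟩⟩

private theorem K2_equiv {μ : Cardinal.{0}} (hμ : ℵ₀ ≤ μ) :
    Nonempty (Set.Iio μ.ord ≃ Set.Iio μ.ord × Set.Iio μ.ord) := by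
  rw [← Cardinal.eq, ← Cardinal.mul_def, Cardinal.mul_eq_self]
  rw [Cardinal.mk_Iio_ordinal, Cardinal.card_ord]
  exact Cardinal.aleph0_le_lift.2 hμ

theorem Sm_iUnion {μ : Cardinal.{0}} (hμ : ℵ₀ ≤ μ) {G : Ordinal.{0} → Set Sq} (h : ∀ i < μ.ord, Sm μ (G i)) :
    Sm μ {x | ∃ i < μ.ord, x ∈ G i} := by
  obtain ⟨e⟩ := K2_equiv hμ
  have h' : ∀ i : Set.Iio μ.ord, ∃ F : Ordinal.{0} → Set Sq, (∀ j < μ.ord, NWD μ.ord (F j)) ∧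
      ∀ x ∈ G i.1, ∃ j < μ.ord, x ∈ F j := fun i => h i.1 i.2
  choose F hF hc using h'
  classical
  refine ⟨fun k => if hk : k < μ.ord then F (e ⟨k, hk⟩).1 (e ⟨k, hk⟩).2.1 else ∅, ?_, ?_⟩
  · intro k hk
    show NWD μ.ord (dite (k < μ.ord) _ _)
    rw [dif_pos hk]
    exact hF _ _ (e ⟨k, hk⟩).2.2
  · rintro x ⟨i, hi, hx⟩
    obtain ⟨j, hj, hxj⟩ := hc ⟨i, hi⟩ x hx
    refine ⟨(e.symm (⟨i, hi⟩, ⟨j, hj⟩)).1, (e.symm (⟨i, hi⟩, ⟨j, hj⟩)).2, ?_⟩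
    show x ∈ dite ((e.symm (⟨i, hi⟩, ⟨j, hj⟩)).1 < μ.ord) _ _
    rw [dif_pos (show (e.symm (⟨i, hi⟩, ⟨j, hj⟩)).1 < μ.ord from (e.symm (⟨i, hi⟩, ⟨j, hj⟩)).2)]
    have h1 : e ⟨(e.symm (⟨i, hi⟩, ⟨j, hj⟩)).1, (e.symm (⟨i, hi⟩, ⟨j, hj⟩)).2⟩ = (⟨i, hi⟩, ⟨j, hj⟩) := by
      rw [Subtype.coe_eta, Equiv.apply_symm_apply]
    rw [h1]
    exact hxj

theorem Sm_union {μ : Cardinal.{0}} (hμ : ℵ₀ ≤ μ) {N N' : Set Sq} (h : Sm μ N) (h' : Sm μ N') : Sm μ {x | x ∈ N ∨ x ∈ N'} := by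
  classical
  have h1 := Sm_iUnion hμ (G := fun i => if i = 0 then N else N') (by
    intro i _
    show Sm μ (ite (i = 0) N N')
    split_ifs
    · exact h
    · exact h')
  refine Sm_mono ?_ h1
  rintro x (hx | hx)
  · refine ⟨0, K2_pos hμ, ?_⟩
    show x ∈ ite ((0 : Ordinal.{0}) = 0) N N'
    rw [if_pos rfl]
    exact hx
  · refine ⟨1, K2_one_lt hμ, ?_⟩
    show x ∈ ite ((1 : Ordinal.{0}) = 0) N N'
    rw [if_neg one_ne_zero]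
    exact hx

theorem Sm_single {μ : Cardinal.{0}} (hμ : ℵ₀ ≤ μ) (x : Sq) : Sm μ {x} := by
  apply Sm_nwd hμ
  intro γ hγ t ht
  refine ⟨Order.succ γ, (Cardinal.isSuccLimit_ord hμ).succ_lt hγ, Order.le_succ γ, Function.update t γ (!x γ),
    isSeq_update ht _, res_update ht _, ?_⟩
  intro y hy h
  rw [Set.mem_singleton_iff.1 hy] at h
  have h1 := congrFun h γ
  rw [res_apply (Order.lt_succ γ), Function.update_self] at h1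
  exact (Bool.eq_not_self (x γ)).1 h1

end HLP
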