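import Pool.Agent.H54.HL.K0
import Pool.Agent.H54.HL.K2

/-!
ROW HL/K3. By contradiction: every node above `(γ₀, t₀)` has a node `(γ, t)` above it (`γ < μ.ord`) in `E`: `Sm μ {x | x ∈ N ∧ res γ x = t}`. Then `{x ∈ N | res γ₀ x = t₀}` is covered by the union over the nodes in `E` of these small sets
(`K0a`, `Sm_iUnion`; put the empty set for `e i ∉ E`) and the set `R` of all `x ∈ N` with `res γ₀ x = t₀` through no node of `E`. `R` is nowhere dense (`Sm_nwd`): for a node `(γ, t)`: if `γ ≥ γ₀`: if `res γ₀ t ≠ t₀` take `t` itself, otherwise a node of `E` above it;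
if `γ < γ₀`: if `res γ t₀ = t` take a node of `E` above `(γ₀, t₀)`, otherwise `t` itself. `Sm_union`, `Sm_mono`.
-/

set_option autoImplicit false

namespace HLP

open Cardinal Ordinal

theorem K3 {μ : Cardinal.{0}} (hμ : μ.IsInaccessible) {N : Set Sq} {γ₀ : Ordinal.{0}} {t₀ : Sq} (hγ : γ₀ < μ.ord) (ht : IsSeq γ₀ t₀)
    (h : ¬ Sm μ {x | x ∈ N ∧ res γ₀ x = t₀}) : ∃ γ₁ t₁, γ₀ ≤ γ₁ ∧ res γ₀ t₁ = t₀ ∧ Big μ N γ₁ t₁ := by
  have h0 : ℵ₀ ≤ μ := hμ.aleph0_lt.le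
  by_contra hcon
  have hstar : ∀ γ₁ t₁, γ₀ ≤ γ₁ → γ₁ < μ.ord → IsSeq γ₁ t₁ → res γ₀ t₁ = t₀ →
      ∃ γ < μ.ord, γ₁ ≤ γ ∧ ∃ t, IsSeq γ t ∧ res γ₁ t = t₁ ∧ Sm μ {x | x ∈ N ∧ res γ x = t} := by
    intro γ₁ t₁ h1 h2 h3 h4
    by_contra hc
    refine hcon ⟨γ₁, t₁, h1, h4, h2, h3, fun γ hγ' hle t ht' hr hs => hc ?_⟩
    exact ⟨γ, hγ', hle, t, ht', hr, hs⟩
  obtain ⟨e, he⟩ := K0a hμ
  have hG : ∀ i < μ.ord, Sm μ {x | Sm μ {x | x ∈ N ∧ res (e i).1 x = (e i).2} ∧ x ∈ N ∧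
      res (e i).1 x = (e i).2} := by
    intro i _
    by_cases hE : Sm μ {x | x ∈ N ∧ res (e i).1 x = (e i).2}
    · exact Sm_mono (fun x hx => hx.2) hE
    · exact Sm_mono (fun x hx => absurd hx.1 hE) (Sm_single h0 (fun _ => false))
  have hU := Sm_iUnion h0 hG
  have hR : NWD μ.ord {x | x ∈ N ∧ res γ₀ x = t₀ ∧ ∀ γ < μ.ord, ∀ t, IsSeq γ t →
      Sm μ {x | x ∈ N ∧ res γ x = t} → res γ x ≠ t} := by
    intro γ hγ' t ht'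
    rcases le_or_gt γ₀ γ with hle | hlt
    · by_cases hr : res γ₀ t = t₀
      · obtain ⟨γ', h1, h2, t', h3, h4, h5⟩ := hstar γ t hle hγ' ht' hr
        exact ⟨γ', h1, h2, t', h3, h4, fun x hx => hx.2.2 γ' h1 t' h3 h5⟩
      · refine ⟨γ, hγ', le_rfl, t, ht', res_self ht', fun x hx hxt => hr ?_⟩
        rw [← hxt, res_res hle]
        exact hx.2.1
    · by_cases hr : res γ t₀ = t
      · obtain ⟨γ', h1, h2, t', h3, h4, h5⟩ := hstar γ₀ t₀ le_rfl hγ ht (res_self ht)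
        refine ⟨γ', h1, hlt.le.trans h2, t', h3, ?_, fun x hx => hx.2.2 γ' h1 t' h3 h5⟩
        rw [← res_res hlt.le t', h4, hr]
      · refine ⟨γ, hγ', le_rfl, t, ht', res_self ht', fun x hx hxt => hr ?_⟩
        rw [← hx.2.1, res_res hlt.le, hxt]
  refine h (Sm_mono ?_ (Sm_union h0 hU (Sm_nwd h0 hR)))
  rintro x ⟨hxN, hx0⟩
  by_cases hx : ∃ γ < μ.ord, ∃ t, IsSeq γ t ∧ Sm μ {x | x ∈ N ∧ res γ x = t} ∧ res γ x = t
  · obtain ⟨γ, h1, t, h2, h3, h4⟩ := hx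
    obtain ⟨i, hi, hei⟩ := he γ t h1 h2
    refine Or.inl ⟨i, hi, ?_⟩
    rw [hei]
    exact ⟨h3, hxN, h4⟩
  · refine Or.inr ⟨hxN, hx0, fun γ h1 t h2 h3 h4 => hx ?_⟩
    exact ⟨γ, h1, t, h2, h3, h4⟩

end HLP
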