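import Pool.Agent.H54.HL.K3

/-!
ROW HL/K4. Case 1: some `y` (`IsSeq μ.ord y`) has `¬ Sm μ {x | x ∈ N ∧ res γ₀ x = t₀ ∧ r x y}`; take the least such `y` (`IsWellFounded` of the subtype) and `N' = {x | x ∈ N ∧ res γ₀ x = t₀ ∧ r x y}`, `K3` for `N'`. For `z ∈ N'`: `r z y`, so
`{x ∈ N | res γ₀ x = t₀ ∧ r x z}` is small, `{x ∈ N' | ¬ r z x}` is contained in it together with `{z}` (trichotomy; `Sm_union`, `Sm_single`). Case 2: no such `y`: `N' = {x | x ∈ N ∧ res γ₀ x = t₀}`, `γ₁ = γ₀`, `t₁ = t₀`; `Big` because `res γ x = t` implies `res γ₀ x = res γ₀ t = t₀` (`res_res`).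
-/

set_option autoImplicit false

namespace HLP

open Cardinal Ordinal

private theorem K4_tri {β : Ordinal.{0}} {r : Sq → Sq → Prop}
    (hr : IsWellOrder {η : Sq // IsSeq β η} (fun x y => r x.1 y.1)) {x y : Sq} (hx : IsSeq β x) (hy : IsSeq β y) :
    r x y ∨ x = y ∨ r y x := by
  rcases @trichotomous_of _ (fun x y : {η : Sq // IsSeq β η} => r x.1 y.1) hr.toTrichotomous ⟨x, hx⟩ ⟨y, hy⟩ with h | h | h
  · exact Or.inl h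
  · exact Or.inr (Or.inl (congrArg Subtype.val h))
  · exact Or.inr (Or.inr h)

/-- the final step: the members of `N'` which are not above `z` -/
private theorem K4_fin {μ : Cardinal.{0}} (hμ : ℵ₀ ≤ μ) {r : Sq → Sq → Prop}
    (hr : IsWellOrder {η : Sq // IsSeq μ.ord η} (fun x y => r x.1 y.1)) {N N' : Set Sq} (hN : ∀ x ∈ N, IsSeq μ.ord x)
    {γ₀ : Ordinal.{0}} {t₀ : Sq} (hN' : ∀ x ∈ N', x ∈ N ∧ res γ₀ x = t₀) {z : Sq} (hz : z ∈ N')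
    (hs : Sm μ {x | x ∈ N ∧ res γ₀ x = t₀ ∧ r x z}) : Sm μ {x | x ∈ N' ∧ ¬ r z x} := by
  refine Sm_mono ?_ (Sm_union hμ hs (Sm_single hμ z))
  rintro x ⟨hx, hzx⟩
  have hxN := hN' x hx
  have hzN := hN' z hz
  rcases K4_tri hr (hN x hxN.1) (hN z hzN.1) with h | h | h
  · exact Or.inl ⟨hxN.1, hxN.2, h⟩
  · exact Or.inr h
  · exact absurd h hzx

theorem K4 {μ : Cardinal.{0}} (hμ : μ.IsInaccessible) {r : Sq → Sq → Prop}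
    (hr : IsWellOrder {η : Sq // IsSeq μ.ord η} (fun x y => r x.1 y.1)) {N : Set Sq} (hN : ∀ x ∈ N, IsSeq μ.ord x)
    {γ₀ : Ordinal.{0}} {t₀ : Sq} (h : Big μ N γ₀ t₀) :
    ∃ N' ⊆ N, ∃ γ₁ t₁, γ₀ ≤ γ₁ ∧ res γ₀ t₁ = t₀ ∧ Big μ N' γ₁ t₁ ∧ ∀ y ∈ N', Sm μ {x | x ∈ N' ∧ ¬ r y x} := by
  have hμ0 : ℵ₀ ≤ μ := hμ.aleph0_lt.le
  by_cases hex : ∃ y : {η : Sq // IsSeq μ.ord η}, ¬ Sm μ {x | x ∈ N ∧ res γ₀ x = t₀ ∧ r x y.1}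
  · obtain ⟨y, hy, hmin⟩ := hr.wf.has_min
      {y : {η : Sq // IsSeq μ.ord η} | ¬ Sm μ {x | x ∈ N ∧ res γ₀ x = t₀ ∧ r x y.1}} hex
    have hbig : ¬ Sm μ {x | x ∈ {x | x ∈ N ∧ res γ₀ x = t₀ ∧ r x y.1} ∧ res γ₀ x = t₀} := by
      intro hs
      refine hy (Sm_mono ?_ hs)
      intro x hx
      exact ⟨hx, hx.2.1⟩
    obtain ⟨γ₁, t₁, h1, h2, h3⟩ := K3 hμ h.1 h.2.1 hbig
    refine ⟨{x | x ∈ N ∧ res γ₀ x = t₀ ∧ r x y.1}, fun x hx => hx.1, γ₁, t₁, h1, h2, h3, fun z hz => ?_⟩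
    refine K4_fin hμ0 hr hN (fun x hx => ⟨hx.1, hx.2.1⟩) hz ?_
    by_contra hs
    exact hmin ⟨z, hN z hz.1⟩ hs hz.2.2
  · push Not at hex
    refine ⟨{x | x ∈ N ∧ res γ₀ x = t₀}, fun x hx => hx.1, γ₀, t₀, le_rfl, res_self h.2.1, ⟨h.1, h.2.1, ?_⟩, fun z hz => ?_⟩
    · intro γ hγ hle t ht htt hs
      refine h.2.2 γ hγ hle t ht htt (Sm_mono ?_ hs)
      rintro x ⟨hx, hxt⟩
      refine ⟨⟨hx, ?_⟩, hxt⟩
      rw [← htt, ← hxt, res_res hle]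
    · exact K4_fin hμ0 hr hN (fun x hx => hx) hz (hex ⟨z, hN z hz.1⟩)

end HLP
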