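import Pool.Agent.H54.HL.K0
import Pool.Agent.H54.HL.K2

/-!
ROW HL/K5. `K0b`: `e i`, `i < δ`, `δ < μ.ord`, lists all nodes of length `γ`. By well-founded recursion on `i` choose `x i` (if `IsSeq γ (e i)` and `res γ₀ (e i) = t₀`) in `N` with `res γ (x i) = e i` and `r (x j) (x i)`, `r' (x j) (x i)` for all earlier `j < i` for which
`x j ∈ N`: it exists, otherwise `{x ∈ N | res γ x = e i}` is contained in the union over `j < i` of `{x ∈ N | ¬ r (x j) x}` and `{x ∈ N | ¬ r' (x j) x}`, which is small (`Sm_iUnion`, `Sm_union`), against `h`. `X s = x i` for the least `i` with `e i = s`.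
Both orders agree with the order of the indices: if `i < i'`, both `r (X s) (X s')` and `r' (X s) (X s')` hold, and both converse relations fail (asymmetry); if `s = s'` both fail (irreflexivity).
-/

set_option autoImplicit false

namespace HLP

open Cardinal Ordinal

open Classical in
/-- the choices by recursion -/
noncomputable def k5x (r r' : Sq → Sq → Prop) (N : Set Sq) (γ : Ordinal.{0}) (e : Ordinal.{0} → Sq)
    (i : Ordinal.{0}) : Sq :=
  if h : ∃ y, y ∈ N ∧ res γ y = e i ∧ ∀ j, (hj : j < i) → k5x r r' N γ e j ∈ N →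
      (r (k5x r r' N γ e j) y ∧ r' (k5x r r' N γ e j) y) then h.choose else fun _ => false
termination_by i
decreasing_by all_goals exact hj

theorem K5 {μ : Cardinal.{0}} (hμ : μ.IsInaccessible) {r r' : Sq → Sq → Prop}
    (hr : IsWellOrder {η : Sq // IsSeq μ.ord η} (fun x y => r x.1 y.1))
    (hr' : IsWellOrder {η : Sq // IsSeq μ.ord η} (fun x y => r' x.1 y.1)) {N : Set Sq} (hN : ∀ x ∈ N, IsSeq μ.ord x)
    {γ₀ : Ordinal.{0}} {t₀ : Sq} (h : Big μ N γ₀ t₀) (h1 : ∀ y ∈ N, Sm μ {x | x ∈ N ∧ ¬ r y x})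
    (h2 : ∀ y ∈ N, Sm μ {x | x ∈ N ∧ ¬ r' y x}) {γ : Ordinal.{0}} (hγ : γ < μ.ord) (hγ₀ : γ₀ ≤ γ) :
    ∃ X : Sq → Sq, (∀ s, IsSeq γ s → res γ₀ s = t₀ → X s ∈ N ∧ res γ (X s) = s) ∧
      ∀ s s', IsSeq γ s → res γ₀ s = t₀ → IsSeq γ s' → res γ₀ s' = t₀ → (r (X s) (X s') ↔ r' (X s) (X s')) := by
  classical
  obtain ⟨δ, hδ, e, he⟩ := K0b hμ hγ
  have hμ0 : ℵ₀ ≤ μ := hμ.aleph0_lt.le
  have key : ∀ i < δ, IsSeq γ (e i) → res γ₀ (e i) = t₀ →
      k5x r r' N γ e i ∈ N ∧ res γ (k5x r r' N γ e i) = e i ∧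
        ∀ j < i, k5x r r' N γ e j ∈ N →
          (r (k5x r r' N γ e j) (k5x r r' N γ e i) ∧ r' (k5x r r' N γ e j) (k5x r r' N γ e i)) := by
    intro i hi hseq hres
    have hex : ∃ y, y ∈ N ∧ res γ y = e i ∧ ∀ j, (hj : j < i) → k5x r r' N γ e j ∈ N →
        (r (k5x r r' N γ e j) y ∧ r' (k5x r r' N γ e j) y) := by
      by_contra hno
      apply h.2.2 γ hγ hγ₀ (e i) hseq hres
      have hG : ∀ j < μ.ord, Sm μ {y | k5x r r' N γ e j ∈ N ∧
          (y ∈ {x | x ∈ N ∧ ¬ r (k5x r r' N γ e j) x} ∨ y ∈ {x | x ∈ N ∧ ¬ r' (k5x r r' N γ e j) x})} := by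
        intro j _
        by_cases hj : k5x r r' N γ e j ∈ N
        · exact Sm_mono (fun y hy => hy.2) (Sm_union hμ0 (h1 _ hj) (h2 _ hj))
        · exact Sm_mono (fun y hy => absurd hy.1 hj) (Sm_single hμ0 (fun _ => false))
      refine Sm_mono ?_ (Sm_iUnion hμ0 hG)
      rintro y ⟨hyN, hye⟩
      by_contra hy
      apply hno
      refine ⟨y, hyN, hye, fun j hj hjN => ?_⟩
      by_contra hrr
      apply hy
      refine ⟨j, hj.trans (hi.trans hδ), hjN, ?_⟩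
      rcases not_and_or.1 hrr with h3 | h3
      · exact Or.inl ⟨hyN, h3⟩
      · exact Or.inr ⟨hyN, h3⟩
    have hx : k5x r r' N γ e i = hex.choose := by
      rw [k5x, dif_pos hex]
    have hs := hex.choose_spec
    rw [← hx] at hs
    exact hs
  have hI : ∀ s, IsSeq γ s → sInf {i | e i = s} < δ ∧ e (sInf {i | e i = s}) = s := by
    intro s hs
    obtain ⟨i0, hi0, hei0⟩ := he s hs
    have h3 : sInf {i | e i = s} ∈ {i | e i = s} := csInf_mem ⟨i0, hei0⟩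
    exact ⟨(csInf_le' (show i0 ∈ {i | e i = s} from hei0)).trans_lt hi0, h3⟩
  have key2 : ∀ s, IsSeq γ s → res γ₀ s = t₀ →
      k5x r r' N γ e (sInf {i | e i = s}) ∈ N ∧ res γ (k5x r r' N γ e (sInf {i | e i = s})) = s ∧
        ∀ j < sInf {i | e i = s}, k5x r r' N γ e j ∈ N →
          (r (k5x r r' N γ e j) (k5x r r' N γ e (sInf {i | e i = s}))
            ∧ r' (k5x r r' N γ e j) (k5x r r' N γ e (sInf {i | e i = s}))) := by
    intro s hs hs0
    obtain ⟨h3, h4⟩ := hI s hs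
    obtain ⟨h5, h6, h7⟩ := key _ h3 (by rw [h4]; exact hs) (by rw [h4]; exact hs0)
    exact ⟨h5, h6.trans h4, h7⟩
  have hasym : ∀ a ∈ N, ∀ b ∈ N, r a b → ¬ r b a := by
    intro a ha b hb hab hba
    exact hr.wf.asymmetric (a := ⟨a, hN a ha⟩) (b := ⟨b, hN b hb⟩) hab hba
  have hasym' : ∀ a ∈ N, ∀ b ∈ N, r' a b → ¬ r' b a := by
    intro a ha b hb hab hba
    exact hr'.wf.asymmetric (a := ⟨a, hN a ha⟩) (b := ⟨b, hN b hb⟩) hab hba
  refine ⟨fun s => k5x r r' N γ e (sInf {i | e i = s}), ?_, ?_⟩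
  · intro s hs hs0
    exact ⟨(key2 s hs hs0).1, (key2 s hs hs0).2.1⟩
  · intro s s' hs hs0 hs' hs0'
    obtain ⟨a1, -, a3⟩ := key2 s hs hs0
    obtain ⟨b1, -, b3⟩ := key2 s' hs' hs0'
    beta_reduce
    rcases lt_trichotomy (sInf {i | e i = s}) (sInf {i | e i = s'}) with h3 | h3 | h3
    · exact iff_of_true (b3 _ h3 a1).1 (b3 _ h3 a1).2
    · rw [h3]
      exact iff_of_false (fun h4 => hasym _ b1 _ b1 h4 h4) (fun h4 => hasym' _ b1 _ b1 h4 h4)
    · have h4 := a3 _ h3 b1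
      exact iff_of_false (hasym _ b1 _ a1 h4.1) (hasym' _ b1 _ a1 h4.2)

end HLP
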