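import Pool.Agent.H54.HL.K1
import Pool.Agent.H54.HL.K4
import Pool.Agent.H54.HL.K5

/-!
ROW HL/K6. `N₀ = {x | IsSeq μ.ord x}` is `Big` above `(0, fun _ => false)` (`K1`). `K4` for `lt μ.ord` gives `N₁, γ₁, t₁`; `K4` for `lt' μ.ord` and `N₁` gives `N₂ ⊆ N₁, γ₂, t₂`; the smallness for `lt` passes to `N₂` (`Sm_mono`). Take `(γ₂, t₂)` and `K5`.
-/

set_option autoImplicit false

namespace HLP

open Cardinal Ordinal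

theorem K6 {μ : Cardinal.{0}} (hμ : μ.IsInaccessible) {lt lt' : Ordinal.{0} → Sq → Sq → Prop}
    (h : IsWellOrder {η : Sq // IsSeq μ.ord η} (fun x y => lt μ.ord x.1 y.1))
    (h' : IsWellOrder {η : Sq // IsSeq μ.ord η} (fun x y => lt' μ.ord x.1 y.1)) :
    ∃ γ₀ t₀, γ₀ < μ.ord ∧ IsSeq γ₀ t₀ ∧ ∀ γ, γ₀ ≤ γ → γ < μ.ord → ∃ X, Sel lt lt' γ₀ t₀ γ μ.ord X := by
  have hpos : (0 : Ordinal.{0}) < μ.ord := by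
    rw [Cardinal.ord_pos]
    exact Cardinal.aleph0_pos.trans hμ.1
  have hB : Big μ {x : Sq | IsSeq μ.ord x} 0 (fun _ => false) := by
    refine ⟨hpos, fun _ _ => rfl, fun γ hγ _ t ht _ => ?_⟩
    exact K1 hμ hγ ht
  obtain ⟨N₁, hN₁, γ₁, t₁, -, -, hB₁, hs₁⟩ := K4 hμ h (fun x hx => hx) hB
  obtain ⟨N₂, hN₂, γ₂, t₂, -, -, hB₂, hs₂⟩ := K4 hμ h' (fun x hx => hN₁ hx) hB₁
  have hN : ∀ x ∈ N₂, IsSeq μ.ord x := fun x hx => hN₁ (hN₂ hx)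
  have hs₁' : ∀ y ∈ N₂, Sm μ {x | x ∈ N₂ ∧ ¬ lt μ.ord y x} := by
    intro y hy
    obtain ⟨F, hF, hc⟩ := hs₁ y (hN₂ hy)
    exact ⟨F, hF, fun x hx => hc x ⟨hN₂ hx.1, hx.2⟩⟩
  refine ⟨γ₂, t₂, hB₂.1, hB₂.2.1, fun γ hγ₂ hγ => ?_⟩
  obtain ⟨X, hX1, hX2⟩ := K5 hμ h h' hN hB₂ hs₁' hs₂ hγ hγ₂
  exact ⟨X, fun s hs hst => ⟨hN _ (hX1 s hs hst).1, (hX1 s hs hst).2⟩, hX2⟩

end HLP
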