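import Pool.Agent.H54.HL.K6

/-!
ROW HL/K7. By contradiction: for every node `(γ₀, t₀)`, `γ₀ < κ.ord`, there is `γ(γ₀, t₀)`, `γ₀ ≤ γ(γ₀, t₀) < κ.ord`, such that no `β` with `γ ≤ β < κ.ord` has an `X`. `g γ₀` = the supremum of the `succ (γ(γ₀, t₀))` over all `t₀` with `IsSeq γ₀ t₀`; `< κ.ord` because there are fewer than `κ` such `t₀`
(`K0b` for `κ`: list them by `i < δ`, `δ < κ.ord`) and `κ` is regular (`Ordinal.iSup_lt_ord` or the like). `hκ.point g`: `μ`; `K6` for `μ` (`μ.ord < κ.ord`): `(γ₀, t₀)`; `γ = γ(γ₀, t₀) < g γ₀ < μ.ord`, `β = μ.ord`: contradiction.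
-/

set_option autoImplicit false

namespace HLP

open Cardinal Ordinal

theorem K7 {κ : Cardinal.{0}} (hκ : Mahlo κ) {lt lt' : Ordinal.{0} → Sq → Sq → Prop} (h : WO κ lt) (h' : WO κ lt') :
    ∃ γ₀ t₀, γ₀ < κ.ord ∧ IsSeq γ₀ t₀ ∧ ∀ γ, γ₀ ≤ γ → γ < κ.ord → ∃ β, γ ≤ β ∧ β < κ.ord ∧ ∃ X, Sel lt lt' γ₀ t₀ γ β X := by
  classical
  by_contra hcon
  push Not at hcon
  have h1 : ∀ (γ₀ : Ordinal.{0}) (t₀ : Sq), ∃ γ : Ordinal.{0}, γ₀ < κ.ord → IsSeq γ₀ t₀ →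
      (γ₀ ≤ γ ∧ γ < κ.ord ∧ ∀ β, γ ≤ β → β < κ.ord → ∀ X, ¬ Sel lt lt' γ₀ t₀ γ β X) := by
    intro γ₀ t₀
    by_cases hγ : γ₀ < κ.ord
    · by_cases ht : IsSeq γ₀ t₀
      · obtain ⟨γ, hγ1, hγ2, hγ3⟩ := hcon γ₀ t₀ hγ ht
        exact ⟨γ, fun _ _ => ⟨hγ1, hγ2, hγ3⟩⟩
      · exact ⟨0, fun _ h2 => absurd h2 ht⟩
    · exact ⟨0, fun h2 _ => absurd h2 hγ⟩
  choose G hG using h1
  have h2 : ∀ γ₀ : Ordinal.{0}, ∃ b : Ordinal.{0}, γ₀ < κ.ord →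
      b < κ.ord ∧ ∀ t₀, IsSeq γ₀ t₀ → G γ₀ t₀ < b := by
    intro γ₀
    by_cases hγ : γ₀ < κ.ord
    · obtain ⟨δ, hδ, e, he⟩ := K0b hκ.inacc hγ
      obtain ⟨F, hF⟩ : ∃ F : Ordinal.{0} → Ordinal.{0}, F = fun i =>
        if IsSeq γ₀ (e i) then Order.succ (G γ₀ (e i)) else 0 := ⟨_, rfl⟩
      have hFlt : ∀ i, F i < κ.ord := by
        intro i
        rw [hF]
        show (if IsSeq γ₀ (e i) then Order.succ (G γ₀ (e i)) else 0) < κ.ord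
        split_ifs with h3
        · have h4 := (hG γ₀ (e i) hγ h3).2.1
          exact (Cardinal.isSuccLimit_ord hκ.inacc.isRegular.aleph0_le).succ_lt h4
        · exact (zero_le (a := γ₀)).trans_lt hγ
      refine ⟨⨆ i : δ.ToType, F (ToType.mk.symm i).1, fun _ => ⟨?_, ?_⟩⟩
      · apply Ordinal.iSup_lt_of_lt_cof
        · rw [hκ.inacc.isRegular.cof_ord, Cardinal.mk_toType]
          exact Cardinal.lt_ord.1 hδ
        · intro i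
          exact hFlt _
      · intro t₀ ht₀
        obtain ⟨i, hi, hei⟩ := he t₀ ht₀
        have h3 : F i ≤ ⨆ i : δ.ToType, F (ToType.mk.symm i).1 := by
          have h4 := Ordinal.le_iSup (fun i : δ.ToType => F (ToType.mk.symm i).1) (ToType.mk ⟨i, hi⟩)
          simpa using h4
        refine lt_of_lt_of_le ?_ h3
        rw [hF]
        show G γ₀ t₀ < (if IsSeq γ₀ (e i) then Order.succ (G γ₀ (e i)) else 0)
        rw [hei, if_pos ht₀]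
        exact Order.lt_succ _
    · exact ⟨0, fun h3 => absurd h3 hγ⟩
  choose g hg using h2
  obtain ⟨μ, hμκ, hμ, hcl⟩ := hκ.point g fun α hα => (hg α hα).1
  have hμo : μ.ord < κ.ord := Cardinal.ord_lt_ord.2 hμκ
  obtain ⟨γ₀, t₀, hγ₀, ht₀, hsel⟩ := K6 hμ (h μ.ord hμo) (h' μ.ord hμo)
  have hγκ : γ₀ < κ.ord := hγ₀.trans hμo
  obtain ⟨h5, h6, h7⟩ := hG γ₀ t₀ hγκ ht₀
  have h8 : G γ₀ t₀ < μ.ord := ((hg γ₀ hγκ).2 t₀ ht₀).trans (hcl γ₀ hγ₀)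
  obtain ⟨X, hX⟩ := hsel (G γ₀ t₀) h5 h8
  exact h7 μ.ord h8.le hμo X hX

end HLP
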