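import Pool.Agent.H54.HL.K1
import Pool.Agent.H54.HL.K3

/-!
ROW HL/M1. `{x | IsSeq μ.ord x}` is not small (`K1` with `γ = 0`). It is the union over `i : C` of the sets `N i = {x | IsSeq μ.ord x ∧ F x = i}`; if all were small, `Sm_iUnion` (with a surjection of an initial segment of `μ.ord` onto `C`, `#C < μ`; empty sets elsewhere) would give a contradiction.
`K3` for `N i` with `γ₀ = 0` gives `Big μ (N i) γ₁ t₁`; a set that is not small is nonempty (`Sm_mono`, `Sm_nwd` or directly).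
-/

set_option autoImplicit false

namespace HLP

open Cardinal Ordinal

theorem levelC {μ : Cardinal.{0}} (hμ : μ.IsInaccessible) {C : Type} (hC : #C < μ) (F : Sq → C) :
    ∃ γ₀ t₀ i, γ₀ < μ.ord ∧ IsSeq γ₀ t₀ ∧ ∀ γ, γ₀ ≤ γ → γ < μ.ord → ∀ s, IsSeq γ s → res γ₀ s = t₀ →
      ∃ x, IsSeq μ.ord x ∧ res γ x = s ∧ F x = i := by
  have h0 : ℵ₀ ≤ μ := hμ.aleph0_lt.le
  have hpos : (0 : Ordinal.{0}) < μ.ord := by
    rw [Cardinal.lt_ord, Ordinal.card_zero]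
    exact lt_of_lt_of_le Cardinal.aleph0_pos h0
  have hz : IsSeq 0 (fun _ => false) := fun _ _ => rfl
  have hr0 : ∀ x : Sq, res 0 x = fun _ => false := by
    intro x
    funext ξ
    unfold res
    rw [if_neg (not_lt.2 zero_le)]
  have hemp : Sm μ (∅ : Set Sq) := Sm_mono (Set.empty_subset _) (Sm_single h0 (fun _ => false))
  have hex : ∃ i : C, ¬ Sm μ {x | x ∈ {x | IsSeq μ.ord x ∧ F x = i} ∧ res 0 x = fun _ => false} := by
    by_contra hcon
    push Not at hcon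
    have hcard : Cardinal.lift.{1} #C = Cardinal.lift.{0} #(Set.Iio (#C).ord) := by
      rw [Cardinal.mk_Iio_ordinal, Cardinal.card_ord, Cardinal.lift_lift]
    obtain ⟨φ⟩ := Cardinal.lift_mk_eq'.1 hcard
    refine K1 hμ hpos hz (Sm_mono ?_ (Sm_iUnion h0
      (G := fun j => {x | ∃ h : j < (#C).ord, IsSeq μ.ord x ∧ F x = φ.symm ⟨j, h⟩}) ?_))
    · rintro x ⟨hx, -⟩
      have hlt : ((φ (F x)) : Ordinal.{0}) < (#C).ord := (φ (F x)).2
      refine ⟨φ (F x), hlt.trans (Cardinal.ord_lt_ord.2 hC), hlt, hx, ?_⟩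
      exact (φ.symm_apply_apply (F x)).symm
    · intro j _
      by_cases h : j < (#C).ord
      · refine Sm_mono ?_ (hcon (φ.symm ⟨j, h⟩))
        rintro x ⟨_, hx, hx2⟩
        exact ⟨⟨hx, hx2⟩, hr0 x⟩
      · refine Sm_mono ?_ hemp
        rintro x ⟨h', -⟩
        exact absurd h' h
  obtain ⟨i, hi⟩ := hex
  obtain ⟨γ₁, t₁, -, -, hB⟩ := K3 hμ hpos hz hi
  refine ⟨γ₁, t₁, i, hB.1, hB.2.1, fun γ h1 h2 s h3 h4 => ?_⟩
  have h5 := hB.2.2 γ h2 h1 s h3 h4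
  by_contra h6
  apply h5
  refine Sm_mono ?_ hemp
  rintro x ⟨⟨hx1, hx2⟩, hx3⟩
  exact h6 ⟨x, hx1, hx3, hx2⟩

end HLP
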