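import Pool.Agent.H54.HL.M1

/-!
ROW HL/M2. As `K7.lean` (Mahlo closure point). By contradiction: for every `i : C` and every node `(γ₀, t₀)`, `γ₀ < κ.ord`, there is `γ(i, γ₀, t₀)`, `γ₀ ≤ γ < κ.ord`, such that no `β` with `γ ≤ β < κ.ord` works. `g γ₀` = the maximum of `succ (#C).ord` and the supremum of the `succ (γ(i, γ₀, t₀))` over all
`i` and all `t₀` with `IsSeq γ₀ t₀`; `< κ.ord`: fewer than `κ` of them (`K0b` for `κ`, `#C < κ`), `κ` regular. `hκ.point g`: `μ`, `#C < μ` (from `g 0`); `levelC` for `μ` and `F μ.ord`: `(γ₀, t₀, i)`; `γ = γ(i, γ₀, t₀) < g γ₀ < μ.ord`, `β = μ.ord`: contradiction.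
-/

set_option autoImplicit false

namespace HLP

open Cardinal Ordinal

theorem rootC {κ : Cardinal.{0}} (hκ : Mahlo κ) {C : Type} (hC : #C < κ) (F : Ordinal.{0} → Sq → C) :
    ∃ i γ₀ t₀, γ₀ < κ.ord ∧ IsSeq γ₀ t₀ ∧ ∀ γ, γ₀ ≤ γ → γ < κ.ord → ∃ β, γ ≤ β ∧ β < κ.ord ∧
      ∀ s, IsSeq γ s → res γ₀ s = t₀ → ∃ x, IsSeq β x ∧ res γ x = s ∧ F β x = i := by
  classical
  by_contra hcon
  push Not at hcon
  have h1 : ∀ (i : C) (γ₀ : Ordinal.{0}) (t₀ : Sq), ∃ γ : Ordinal.{0}, γ₀ < κ.ord → IsSeq γ₀ t₀ →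
      (γ₀ ≤ γ ∧ γ < κ.ord ∧ ∀ β, γ ≤ β → β < κ.ord → ∃ s, IsSeq γ s ∧ res γ₀ s = t₀ ∧
        ∀ x, IsSeq β x → res γ x = s → F β x ≠ i) := by
    intro i γ₀ t₀
    by_cases hγ : γ₀ < κ.ord
    · by_cases ht : IsSeq γ₀ t₀
      · obtain ⟨γ, hγ1, hγ2, hγ3⟩ := hcon i γ₀ t₀ hγ ht
        exact ⟨γ, fun _ _ => ⟨hγ1, hγ2, hγ3⟩⟩
      · exact ⟨0, fun _ h2 => absurd h2 ht⟩
    · exact ⟨0, fun h2 _ => absurd h2 hγ⟩
  choose G hG using h1
  have h2 : ∀ (i : C) (γ₀ : Ordinal.{0}), ∃ b : Ordinal.{0}, γ₀ < κ.ord →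
      b < κ.ord ∧ ∀ t₀, IsSeq γ₀ t₀ → G i γ₀ t₀ < b := by
    intro c γ₀
    by_cases hγ : γ₀ < κ.ord
    · obtain ⟨δ, hδ, e, he⟩ := K0b hκ.inacc hγ
      obtain ⟨H, hH⟩ : ∃ H : Ordinal.{0} → Ordinal.{0}, H = fun i =>
        if IsSeq γ₀ (e i) then Order.succ (G c γ₀ (e i)) else 0 := ⟨_, rfl⟩
      have hHlt : ∀ i, H i < κ.ord := by
        intro i
        rw [hH]
        show (if IsSeq γ₀ (e i) then Order.succ (G c γ₀ (e i)) else 0) < κ.ord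
        split_ifs with h3
        · have h4 := (hG c γ₀ (e i) hγ h3).2.1
          exact (Cardinal.isSuccLimit_ord hκ.inacc.isRegular.aleph0_le).succ_lt h4
        · exact (zero_le (a := γ₀)).trans_lt hγ
      refine ⟨⨆ i : δ.ToType, H (ToType.mk.symm i).1, fun _ => ⟨?_, ?_⟩⟩
      · apply Ordinal.iSup_lt_of_lt_cof
        · rw [hκ.inacc.isRegular.cof_ord, Cardinal.mk_toType]
          exact Cardinal.lt_ord.1 hδ
        · intro i
          exact hHlt _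
      · intro t₀ ht₀
        obtain ⟨i, hi, hei⟩ := he t₀ ht₀
        have h3 : H i ≤ ⨆ i : δ.ToType, H (ToType.mk.symm i).1 := by
          have h4 := Ordinal.le_iSup (fun i : δ.ToType => H (ToType.mk.symm i).1)
            (ToType.mk ⟨i, hi⟩)
          simpa using h4
        refine lt_of_lt_of_le ?_ h3
        rw [hH]
        show G c γ₀ t₀ < (if IsSeq γ₀ (e i) then Order.succ (G c γ₀ (e i)) else 0)
        rw [hei, if_pos ht₀]
        exact Order.lt_succ _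
    · exact ⟨0, fun h3 => absurd h3 hγ⟩
  choose b hb using h2
  obtain ⟨g, hg⟩ : ∃ g : Ordinal.{0} → Ordinal.{0}, ∀ γ₀, g γ₀ =
      max (Order.succ (#C).ord) (⨆ i : C, b i γ₀) := ⟨_, fun _ => rfl⟩
  have hglt : ∀ γ₀ < κ.ord, g γ₀ < κ.ord := by
    intro γ₀ hγ₀
    rw [hg]
    refine max_lt ?_ ?_
    · exact (Cardinal.isSuccLimit_ord hκ.inacc.isRegular.aleph0_le).succ_lt
        (Cardinal.ord_lt_ord.2 hC)
    · apply Ordinal.iSup_lt_of_lt_cof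
      · rw [hκ.inacc.isRegular.cof_ord]
        exact hC
      · intro i
        exact (hb i γ₀ hγ₀).1
  obtain ⟨μ, hμκ, hμ, hcl⟩ := hκ.point g hglt
  have hμo : μ.ord < κ.ord := Cardinal.ord_lt_ord.2 hμκ
  have hpos : (0 : Ordinal.{0}) < μ.ord := by
    rw [Cardinal.ord_pos]
    exact Cardinal.aleph0_pos.trans hμ.1
  have hCμ : #C < μ := by
    rw [← Cardinal.ord_lt_ord]
    refine lt_of_lt_of_le (Order.lt_succ _) (le_trans ?_ (hcl 0 hpos).le)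
    rw [hg]
    exact le_max_left _ _
  obtain ⟨γ₀, t₀, i, hγ₀, ht₀, hlev⟩ := levelC hμ hCμ (F μ.ord)
  have hγκ : γ₀ < κ.ord := hγ₀.trans hμo
  obtain ⟨h5, h6, h7⟩ := hG i γ₀ t₀ hγκ ht₀
  have h8 : G i γ₀ t₀ < μ.ord := by
    refine ((hb i γ₀ hγκ).2 t₀ ht₀).trans (lt_of_le_of_lt ?_ (hcl γ₀ hγ₀))
    rw [hg]
    exact (Ordinal.le_iSup (fun i : C => b i γ₀) i).trans (le_max_right _ _)
  obtain ⟨s, hs, hst, hx⟩ := h7 μ.ord h8.le hμo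
  obtain ⟨x, hx1, hx2, hx3⟩ := hlev (G i γ₀ t₀) h5 h8 s hs hst
  exact hx x hx1 hx2 hx3

end HLP
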