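import Pool.Agent.H54.HL.M2
import Pool.Agent.H54.HL.G0
import Pool.Agent.H54.HL.G2

/-!
ROW HL/M3. `pull` for `T₀`: `a, Φ`. `rootC` for `F' ξ x = F (a ξ) (Φ ξ x)`, `good_tree` with `P ξ x := F' ξ x = i`: `T₁, A₁`; `T = cT T₀ T₁ a`, `A = a '' A₁` (`compose`, `rho_apply`, `Φ ξ (ν ∘ a) = ν`).
-/

set_option autoImplicit false

namespace HLP

open Cardinal Ordinal

theorem HL1C {κ : Cardinal.{0}} (hκ : Mahlo κ) {C : Type} (hC : #C < κ) (F : Ordinal.{0} → Sq → C) {T₀ : Ordinal.{0} → Set Sq}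
    {A₀ : Set Ordinal.{0}} (h : Suitable κ T₀ A₀) :
    ∃ (T : Ordinal.{0} → Set Sq) (A : Set Ordinal.{0}), Suitable κ T A ∧ (∀ α, T α ⊆ T₀ α) ∧ A ⊆ A₀ ∧
      ∃ i, ∀ β ∈ A, ∀ x ∈ T β, F β x = i := by
  obtain ⟨a, Φ, e, -, hΨ⟩ := pull h
  obtain ⟨i, γ₀, t₀, h0, ht, hr⟩ := rootC hκ hC (fun ξ x => F (a ξ) (Φ ξ x))
  obtain ⟨T₁, A₁, h₁, hP⟩ := good_tree hκ.inacc h0 ht (fun ξ x => F (a ξ) (Φ ξ x) = i) hr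
  refine ⟨cT T₀ T₁ a, a '' A₁, compose h e h₁, fun α ν hν => hν.1, ?_, i, ?_⟩
  · rintro _ ⟨ξ, hξ, rfl⟩
    exact (e.mem _).2 ⟨ξ, h₁.sub ξ hξ, rfl⟩
  · rintro _ ⟨ξ, hξ, rfl⟩ x ⟨hx, hx'⟩
    rw [rho_apply e.mono] at hx'
    have h2 : F (a ξ) (Φ ξ (x ∘ a)) = i := hP ξ hξ _ hx'
    rwa [(hΨ ξ (h₁.sub ξ hξ) x hx).2] at h2

end HLP
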