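import Pool.Agent.H54.HL.M3

/-!
ROW HL/M4. `h c hc` gives `T₀, A₀`. For `β ∈ A₀`, `s ∈ T₀ β` (`split`: both updates are in `T₀ (succ β)`, they are different) let `i₀ β s` be the colour omitted on `S T₀ A₀ lt (succ β) (update s β false) (update s β true)`, `i₁ β s` the one for the exchanged nodes; `F β s = (i₀ β s, i₁ β s)`
(`choose`, arbitrary elsewhere; `C` is nonempty: `c 0 _ _`). `HL1C` for `C × C` (`#(C × C) < κ`: `mul_lt_of_lt`) gives `T₁, A₁`; `thin` gives `T₂, A₂`. For `x, y ∈ T₂ β`, `β ∈ A₂`, first difference `δ`: `δ < β` (`IsSeq β`), `δ ∈ A₂` (`Suitable.diff`), `succ δ < β`, `s = res δ x = res δ y ∈ T₂ δ`,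
`res (succ δ) x = update s δ false` (`eq_update`, `isSeq_res`, `res_res`, `res_apply`), so `(β, x, y) ∈ S T₀ A₀ lt (succ δ) ..` if `lt β x y`, and `(β, y, x)` in the other set if `lt β y x` (`hc` for `c β x y = c β y x`). See also `G5.lean`.
-/

set_option autoImplicit false

namespace HLP

open Cardinal Ordinal

theorem uniform {κ : Cardinal.{0}} (hκ : Mahlo κ) {C : Type} (hC : #C < κ) {lt : Ordinal.{0} → Sq → Sq → Prop} (h : HLw κ lt C)
    (c : Ordinal.{0} → Sq → Sq → C) (hc : Sym c) :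
    ∃ (T : Ordinal.{0} → Set Sq) (A : Set Ordinal.{0}) (i₀ i₁ : C), Suitable κ T A ∧
      ∀ β ∈ A, ∀ x ∈ T β, ∀ y ∈ T β, (∃ δ, res δ x = res δ y ∧ x δ = false ∧ y δ = true) →
        (lt β x y → c β x y ≠ i₀) ∧ (lt β y x → c β x y ≠ i₁) := by
  classical
  have hκ0 : ℵ₀ ≤ κ := hκ.inacc.aleph0_lt.le
  obtain ⟨T₀, A₀, hS₀, h₀⟩ := h c hc
  have hex : ∀ (β : Ordinal.{0}) (s : Sq), ∃ i₀ i₁ : C, β ∈ A₀ → s ∈ T₀ β →
      (∀ p ∈ S T₀ A₀ lt (Order.succ β) (Function.update s β false) (Function.update s β true), c p.1 p.2.1 p.2.2 ≠ i₀) ∧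
      (∀ p ∈ S T₀ A₀ lt (Order.succ β) (Function.update s β true) (Function.update s β false), c p.1 p.2.1 p.2.2 ≠ i₁) := by
    intro β s
    by_cases hb : β ∈ A₀ ∧ s ∈ T₀ β
    · obtain ⟨m₀, m₁⟩ := (hS₀.split β s hb.2).2 hb.1
      have hne : Function.update s β false ≠ Function.update s β true := by
        intro h1
        have h2 := congrFun h1 β
        rw [Function.update_self, Function.update_self] at h2
        exact absurd h2 (by simp)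
      obtain ⟨i₀, hi₀⟩ := h₀ _ _ _ m₀ m₁ hne
      obtain ⟨i₁, hi₁⟩ := h₀ _ _ _ m₁ m₀ hne.symm
      exact ⟨i₀, i₁, fun _ _ => ⟨hi₀, hi₁⟩⟩
    · exact ⟨c 0 (fun _ => false) (fun _ => false), c 0 (fun _ => false) (fun _ => false), fun h1 h2 => absurd ⟨h1, h2⟩ hb⟩
  choose i₀ i₁ hi using hex
  have hCC : #(C × C) < κ := by
    rw [Cardinal.mk_prod, Cardinal.lift_id]
    exact Cardinal.mul_lt_of_lt hκ0 hC hC
  obtain ⟨T₁, A₁, h₁, hT₁, hA₁, ⟨j₀, j₁⟩, hj⟩ := HL1C hκ hCC (fun β s => (i₀ β s, i₁ β s)) hS₀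
  obtain ⟨T₂, A₂, h₂, hTT, hAA, hthin⟩ := thin hκ0 h₁
  refine ⟨T₂, A₂, j₀, j₁, h₂, ?_⟩
  rintro β hβ x hx y hy ⟨δ, hr, hxf, hyt⟩
  have hδβ : δ < β := by
    by_contra h1
    have h2 := (h₂.seq _ _ hy).2 δ (not_lt.1 h1)
    rw [hyt] at h2
    exact absurd h2 (by simp)
  have hδA : δ ∈ A₂ := h₂.diff hx hy hδβ (by rw [hxf, hyt]; simp) hr
  have hs : res δ x ∈ T₂ δ := h₂.down β x δ hx hδβ.le
  obtain ⟨s, hsd⟩ : ∃ s, s = res δ x := ⟨_, rfl⟩
  have hsy : s = res δ y := hsd.trans hr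
  rw [← hsd] at hs
  have hF := hj δ (hAA hδA) s (hTT _ hs)
  have hF0 : i₀ δ s = j₀ := congrArg Prod.fst hF
  have hF1 : i₁ δ s = j₁ := congrArg Prod.snd hF
  have hsucc : Order.succ δ < β := hthin δ hδA β hβ hδβ
  have ex : res (Order.succ δ) x = Function.update s δ false := by
    rw [eq_update (isSeq_res (Order.succ δ) x), res_res (Order.le_succ δ), res_apply (Order.lt_succ δ), hxf, ← hsd]
  have ey : res (Order.succ δ) y = Function.update s δ true := by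
    rw [eq_update (isSeq_res (Order.succ δ) y), res_res (Order.le_succ δ), res_apply (Order.lt_succ δ), hyt, ← hsy]
  have hH := hi δ s (hA₁ (hAA hδA)) (hT₁ _ (hTT _ hs))
  have hx0 : x ∈ T₀ β := hT₁ _ (hTT _ hx)
  have hy0 : y ∈ T₀ β := hT₁ _ (hTT _ hy)
  constructor
  · intro hlt
    have h1 := hH.1 ⟨β, x, y⟩ ⟨hsucc, hA₁ (hAA hβ), hx0, hy0, ex, ey, hlt⟩
    rwa [hF0] at h1
  · intro hlt
    have h1 := hH.2 ⟨β, y, x⟩ ⟨hsucc, hA₁ (hAA hβ), hy0, hx0, ey, ex, hlt⟩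
    rw [hF1] at h1
    rw [hc]
    exact h1

end HLP
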