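import Pool.Agent.H54.HL.W2

/-!
ROW HL/W3. `Tr_suitable`: `up` from `Tr_ext` (and `ν` itself if `β ≤ α`, `res_self`); `down`: `res_res`, `res_apply` (values of `res (g ξ) (res β η)` for `g ξ ≤ ε < β`); `lim`: at `ε < δ` use `α = succ ε < δ`; `nonempty`: the zero function at level `0`; `card`: `a` is injective on `Iio κ.ord`
(`Lev.mono`, `L.le`), `mk_Iio_ordinal`; `sub`: `L.lt`. `split`: if `α = a ξ` the new value at `ε = α` is free: `α ≥ γ₀` (`glb` with `δ = g ξ`, `L.le`), and `g ζ ≤ a ξ < a ζ` is impossible (`ζ < ξ`: `a ζ < a ξ`; `ζ > ξ`: `a ξ < g ζ`), the values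
`res (g ζ)` for `g ζ ≤ ε < α` do not change (`succ α < κ.ord`: limit). If `α ∉ a '' Iio κ.ord`: `α < γ₀` (both values would be `t₀ α`) or `g ξ ≤ α < a ξ` (`Lev.cover`; both values would be `X (g ξ) (res (g ξ) ν) α`).
`Tr_sel`: pointwise: `ε < g ξ` from `hX` (`res (g ξ) (X (g ξ) s) = s`), `g ξ ≤ ε < a ξ` from `Tr`, `ε ≥ a ξ` both `false` (`IsSeq (a ξ)`).
-/

set_option autoImplicit false

namespace HLP

open Cardinal Ordinal

private theorem W3_upd {α β : Ordinal.{0}} (h : β ≤ α) (η : Sq) (i : Bool) : res β (Function.update η α i) = res β η := by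
  funext ε
  unfold res
  by_cases h1 : ε < β
  · rw [if_pos h1, if_pos h1, Function.update_of_ne (h1.trans_le h).ne]
  · rw [if_neg h1, if_neg h1]

private theorem W3_lo {κ : Cardinal.{0}} {γ₀ : Ordinal.{0}} {b a g : Ordinal.{0} → Ordinal.{0}} (L : Lev κ γ₀ b a g)
    {ξ : Ordinal.{0}} (hξ : ξ < κ.ord) : γ₀ ≤ g ξ := ((L.glb ξ hξ (g ξ)).1 le_rfl).1

private theorem W3_lt {κ : Cardinal.{0}} {γ₀ : Ordinal.{0}} {b a g : Ordinal.{0} → Ordinal.{0}} (L : Lev κ γ₀ b a g)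
    {ζ ξ : Ordinal.{0}} (h : ζ < ξ) (hξ : ξ < κ.ord) : a ζ < a ξ := (L.mono h hξ).trans_le (L.le ξ hξ)

theorem Tr_suitable {κ : Cardinal.{0}} (hκ : ℵ₀ ≤ κ) {γ₀ : Ordinal.{0}} {t₀ : Sq} {b a g : Ordinal.{0} → Ordinal.{0}} (L : Lev κ γ₀ b a g)
    (X : Ordinal.{0} → Sq → Sq) : Suitable κ (Tr κ γ₀ t₀ a g X) (a '' Set.Iio κ.ord) := by
  have hlim := Cardinal.isSuccLimit_ord hκ
  have hinj : Set.InjOn a (Set.Iio κ.ord) := by
    intro ζ hζ ξ hξ h
    rcases lt_trichotomy ζ ξ with h1 | h1 | h1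
    · exact absurd h (W3_lt L h1 hξ).ne
    · exact h1
    · exact absurd h.symm (W3_lt L h1 hζ).ne
  refine
    { sub := ?_
      card := ?_
      seq := ?_
      nonempty := ?_
      down := ?_
      up := ?_
      lim := ?_
      split := ?_ }
  · rintro α ⟨ξ, hξ, rfl⟩
    exact L.lt ξ hξ
  · rw [Cardinal.mk_image_eq_of_injOn _ _ hinj, Cardinal.mk_Iio_ordinal, Cardinal.card_ord]
  · intro α η h
    exact ⟨h.1, h.2.1⟩
  · refine ⟨0, fun _ => false, ?_, fun _ _ => rfl, ?_, ?_⟩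
    · rw [Cardinal.lt_ord, Ordinal.card_zero]
      exact Cardinal.aleph0_pos.trans_le hκ
    · intro ε h1
      exact absurd h1 (by simp)
    · intro ξ _ ε _ _ h1
      exact absurd h1 (by simp)
  · intro α η β h hβ
    refine ⟨hβ.trans_lt h.1, isSeq_res β η, ?_, ?_⟩
    · intro ε h1 h2
      rw [res_apply h1]
      exact h.2.2.1 ε (h1.trans_le hβ) h2
    · intro ξ hξ ε h1 h2 h3
      rw [res_apply h3, res_res (h1.trans h3.le)]
      exact h.2.2.2 ξ hξ ε h1 h2 (h3.trans_le hβ)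
  · intro α η β h hβ
    obtain ⟨ν, h1, h2⟩ := Tr_ext L (le_max_left α β) (max_lt h.1 hβ) h
    exact ⟨ν, h1, h2⟩
  · intro δ η hδ hl hs h
    refine ⟨hδ, hs, ?_, ?_⟩
    · intro ε h1 h2
      have h3 := (h (Order.succ ε) (hl.succ_lt h1)).2.2.1 ε (Order.lt_succ ε) h2
      rwa [res_apply (Order.lt_succ ε)] at h3
    · intro ξ hξ ε h1 h2 h3
      have h4 := (h (Order.succ ε) (hl.succ_lt h3)).2.2.2 ξ hξ ε h1 h2 (Order.lt_succ ε)
      rwa [res_apply (Order.lt_succ ε), res_res (h1.trans (Order.le_succ ε))] at h4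
  · intro α η h
    constructor
    · rintro ⟨h0, h1⟩
      by_contra hα
      rcases lt_or_ge α γ₀ with h2 | h2
      · have e0 := h0.2.2.1 α (Order.lt_succ α) h2
        have e1 := h1.2.2.1 α (Order.lt_succ α) h2
        rw [Function.update_self] at e0 e1
        exact absurd (e0.trans e1.symm) (by simp)
      · obtain ⟨ξ, hξ, h3, h4⟩ := L.cover h2 h.1
        have h5 : α < a ξ := lt_of_le_of_ne h4 fun e => hα ⟨ξ, hξ, e.symm⟩
        have e0 := h0.2.2.2 ξ hξ α h3 h5 (Order.lt_succ α)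
        have e1 := h1.2.2.2 ξ hξ α h3 h5 (Order.lt_succ α)
        rw [Function.update_self, W3_upd h3] at e0 e1
        exact absurd (e0.trans e1.symm) (by simp)
    · rintro ⟨ξ, hξ, rfl⟩
      have key : ∀ i : Bool, Function.update η (a ξ) i ∈ Tr κ γ₀ t₀ a g X (Order.succ (a ξ)) := by
        intro i
        refine ⟨hlim.succ_lt h.1, isSeq_update h.2.1 i, ?_, ?_⟩
        · intro ε _ h2
          have h3 : ε < a ξ := h2.trans_le ((W3_lo L hξ).trans (L.le ξ hξ))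
          rw [Function.update_of_ne h3.ne]
          exact h.2.2.1 ε h3 h2
        · intro ζ hζ ε h1 h2 h3
          rcases eq_or_lt_of_le (Order.lt_succ_iff.1 h3) with h4 | h4
          · exfalso
            rw [h4] at h1 h2
            rcases lt_trichotomy ζ ξ with h5 | h5 | h5
            · exact absurd h2 (W3_lt L h5 hξ).not_gt
            · rw [h5] at h2
              exact lt_irrefl _ h2
            · exact absurd h1 (L.mono h5 hζ).not_ge
          · rw [Function.update_of_ne h4.ne, W3_upd (h1.trans h4.le)]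
            exact h.2.2.2 ζ hζ ε h1 h2 h4
      exact ⟨key false, key true⟩

theorem Tr_sel {κ : Cardinal.{0}} {γ₀ : Ordinal.{0}} {t₀ : Sq} (ht₀ : IsSeq γ₀ t₀) {b a g : Ordinal.{0} → Ordinal.{0}} (L : Lev κ γ₀ b a g)
    {X : Ordinal.{0} → Sq → Sq} {lt lt' : Ordinal.{0} → Sq → Sq → Prop} {ξ : Ordinal.{0}} (hξ : ξ < κ.ord)
    (hX : Sel lt lt' γ₀ t₀ (g ξ) (a ξ) (X (g ξ))) {ν : Sq} (hν : ν ∈ Tr κ γ₀ t₀ a g X (a ξ)) :
    IsSeq (g ξ) (res (g ξ) ν) ∧ res γ₀ (res (g ξ) ν) = t₀ ∧ ν = X (g ξ) (res (g ξ) ν) := by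
  have h1 : res γ₀ (res (g ξ) ν) = t₀ := by
    rw [res_res (W3_lo L hξ)]
    funext ε
    by_cases h : ε < γ₀
    · rw [res_apply h]
      exact hν.2.2.1 ε (h.trans_le ((W3_lo L hξ).trans (L.le ξ hξ))) h
    · rw [isSeq_res γ₀ ν ε (not_lt.1 h), ht₀ ε (not_lt.1 h)]
  refine ⟨isSeq_res _ _, h1, ?_⟩
  obtain ⟨h2, h3⟩ := hX.1 (res (g ξ) ν) (isSeq_res _ _) h1
  funext ε
  rcases lt_or_ge ε (g ξ) with h4 | h4
  · have h5 := congrFun h3 ε
    rw [res_apply h4, res_apply h4] at h5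
    exact h5.symm
  · rcases lt_or_ge ε (a ξ) with h5 | h5
    · exact hν.2.2.2 ξ hξ ε h4 h5 h5
    · rw [hν.2.1 ε h5, h2 ε h5]

end HLP
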