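import Pool.Agent.H54.HL.K7
import Pool.Agent.H54.HL.W3

/-!
ROW HL/W4. `agree`: `K7`; `choose` for every `γ` (with `γ₀ ≤ γ < κ.ord`) `b γ` and `X γ`; `exists_Lev`; `T = Tr κ γ₀ t₀ a g X`, `A = a '' Iio κ.ord`. For `β = a ξ = b (g ξ)` and `x, y ∈ T β`: `Tr_sel` writes `x = X (g ξ) s`, `y = X (g ξ) s'`; `Sel`.
(`g ξ ≥ γ₀` by `glb` with `δ = g ξ`; `g ξ ≤ a ξ < κ.ord`.)
-/

set_option autoImplicit false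

namespace HLP

open Cardinal Ordinal

theorem agree {κ : Cardinal.{0}} (hκ : Mahlo κ) {lt lt' : Ordinal.{0} → Sq → Sq → Prop} (h : WO κ lt) (h' : WO κ lt') :
    ∃ (T : Ordinal.{0} → Set Sq) (A : Set Ordinal.{0}), Suitable κ T A ∧
      ∀ β ∈ A, ∀ x ∈ T β, ∀ y ∈ T β, (lt β x y ↔ lt' β x y) := by
  obtain ⟨γ₀, t₀, hγ₀, ht₀, hK⟩ := K7 hκ h h'
  have hK' : ∀ γ : Ordinal.{0}, ∃ β : Ordinal.{0}, ∃ X : Sq → Sq, γ₀ ≤ γ → γ < κ.ord →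
      (γ ≤ β ∧ β < κ.ord ∧ Sel lt lt' γ₀ t₀ γ β X) := by
    intro γ
    by_cases hγ : γ₀ ≤ γ ∧ γ < κ.ord
    · obtain ⟨β, h1, h2, X, h3⟩ := hK γ hγ.1 hγ.2
      exact ⟨β, X, fun _ _ => ⟨h1, h2, h3⟩⟩
    · exact ⟨0, id, fun h1 h2 => absurd ⟨h1, h2⟩ hγ⟩
  choose b X hbX using hK'
  obtain ⟨a, g, L⟩ := exists_Lev hκ.inacc hγ₀ (b := b)
    (fun γ h1 h2 => ⟨(hbX γ h1 h2).1, (hbX γ h1 h2).2.1⟩)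
  refine ⟨Tr κ γ₀ t₀ a g X, a '' Set.Iio κ.ord, Tr_suitable hκ.inacc.aleph0_lt.le L X, ?_⟩
  rintro β ⟨ξ, hξ, rfl⟩ x hx y hy
  have hξ' : ξ < κ.ord := hξ
  have hg : γ₀ ≤ g ξ := ((L.glb ξ hξ' (g ξ)).1 le_rfl).1
  have hgk : g ξ < κ.ord := (L.le ξ hξ').trans_lt (L.lt ξ hξ')
  have hS : Sel lt lt' γ₀ t₀ (g ξ) (a ξ) (X (g ξ)) := by
    rw [L.eq ξ hξ']
    exact (hbX _ hg hgk).2.2
  obtain ⟨hx1, hx2, hx3⟩ := Tr_sel ht₀ L hξ' hS hx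
  obtain ⟨hy1, hy2, hy3⟩ := Tr_sel ht₀ L hξ' hS hy
  rw [hx3, hy3]
  exact hS.2 _ _ hx1 hx2 hy1 hy2

end HLP
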