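import Pool.Agent.H54.HL.Eg
import Pool.Agent.H54.HL.W4

/-!
ROW HL/W5. The same inside a suitable tree: pull back both orders along `Φ` as in the proof of `relative` (`Eg.lean`), apply `agree`, compose (`cT`, `compose`).
-/

set_option autoImplicit false

namespace HLP

open Cardinal Ordinal

theorem agree_rel {κ : Cardinal.{0}} (hκ : Mahlo κ) {lt lt' : Ordinal.{0} → Sq → Sq → Prop} (hlt : WO κ lt) (hlt' : WO κ lt')
    {T : Ordinal.{0} → Set Sq} {A : Set Ordinal.{0}} (h : Suitable κ T A) :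
    ∃ (T' : Ordinal.{0} → Set Sq) (A' : Set Ordinal.{0}), Suitable κ T' A' ∧ (∀ α, T' α ⊆ T α) ∧ A' ⊆ A ∧
      ∀ β ∈ A', ∀ x ∈ T' β, ∀ y ∈ T' β, (lt β x y ↔ lt' β x y) := by
  classical
  have hκ0 : ℵ₀ ≤ κ := hκ.inacc.aleph0_lt.le
  obtain ⟨a, e⟩ := exists_En h.sub h.card
  have ha := e.mono
  have hz : (fun _ => false : Sq) ∈ T 0 := by
    obtain ⟨α, η, hη⟩ := h.nonempty
    have h1 := h.down α η 0 hη zero_le
    have h2 : res 0 η = fun _ => false := by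
      funext ξ
      unfold res
      rw [if_neg (not_lt.2 zero_le)]
    rwa [h2] at h1
  have hr0 : rho a 0 = 0 := le_antisymm (rho_le_self ha 0) zero_le
  have hex : ∀ (ξ : Ordinal.{0}) (x : Sq), ξ < κ.ord → IsSeq ξ x → ∃ ν : Sq, ν ∈ T (a ξ) ∧ ν ∘ a = x := by
    intro ξ x hξ hx
    obtain ⟨ν, h1, _, h3⟩ := exists_ext h e hz (a ξ) (En.lt h e hξ) zero_le x (by rwa [rho_apply ha]) (by
      rw [hr0]
      funext ζ
      unfold res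
      rw [if_neg (not_lt.2 zero_le)]
      rfl)
    exact ⟨ν, h1, h3⟩
  choose! Φ hΦ1 hΦ2 using hex
  have hWO : ∀ l : Ordinal.{0} → Sq → Sq → Prop, WO κ l → WO κ (fun ξ x y => l (a ξ) (Φ ξ x) (Φ ξ y)) := by
    intro l hl ξ hξ
    have := hl (a ξ) (En.lt h e hξ)
    let g : {η : Sq // IsSeq ξ η} → {η : Sq // IsSeq (a ξ) η} :=
      fun x => ⟨Φ ξ x.1, (h.seq _ _ (hΦ1 ξ x.1 hξ x.2)).2⟩
    have hg : Function.Injective g := by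
      intro x y hxy
      have h1 : Φ ξ x.1 = Φ ξ y.1 := congrArg Subtype.val hxy
      have h2 := hΦ2 ξ x.1 hξ x.2
      rw [h1, hΦ2 ξ y.1 hξ y.2] at h2
      exact Subtype.ext h2.symm
    let E : (fun x y : {η : Sq // IsSeq ξ η} => l (a ξ) (Φ ξ x.1) (Φ ξ y.1)) ↪r
        (fun x y : {η : Sq // IsSeq (a ξ) η} => l (a ξ) x.1 y.1) := ⟨⟨g, hg⟩, Iff.rfl⟩
    exact E.isWellOrder
  obtain ⟨T₁, A₁, h₁, hag⟩ := agree hκ (hWO lt hlt) (hWO lt' hlt')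
  refine ⟨cT T T₁ a, a '' A₁, compose h e h₁, fun α ν hν => hν.1, ?_, ?_⟩
  · rintro _ ⟨ξ, hξ, rfl⟩
    exact (e.mem _).2 ⟨ξ, h₁.sub ξ hξ, rfl⟩
  · rintro _ ⟨ξ, hξ, rfl⟩ x hx y hy
    have hξκ : ξ < κ.ord := h₁.sub ξ hξ
    have hn₀ : x ∘ a ∈ T₁ ξ := by
      have h3 := hx.2
      rwa [rho_apply ha] at h3
    have hn₁ : y ∘ a ∈ T₁ ξ := by
      have h3 := hy.2
      rwa [rho_apply ha] at h3
    have q₀ : Φ ξ (x ∘ a) = x :=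
      uniq h e (hΦ1 ξ _ hξκ (h₁.seq _ _ hn₀).2) hx.1 (hΦ2 ξ _ hξκ (h₁.seq _ _ hn₀).2)
    have q₁ : Φ ξ (y ∘ a) = y :=
      uniq h e (hΦ1 ξ _ hξκ (h₁.seq _ _ hn₁).2) hy.1 (hΦ2 ξ _ hξκ (h₁.seq _ _ hn₁).2)
    have h3 := hag ξ hξ (x ∘ a) hn₀ (y ∘ a) hn₁
    rwa [q₀, q₁] at h3

theorem invariance {κ : Cardinal.{0}} (hκ : Mahlo κ) {C : Type} {lt lt' : Ordinal.{0} → Sq → Sq → Prop} (hlt : WO κ lt)
    (hlt' : WO κ lt') (h : HLw κ lt C) : HLw κ lt' C := by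
  intro c hc
  obtain ⟨T, A, hT, hi⟩ := h c hc
  obtain ⟨T', A', hT', hTT, hAA, hag⟩ := agree_rel hκ hlt hlt' hT
  refine ⟨T', A', hT', fun α η₀ η₁ h0 h1 hne => ?_⟩
  obtain ⟨i, hi⟩ := hi α η₀ η₁ (hTT α h0) (hTT α h1) hne
  refine ⟨i, ?_⟩
  rintro p ⟨h1, h2, h3, h4, h5, h6, h7⟩
  exact hi p ⟨h1, hAA h2, hTT _ h3, hTT _ h4, h5, h6, (hag _ h2 _ h3 _ h4).2 h7⟩

end HLP
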