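import Pool.Agent.H54.HL.M4
import Pool.Agent.H54.HL.W5

/-!
# HL: the principle for one sequence of well-orderings gives the uniform principle for all of them
-/

set_option autoImplicit false

namespace HLP

open Cardinal Ordinal

theorem uniform_all {κ : Cardinal.{0}} (hκ : Mahlo κ) {C : Type} (hC : #C < κ) {lt lt' : Ordinal.{0} → Sq → Sq → Prop}
    (hlt : WO κ lt) (hlt' : WO κ lt') (h : HLw κ lt C) (c : Ordinal.{0} → Sq → Sq → C) (hc : Sym c) :
    ∃ (T : Ordinal.{0} → Set Sq) (A : Set Ordinal.{0}) (i₀ i₁ : C), Suitable κ T A ∧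
      ∀ β ∈ A, ∀ x ∈ T β, ∀ y ∈ T β, (∃ δ, res δ x = res δ y ∧ x δ = false ∧ y δ = true) →
        (lt' β x y → c β x y ≠ i₀) ∧ (lt' β y x → c β x y ≠ i₁) :=
  uniform hκ hC (invariance hκ hlt hlt' h) c hc

end HLP
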