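import Pool.Agent.H54.HL.U
import Pool.Agent.H54.HL.G0

/-!
# HL: infinitely many colours: one colour can be omitted on all pairs of the tree
-/

set_option autoImplicit false

namespace HLP

open Cardinal Ordinal

/-- the uniform principle below a suitable tree -/
theorem uniform_local {κ : Cardinal.{0}} (hκ : Mahlo κ) {C : Type} (hC : #C < κ) {lt lt' : Ordinal.{0} → Sq → Sq → Prop}
    (hlt : WO κ lt) (hlt' : WO κ lt') (h : HLw κ lt C) (c : Ordinal.{0} → Sq → Sq → C) (hc : Sym c)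
    {T₀ : Ordinal.{0} → Set Sq} {A₀ : Set Ordinal.{0}} (h₀ : Suitable κ T₀ A₀) :
    ∃ (T : Ordinal.{0} → Set Sq) (A : Set Ordinal.{0}) (i₀ i₁ : C), Suitable κ T A ∧ (∀ α, T α ⊆ T₀ α) ∧ A ⊆ A₀ ∧
      ∀ β ∈ A, ∀ x ∈ T β, ∀ y ∈ T β, (∃ δ, res δ x = res δ y ∧ x δ = false ∧ y δ = true) →
        (lt' β x y → c β x y ≠ i₀) ∧ (lt' β y x → c β x y ≠ i₁) := by
  classical
  obtain ⟨a, Φ, e, hΦ, hu⟩ := pull h₀
  have ha := e.mono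
  let lt₁ : Ordinal.{0} → Sq → Sq → Prop := fun ξ x y => lt' (a ξ) (Φ ξ x) (Φ ξ y)
  let c₁ : Ordinal.{0} → Sq → Sq → C := fun ξ x y => c (a ξ) (Φ ξ x) (Φ ξ y)
  have hWO : WO κ lt₁ := by
    intro ξ hξ
    have := hlt' (a ξ) (En.lt h₀ e hξ)
    let g : {η : Sq // IsSeq ξ η} → {η : Sq // IsSeq (a ξ) η} :=
      fun x => ⟨Φ ξ x.1, (h₀.seq _ _ (hΦ ξ x.1 hξ x.2).1).2⟩
    have hg : Function.Injective g := by
      intro x y hxy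
      have h1 : Φ ξ x.1 = Φ ξ y.1 := congrArg Subtype.val hxy
      have h2 := (hΦ ξ x.1 hξ x.2).2
      rw [h1, (hΦ ξ y.1 hξ y.2).2] at h2
      exact Subtype.ext h2.symm
    let E : (fun x y : {η : Sq // IsSeq ξ η} => lt₁ ξ x.1 y.1) ↪r
        (fun x y : {η : Sq // IsSeq (a ξ) η} => lt' (a ξ) x.1 y.1) := ⟨⟨g, hg⟩, Iff.rfl⟩
    exact E.isWellOrder
  obtain ⟨T, A, i₀, i₁, hTA, h1⟩ := uniform_all hκ hC hlt hWO h c₁ (fun ξ x y => hc _ _ _)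
  have hA' : a '' A ⊆ A₀ := by
    rintro _ ⟨ξ, hξ, rfl⟩
    exact (e.mem _).2 ⟨ξ, hTA.sub ξ hξ, rfl⟩
  refine ⟨cT T₀ T a, a '' A, i₀, i₁, compose h₀ e hTA, fun α ν hν => hν.1, hA', ?_⟩
  rintro _ ⟨ξ, hξ, rfl⟩ x hx y hy ⟨δ, hs, hx0, hy1⟩
  have hξκ : ξ < κ.ord := hTA.sub ξ hξ
  have hxT : x ∘ a ∈ T ξ := by
    have h3 := hx.2
    rwa [rho_apply ha] at h3
  have hyT : y ∘ a ∈ T ξ := by
    have h3 := hy.2
    rwa [rho_apply ha] at h3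
  have qx : Φ ξ (x ∘ a) = x := (hu ξ hξκ x hx.1).2
  have qy : Φ ξ (y ∘ a) = y := (hu ξ hξκ y hy.1).2
  have hδβ : δ < a ξ := by
    by_contra hcon
    have h4 := (h₀.seq _ _ hy.1).2 δ (not_lt.1 hcon)
    rw [hy1] at h4
    exact absurd h4 (by decide)
  have hδA : δ ∈ A₀ := h₀.diff hx.1 hy.1 hδβ (by rw [hx0, hy1]; decide) hs
  obtain ⟨ζ, hζ, rfl⟩ := (e.mem δ).1 hδA
  have h2 := h1 ξ hξ (x ∘ a) hxT (y ∘ a) hyT ⟨ζ, by
    have h3 := res_comp ha (a ζ) x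
    have h4 := res_comp ha (a ζ) y
    rw [hs, h4, rho_apply ha] at h3
    exact h3.symm, hx0, hy1⟩
  have h5 : c₁ ξ (x ∘ a) (y ∘ a) = c (a ξ) x y := by
    show c (a ξ) (Φ ξ (x ∘ a)) (Φ ξ (y ∘ a)) = _
    rw [qx, qy]
  have h6 : lt₁ ξ (x ∘ a) (y ∘ a) ↔ lt' (a ξ) x y := by
    show lt' (a ξ) (Φ ξ (x ∘ a)) (Φ ξ (y ∘ a)) ↔ _
    rw [qx, qy]
  have h7 : lt₁ ξ (y ∘ a) (x ∘ a) ↔ lt' (a ξ) y x := by
    show lt' (a ξ) (Φ ξ (y ∘ a)) (Φ ξ (x ∘ a)) ↔ _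
    rw [qx, qy]
  rw [h5] at h2
  exact ⟨fun hl => h2.1 (h6.2 hl), fun hl => h2.2 (h7.2 hl)⟩

/-- for infinitely many colours the omitted colours can be chosen equal -/
theorem uniform_inf {κ : Cardinal.{0}} (hκ : Mahlo κ) {C : Type} (hC : #C < κ) {lt lt' : Ordinal.{0} → Sq → Sq → Prop}
    (hlt : WO κ lt) (hlt' : WO κ lt') (h : HLw κ lt C) (c : Ordinal.{0} → Sq → Sq → C) (hc : Sym c) :
    ∃ (T : Ordinal.{0} → Set Sq) (A : Set Ordinal.{0}) (i₀ i₁ : C), Suitable κ T A ∧ (Infinite C → i₀ = i₁) ∧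
      ∀ β ∈ A, ∀ x ∈ T β, ∀ y ∈ T β, (∃ δ, res δ x = res δ y ∧ x δ = false ∧ y δ = true) →
        (lt' β x y → c β x y ≠ i₀) ∧ (lt' β y x → c β x y ≠ i₁) := by
  classical
  by_cases hinf : Infinite C
  · have h1 : #C = #(C × C) := by
      rw [mk_prod, Cardinal.lift_id, mul_eq_self (aleph0_le_mk C)]
    obtain ⟨e⟩ := Cardinal.eq.1 h1
    obtain ⟨T₁, A₁, i₀, i₁, hT₁, h2⟩ := uniform_all hκ hC hlt hlt' h (fun β x y => (e (c β x y)).2)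
      (fun β x y => congrArg (fun k => (e k).2) (hc β x y))
    obtain ⟨T₂, A₂, j₀, j₁, hT₂, hs, hA, h3⟩ := uniform_local hκ hC hlt hlt' h (fun β x y => (e (c β x y)).1)
      (fun β x y => congrArg (fun k => (e k).1) (hc β x y)) hT₁
    refine ⟨T₂, A₂, e.symm (j₀, i₁), e.symm (j₀, i₁), hT₂, fun _ => rfl, ?_⟩
    intro β hβ x hx y hy hd
    refine ⟨fun hl hcc => ?_, fun hl hcc => ?_⟩
    · refine (h3 β hβ x hx y hy hd).1 hl ?_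
      show (e (c β x y)).1 = j₀
      rw [hcc, Equiv.apply_symm_apply]
    · refine (h2 β (hA hβ) x (hs β hx) y (hs β hy) hd).2 hl ?_
      show (e (c β x y)).2 = i₁
      rw [hcc, Equiv.apply_symm_apply]
  · obtain ⟨T, A, i₀, i₁, hT, h1⟩ := uniform_all hκ hC hlt hlt' h c hc
    exact ⟨T, A, i₀, i₁, hT, fun h => absurd h hinf, h1⟩

end HLP
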