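import Pool.Agent.H54.HL.Ef

/-!
# HL: invariance under the choice of the well-orderings: definitions

`β = μ.ord` is an inaccessible level. A node is a pair `(γ, t)`, `IsSeq γ t`. `NWD`: nowhere dense set of branches of length `β`; `Sm`: a set covered by `μ` of them.
-/

set_option autoImplicit false

namespace HLP

open Cardinal Ordinal

/-- `κ` is Mahlo: it is inaccessible and every function on `κ` has an inaccessible closure point -/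
structure Mahlo (κ : Cardinal.{0}) : Prop where
  inacc : κ.IsInaccessible
  point : ∀ g : Ordinal.{0} → Ordinal.{0}, (∀ α < κ.ord, g α < κ.ord) →
    ∃ μ < κ, μ.IsInaccessible ∧ ∀ α < μ.ord, g α < μ.ord

/-- the principle for the well-orderings `lt` and the set `C` of colours, one of them omitted on every `S(η₀, η₁)` -/
def HLw (κ : Cardinal.{0}) (lt : Ordinal.{0} → Sq → Sq → Prop) (C : Type) : Prop :=
  ∀ c : Ordinal.{0} → Sq → Sq → C, Sym c →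
    ∃ (T : Ordinal.{0} → Set Sq) (A : Set Ordinal.{0}), Suitable κ T A ∧
      ∀ α η₀ η₁, η₀ ∈ T α → η₁ ∈ T α → η₀ ≠ η₁ → ∃ i : C, ∀ p ∈ S T A lt α η₀ η₁, c p.1 p.2.1 p.2.2 ≠ i

/-- nowhere dense set of sequences of length `β` -/
def NWD (β : Ordinal.{0}) (N : Set Sq) : Prop :=
  ∀ γ < β, ∀ t, IsSeq γ t → ∃ γ' < β, γ ≤ γ' ∧ ∃ t', IsSeq γ' t' ∧ res γ t' = t ∧ ∀ x ∈ N, res γ' x ≠ t'

/-- small set: covered by `μ` nowhere dense sets -/
def Sm (μ : Cardinal.{0}) (N : Set Sq) : Prop :=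
  ∃ F : Ordinal.{0} → Set Sq, (∀ i < μ.ord, NWD μ.ord (F i)) ∧ ∀ x ∈ N, ∃ i < μ.ord, x ∈ F i

/-- `N` is not small above any node extending `(γ₀, t₀)` -/
def Big (μ : Cardinal.{0}) (N : Set Sq) (γ₀ : Ordinal.{0}) (t₀ : Sq) : Prop :=
  γ₀ < μ.ord ∧ IsSeq γ₀ t₀ ∧
    ∀ γ < μ.ord, γ₀ ≤ γ → ∀ t, IsSeq γ t → res γ₀ t = t₀ → ¬ Sm μ {x | x ∈ N ∧ res γ x = t}

/-- `X` selects for every `s` of length `γ` above `t₀` a sequence `X s` of length `β` above `s`, the two orders agree on the selected sequences -/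
def Sel (lt lt' : Ordinal.{0} → Sq → Sq → Prop) (γ₀ : Ordinal.{0}) (t₀ : Sq) (γ β : Ordinal.{0}) (X : Sq → Sq) : Prop :=
  (∀ s, IsSeq γ s → res γ₀ s = t₀ → IsSeq β (X s) ∧ res γ (X s) = s) ∧
    ∀ s s', IsSeq γ s → res γ₀ s = t₀ → IsSeq γ s' → res γ₀ s' = t₀ → (lt β (X s) (X s') ↔ lt' β (X s) (X s'))

/-- the tree of the construction -/
def Tr (κ : Cardinal.{0}) (γ₀ : Ordinal.{0}) (t₀ : Sq) (a g : Ordinal.{0} → Ordinal.{0}) (X : Ordinal.{0} → Sq → Sq)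
    (α : Ordinal.{0}) : Set Sq :=
  {ν | α < κ.ord ∧ IsSeq α ν ∧ (∀ ε, ε < α → ε < γ₀ → ν ε = t₀ ε) ∧
    ∀ ξ < κ.ord, ∀ ε, g ξ ≤ ε → ε < a ξ → ε < α → ν ε = X (g ξ) (res (g ξ) ν) ε}

/-- the levels of the construction: `[g ξ, a ξ)` are the intervals without splitting, `a ξ` is a splitting level -/
structure Lev (κ : Cardinal.{0}) (γ₀ : Ordinal.{0}) (b a g : Ordinal.{0} → Ordinal.{0}) : Prop where
  lt : ∀ ξ < κ.ord, a ξ < κ.ord
  eq : ∀ ξ < κ.ord, a ξ = b (g ξ)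
  le : ∀ ξ < κ.ord, g ξ ≤ a ξ
  glb : ∀ ξ < κ.ord, ∀ δ, g ξ ≤ δ ↔ γ₀ ≤ δ ∧ ∀ ζ < ξ, a ζ < δ

end HLP
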