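import Pool.Agent.H54.HL.W0

/-!
The levels.
-/

set_option autoImplicit false

namespace HLP

open Cardinal Ordinal

theorem exists_bound {κ : Cardinal.{0}} (hκ : κ.IsInaccessible) {γ₀ : Ordinal.{0}} (h : γ₀ < κ.ord)
    (a : Ordinal.{0} → Ordinal.{0}) {ξ : Ordinal.{0}} (hξ : ξ < κ.ord)
    (ha : ∀ ζ < ξ, a ζ < κ.ord) : ∃ δ < κ.ord, γ₀ ≤ δ ∧ ∀ ζ < ξ, a ζ < δ := by
  have hlim : ∀ x < κ.ord, x + 1 < κ.ord := fun x hx =>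
    (Cardinal.isSuccLimit_ord hκ.isRegular.aleph0_le).add_one_lt hx
  have hsup : (⨆ ζ : Set.Iio ξ, (a ζ.1 + 1)) < κ.ord := by
    have hf : ∀ i : Set.Iio ξ, (fun i : Set.Iio ξ => a i.1 + 1) i < κ.ord :=
      fun i => hlim _ (ha i.1 i.2)
    apply Ordinal.lift_iSup_lt_of_lt_cof _ hf
    rw [← Ordinal.lift_cof, hκ.isRegular.cof_ord, Cardinal.mk_Iio_ordinal, Cardinal.lift_lift,
      Cardinal.lift_lt]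
    exact Cardinal.lt_ord.1 hξ
  refine ⟨max γ₀ (⨆ ζ : Set.Iio ξ, (a ζ.1 + 1)), max_lt h hsup, le_max_left _ _, ?_⟩
  intro ζ hζ
  have h1 : a ζ + 1 ≤ ⨆ ζ : Set.Iio ξ, (a ζ.1 + 1) :=
    le_ciSup (f := fun ζ : Set.Iio ξ => a ζ.1 + 1) Ordinal.bddAbove_of_small ⟨ζ, hζ⟩
  exact (Order.lt_add_one_iff.2 le_rfl).trans_le (h1.trans (le_max_right _ _))

theorem exists_Lev {κ : Cardinal.{0}} (hκ : κ.IsInaccessible) {γ₀ : Ordinal.{0}} (h : γ₀ < κ.ord) {b : Ordinal.{0} → Ordinal.{0}}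
    (hb : ∀ γ, γ₀ ≤ γ → γ < κ.ord → γ ≤ b γ ∧ b γ < κ.ord) : ∃ a g : Ordinal.{0} → Ordinal.{0}, Lev κ γ₀ b a g := by
  classical
  let a : Ordinal.{0} → Ordinal.{0} := WellFounded.fix Ordinal.lt_wf
    (fun ξ ih => b (sInf {δ | γ₀ ≤ δ ∧ ∀ ζ (hζ : ζ < ξ), ih ζ hζ < δ}))
  let g : Ordinal.{0} → Ordinal.{0} := fun ξ => sInf {δ | γ₀ ≤ δ ∧ ∀ ζ < ξ, a ζ < δ}
  have hag : ∀ ξ, a ξ = b (g ξ) := fun ξ => WellFounded.fix_eq _ _ _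
  have key : ∀ ξ, ξ < κ.ord → a ξ < κ.ord ∧ g ξ ≤ a ξ ∧
      ∀ δ, g ξ ≤ δ ↔ γ₀ ≤ δ ∧ ∀ ζ < ξ, a ζ < δ := by
    intro ξ
    induction ξ using WellFoundedLT.induction with
    | ind ξ ih =>
      intro hξ
      obtain ⟨δ0, h1, h2, h3⟩ := exists_bound hκ h a hξ (fun ζ hζ => (ih ζ hζ (hζ.trans hξ)).1)
      have hne : {δ | γ₀ ≤ δ ∧ ∀ ζ < ξ, a ζ < δ}.Nonempty := ⟨δ0, h2, h3⟩
      have hmem : γ₀ ≤ g ξ ∧ ∀ ζ < ξ, a ζ < g ξ := csInf_mem hne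
      have hle : ∀ δ, γ₀ ≤ δ → (∀ ζ < ξ, a ζ < δ) → g ξ ≤ δ := fun δ h4 h5 => csInf_le' ⟨h4, h5⟩
      have hg : g ξ < κ.ord := (hle δ0 h2 h3).trans_lt h1
      have hbb := hb (g ξ) hmem.1 hg
      rw [← hag] at hbb
      exact ⟨hbb.2, hbb.1, fun δ => ⟨fun h4 => ⟨hmem.1.trans h4, fun ζ hζ =>
        (hmem.2 ζ hζ).trans_le h4⟩, fun h4 => hle δ h4.1 h4.2⟩⟩
  exact ⟨a, g, ⟨fun ξ hξ => (key ξ hξ).1, fun ξ _ => hag ξ, fun ξ hξ => (key ξ hξ).2.1,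
    fun ξ hξ => (key ξ hξ).2.2⟩⟩

theorem Lev.mono {κ : Cardinal.{0}} {γ₀ : Ordinal.{0}} {b a g : Ordinal.{0} → Ordinal.{0}} (L : Lev κ γ₀ b a g)
    {ζ ξ : Ordinal.{0}} (h : ζ < ξ) (hξ : ξ < κ.ord) : a ζ < g ξ :=
  ((L.glb ξ hξ (g ξ)).1 le_rfl).2 ζ h

theorem Lev.cover {κ : Cardinal.{0}} {γ₀ : Ordinal.{0}} {b a g : Ordinal.{0} → Ordinal.{0}} (L : Lev κ γ₀ b a g)
    {δ : Ordinal.{0}} (h : γ₀ ≤ δ) (hδ : δ < κ.ord) : ∃ ξ < κ.ord, g ξ ≤ δ ∧ δ ≤ a ξ := by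
  have hge : ∀ ξ, ξ < κ.ord → ξ ≤ a ξ := by
    intro ξ
    induction ξ using WellFoundedLT.induction with
    | ind ξ ih =>
      intro hξ
      by_contra hcon
      have hlt := not_le.1 hcon
      have h1 := ih (a ξ) hlt (L.lt ξ hξ)
      have h2 := (L.mono hlt hξ).trans_le (L.le ξ hξ)
      exact absurd (h1.trans_lt h2) (lt_irrefl _)
  have hne : {ξ | ξ < κ.ord ∧ δ ≤ a ξ}.Nonempty := ⟨δ, hδ, hge δ hδ⟩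
  have hm : sInf {ξ | ξ < κ.ord ∧ δ ≤ a ξ} < κ.ord ∧ δ ≤ a (sInf {ξ | ξ < κ.ord ∧ δ ≤ a ξ}) :=
    csInf_mem hne
  refine ⟨_, hm.1, (L.glb _ hm.1 δ).2 ⟨h, ?_⟩, hm.2⟩
  intro ζ hζ
  by_contra hcon
  have : sInf {ξ | ξ < κ.ord ∧ δ ≤ a ξ} ≤ ζ := csInf_le' ⟨hζ.trans hm.1, not_lt.1 hcon⟩
  exact absurd (hζ.trans_le this) (lt_irrefl _)

end HLP
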