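import Pool.Agent.H54.HL.W1

/-!
ROW HL/W2. Extension of nodes of `Tr`. Define `ν'` by well-founded recursion on `δ`: `ν' δ = ν δ` if `δ < α`; otherwise (`δ < β`): `t₀ δ` if `δ < γ₀`; `X (g ξ) (res (g ξ) ν') δ` if `g ξ ≤ δ < a ξ` for some `ξ < κ.ord` (only one such `ξ` by `Lev.mono`, only values of `ν'` below `g ξ ≤ δ` are used);
`false` in the other cases and for `δ ≥ β`. The conditions of `Tr` for `ε < α` come from `ν` (`res (g ξ) ν' = res (g ξ) ν` for `g ξ ≤ ε < α`), for `ε ≥ α` from the definition.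
-/

set_option autoImplicit false

namespace HLP

open Cardinal Ordinal

theorem exists_rec_Sq (F : Ordinal.{0} → Sq → Bool) : ∃ ν' : Sq, ∀ δ, ν' δ = F δ (res δ ν') := by
  classical
  let G : ∀ δ : Ordinal.{0}, (∀ ζ : Ordinal.{0}, ζ < δ → Bool) → Bool :=
    fun δ ih => F δ (fun ζ => if h : ζ < δ then ih ζ h else false)
  refine ⟨WellFoundedLT.fix (motive := fun _ => Bool) G, fun δ => ?_⟩
  rw [WellFoundedLT.fix_eq]
  show F δ _ = F δ _
  congr 1

theorem Tr_ext {κ : Cardinal.{0}} {γ₀ : Ordinal.{0}} {t₀ : Sq} {b a g : Ordinal.{0} → Ordinal.{0}} (L : Lev κ γ₀ b a g)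
    {X : Ordinal.{0} → Sq → Sq} {α β : Ordinal.{0}} (hαβ : α ≤ β) (hβ : β < κ.ord) {ν : Sq} (hν : ν ∈ Tr κ γ₀ t₀ a g X α) :
    ∃ ν' ∈ Tr κ γ₀ t₀ a g X β, res α ν' = ν := by
  classical
  obtain ⟨ν', h'⟩ := exists_rec_Sq (fun δ r =>
    if δ < α then ν δ else if β ≤ δ then false else if δ < γ₀ then t₀ δ else
      if h : ∃ ξ, ξ < κ.ord ∧ g ξ ≤ δ ∧ δ < a ξ then X (g h.choose) (res (g h.choose) r) δ else false)
  obtain ⟨_, hs, ht, hX⟩ := hν
  have h1 : ∀ δ, δ < α → ν' δ = ν δ := fun δ hδ => by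
    rw [h' δ]
    simp only [hδ, if_true]
  refine ⟨ν', ⟨hβ, ?_, ?_, ?_⟩, ?_⟩
  · intro ξ hξ
    rw [h' ξ]
    have h2 : ¬ ξ < α := not_lt.2 (hαβ.trans hξ)
    simp only [h2, hξ, if_true, if_false]
  · intro ε hε hγ
    by_cases h2 : ε < α
    · rw [h1 ε h2]
      exact ht ε h2 hγ
    · rw [h' ε]
      have h3 : ¬ β ≤ ε := not_le.2 hε
      simp only [h2, h3, hγ, if_true, if_false]
  · intro ξ hξ ε h2 h3 h4
    by_cases h5 : ε < α
    · rw [h1 ε h5, hX ξ hξ ε h2 h3 h5]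
      congr 1
      have h6 : res (g ξ) ν = res (g ξ) ν' := by
        funext ζ
        unfold res
        by_cases h7 : ζ < g ξ
        · rw [if_pos h7, if_pos h7, h1 ζ (h7.trans_le (h2.trans h5.le))]
        · rw [if_neg h7, if_neg h7]
      rw [h6]
    · have h6 : ¬ β ≤ ε := not_le.2 h4
      have h7 : ¬ ε < γ₀ := not_lt.2 ((L.glb ξ hξ ε).1 h2).1
      have h8 : ∃ ξ, ξ < κ.ord ∧ g ξ ≤ ε ∧ ε < a ξ := ⟨ξ, hξ, h2, h3⟩
      have h9 : h8.choose = ξ := by
        obtain ⟨k1, k2, k3⟩ := h8.choose_spec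
        rcases lt_trichotomy h8.choose ξ with h | h | h
        · exact absurd ((L.mono h hξ).trans_le h2) (not_lt.2 k3.le)
        · exact h
        · exact absurd ((L.mono h k1).trans_le k2) (not_lt.2 h3.le)
      have h10 := h' ε
      simp only [h5, h6, h7, if_false] at h10
      rw [dif_pos h8, h9, res_res h2] at h10
      exact h10
  · funext ζ
    by_cases h2 : ζ < α
    · rw [res_apply h2, h1 ζ h2]
    · rw [isSeq_res α ν' ζ (not_lt.1 h2), hs ζ (not_lt.1 h2)]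

end HLP
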