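import Pool.Agent.H54.HL.W0

/-!
# HL: the degree of level pairs: definitions
-/

set_option autoImplicit false

namespace HLP

open Cardinal Ordinal

/-- every finite colouring of pairs takes at most `N` colours on the pairs of some suitable tree (at the levels in `A`) -/
def Deg (κ : Cardinal.{0}) (N : ℕ) : Prop :=
  ∀ (m : ℕ) (c : Ordinal.{0} → Sq → Sq → Fin m), Sym c →
    ∃ (T : Ordinal.{0} → Set Sq) (A : Set Ordinal.{0}) (F : Set (Fin m)), Suitable κ T A ∧ F.ncard ≤ N ∧
      ∀ β ∈ A, ∀ x ∈ T β, ∀ y ∈ T β, x ≠ y → c β x y ∈ F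

/-- all colours occur at one node `(δ, s)` of the tree for the order type `τ` (`false`: the lexicographic order agrees with `lt`) -/
def Bad {θ : ℕ} (τ : Bool) (c : Ordinal.{0} → Sq → Sq → Fin θ) (lt : Ordinal.{0} → Sq → Sq → Prop) (T : Ordinal.{0} → Set Sq)
    (A : Set Ordinal.{0}) : Prop :=
  ∃ δ s, ∀ i : Fin θ, ∃ β ∈ A, ∃ x ∈ T β, ∃ y ∈ T β, res δ x = s ∧ res δ y = s ∧ x δ = false ∧ y δ = true ∧
    (τ = false → lt β x y) ∧ (τ = true → lt β y x) ∧ c β x y = i

/-- exchange of `0` and `1` in a sequence of length `α` -/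
noncomputable def fl (α : Ordinal.{0}) (x : Sq) : Sq := fun ξ => if ξ < α then !(x ξ) else false

/-- the flipped tree -/
def fT (T : Ordinal.{0} → Set Sq) (α : Ordinal.{0}) : Set Sq := {x | IsSeq α x ∧ fl α x ∈ T α}

end HLP
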