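import Pool.Agent.H54.HL.X0
import Pool.Agent.H54.HL.B

/-!
ROW HL/X1. `fl` is an involution on sequences of length `α` (`isSeq_fl`, `fl_fl`), `fl β (res β x) = res β (fl α x)` for `β ≤ α` (`res_fl`), `fl (succ α) (update x α i) = update (fl α x) α (!i)` for `IsSeq α x`. `fT_suitable`: all fields from those of `T`
(`split`: the two updates are exchanged; `up`: `fl` of the extension; `nonempty`: `fl α x` with `fl α (fl α x) = x`).
-/

set_option autoImplicit false

namespace HLP

open Cardinal Ordinal

theorem isSeq_fl (α : Ordinal.{0}) (x : Sq) : IsSeq α (fl α x) := by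
  intro ξ h
  unfold fl
  rw [if_neg (not_lt.2 h)]

theorem fl_fl {α : Ordinal.{0}} {x : Sq} (h : IsSeq α x) : fl α (fl α x) = x := by
  funext ξ
  unfold fl
  by_cases h1 : ξ < α
  · rw [if_pos h1, if_pos h1, Bool.not_not]
  · rw [if_neg h1, h ξ (not_lt.1 h1)]

theorem res_fl {α β : Ordinal.{0}} (h : β ≤ α) (x : Sq) : res β (fl α x) = fl β (res β x) := by
  funext ξ
  unfold res fl
  by_cases h1 : ξ < β
  · rw [if_pos h1, if_pos (h1.trans_le h), if_pos h1]
    show (!x ξ) = !(if ξ < β then x ξ else false)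
    rw [if_pos h1]
  · rw [if_neg h1, if_neg h1]

theorem fl_update {α : Ordinal.{0}} (η : Sq) (i : Bool) :
    fl (Order.succ α) (Function.update η α i) = Function.update (fl α η) α (!i) := by
  funext ξ
  by_cases h1 : ξ = α
  · rw [h1, Function.update_self]
    unfold fl
    rw [if_pos (Order.lt_succ α), Function.update_self]
  · rw [Function.update_of_ne h1]
    unfold fl
    rw [Function.update_of_ne h1]
    by_cases h2 : ξ < α
    · rw [if_pos h2, if_pos (h2.trans (Order.lt_succ α))]
    · rw [if_neg h2, if_neg]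
      intro h3
      exact h2 (lt_of_le_of_ne (Order.lt_succ_iff.1 h3) h1)

theorem fT_suitable {κ : Cardinal.{0}} {T : Ordinal.{0} → Set Sq} {A : Set Ordinal.{0}} (h : Suitable κ T A) :
    Suitable κ (fT T) A where
  sub := h.sub
  card := h.card
  seq := fun α η hη => ⟨(h.seq α _ hη.2).1, hη.1⟩
  nonempty := by
    obtain ⟨α, x, hx⟩ := h.nonempty
    refine ⟨α, fl α x, isSeq_fl α x, ?_⟩
    rw [fl_fl (h.seq α x hx).2]
    exact hx
  down := by
    intro α η β hη hβ
    refine ⟨isSeq_res β η, ?_⟩
    rw [← res_fl hβ]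
    exact h.down α _ β hη.2 hβ
  up := by
    intro α η β hη hβ
    obtain ⟨ν, hν, hr⟩ := h.up α _ β hη.2 hβ
    refine ⟨fl (max α β) ν, ⟨isSeq_fl _ _, ?_⟩, ?_⟩
    · rw [fl_fl (h.seq _ ν hν).2]
      exact hν
    · rw [res_fl (le_max_left α β), hr, fl_fl hη.1]
  lim := by
    intro δ η hδ hl hs hall
    refine ⟨hs, h.lim δ _ hδ hl (isSeq_fl δ η) ?_⟩
    intro α hα
    rw [res_fl hα.le]
    exact (hall α hα).2
  split := by
    intro α η hη
    rw [← h.split α _ hη.2]
    have e0 : fl (Order.succ α) (Function.update η α false) = Function.update (fl α η) α true := fl_update η false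
    have e1 : fl (Order.succ α) (Function.update η α true) = Function.update (fl α η) α false := fl_update η true
    constructor
    · rintro ⟨h0, h1⟩
      refine ⟨?_, ?_⟩
      · rw [← e1]
        exact h1.2
      · rw [← e0]
        exact h0.2
    · rintro ⟨h0, h1⟩
      refine ⟨⟨isSeq_update hη.1 _, ?_⟩, ⟨isSeq_update hη.1 _, ?_⟩⟩
      · rw [e0]
        exact h1
      · rw [e1]
        exact h0

end HLP
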