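import Pool.Agent.H54.HL.X1

/-!
ROW HL/X2. `WO_fl`: `RelEmbedding.preimage` for the injection `fl α` of the sequences of length `α` (as in the proof of `relative` in `Eg.lean`). `Bad_fl`: apply `Bad τ` for `(c, lt)` to the flipped tree `fT T` (`fT_suitable`, given as hypothesis `h`): node `(δ, s)`; for the colour `i`: `x', y' ∈ fT T β`, `x' δ = false`,
`y' δ = true`, so `x = fl β x', y = fl β y' ∈ T β`, `x δ = true`, `y δ = false` (`δ < β` because `y' δ = true`), and the pair `(y, x)` with the node `(δ, fl δ s)` is as wanted for `!τ` (`fl_fl`, `res_fl`, symmetry of `c`).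
-/

set_option autoImplicit false

namespace HLP

open Cardinal Ordinal

theorem WO_fl {κ : Cardinal.{0}} {lt : Ordinal.{0} → Sq → Sq → Prop} (h : WO κ lt) :
    WO κ (fun β x y => lt β (fl β x) (fl β y)) := by
  intro α hα
  have h1 := h α hα
  let f : {η : Sq // IsSeq α η} ↪ {η : Sq // IsSeq α η} :=
    ⟨fun x => ⟨fl α x.1, isSeq_fl α x.1⟩, fun x y hxy => by
      have h2 : fl α x.1 = fl α y.1 := congrArg Subtype.val hxy
      apply Subtype.ext
      rw [← fl_fl x.2, ← fl_fl y.2, h2]⟩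
  exact (RelEmbedding.preimage f (fun x y => lt α x.1 y.1)).isWellOrder

theorem Bad_fl {θ : ℕ} {τ : Bool} {c : Ordinal.{0} → Sq → Sq → Fin θ} (hc : Sym c) {lt : Ordinal.{0} → Sq → Sq → Prop}
    {T : Ordinal.{0} → Set Sq} {A : Set Ordinal.{0}} (h : Bad τ c lt (fT T) A) :
    Bad (!τ) (fun β x y => c β (fl β x) (fl β y)) (fun β x y => lt β (fl β x) (fl β y)) T A := by
  obtain ⟨δ, s, h⟩ := h
  refine ⟨δ, fl δ s, fun i => ?_⟩
  obtain ⟨β, hβ, x, ⟨hx1, hx2⟩, y, ⟨hy1, hy2⟩, h1, h2, h3, h4, h5, h6, h7⟩ := h i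
  have hδ : δ < β := by
    by_contra hcon
    rw [hy1 δ (not_lt.1 hcon)] at h4
    exact Bool.false_ne_true h4
  refine ⟨β, hβ, fl β y, hy2, fl β x, hx2, ?_, ?_, ?_, ?_, ?_, ?_, ?_⟩
  · rw [res_fl hδ.le, h2]
  · rw [res_fl hδ.le, h1]
  · show (if δ < β then !(y δ) else false) = false
    rw [if_pos hδ, h4]
    rfl
  · show (if δ < β then !(x δ) else false) = true
    rw [if_pos hδ, h3]
    rfl
  · intro ht
    show lt β (fl β (fl β y)) (fl β (fl β x))
    rw [fl_fl hy1, fl_fl hx1]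
    exact h6 (by cases τ <;> simp_all)
  · intro ht
    show lt β (fl β (fl β x)) (fl β (fl β y))
    rw [fl_fl hy1, fl_fl hx1]
    exact h5 (by cases τ <;> simp_all)
  · show c β (fl β (fl β y)) (fl β (fl β x)) = i
    rw [fl_fl hy1, fl_fl hx1, hc]
    exact h7

end HLP
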