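import Pool.Agent.H54.HL.X0
import Pool.Agent.H54.HL.G0

/-!
ROW HL/X3. Pull back along a suitable tree `(T₀, A₀)` with `pull` (`G0.lean`): `a, Φ`; `lt₁ ξ x y = lt (a ξ) (Φ ξ x) (Φ ξ y)`, `c₁ ξ x y = c (a ξ) (Φ ξ x) (Φ ξ y)`. `WO κ lt₁` as in the proof of `relative` (`Eg.lean`). For suitable `(T, A)`: `T' = cT T₀ T a`, `A' = a '' A` (`compose`), a subtree of `T₀` with `A' ⊆ A₀`,
`Bad τ c lt T' A'` by hypothesis: node `(δ, s)`. `δ ∈ A₀` by `Suitable.diff` for a pair `x, y` at `δ` (there is one: `θ > 0`), `δ = a ζ`. The pair `x ∘ a, y ∘ a ∈ T ξ` (`β = a ξ`, `rho_apply`) has `(x ∘ a) ζ = x δ = false`, `res ζ (x ∘ a) = res δ x ∘ a = s ∘ a` (`res_comp`, `rho_apply`), `Φ ξ (x ∘ a) = x`.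
-/

set_option autoImplicit false

namespace HLP

open Cardinal Ordinal

theorem pull_bad {κ : Cardinal.{0}} {θ : ℕ} (hθ : 0 < θ) {τ : Bool} {c : Ordinal.{0} → Sq → Sq → Fin θ} (hc : Sym c)
    {lt : Ordinal.{0} → Sq → Sq → Prop} (hlt : WO κ lt) {T₀ : Ordinal.{0} → Set Sq} {A₀ : Set Ordinal.{0}} (h₀ : Suitable κ T₀ A₀)
    (h : ∀ (T : Ordinal.{0} → Set Sq) (A : Set Ordinal.{0}), Suitable κ T A → (∀ α, T α ⊆ T₀ α) → A ⊆ A₀ → Bad τ c lt T A) :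
    ∃ (c₁ : Ordinal.{0} → Sq → Sq → Fin θ) (lt₁ : Ordinal.{0} → Sq → Sq → Prop), Sym c₁ ∧ WO κ lt₁ ∧
      ∀ (T : Ordinal.{0} → Set Sq) (A : Set Ordinal.{0}), Suitable κ T A → Bad τ c₁ lt₁ T A := by
  classical
  obtain ⟨a, Φ, e, hΦ, hu⟩ := pull h₀
  have ha := e.mono
  let lt₁ : Ordinal.{0} → Sq → Sq → Prop := fun ξ x y => lt (a ξ) (Φ ξ x) (Φ ξ y)
  let c₁ : Ordinal.{0} → Sq → Sq → Fin θ := fun ξ x y => c (a ξ) (Φ ξ x) (Φ ξ y)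
  have hWO : WO κ lt₁ := by
    intro ξ hξ
    have := hlt (a ξ) (En.lt h₀ e hξ)
    let g : {η : Sq // IsSeq ξ η} → {η : Sq // IsSeq (a ξ) η} :=
      fun x => ⟨Φ ξ x.1, (h₀.seq _ _ (hΦ ξ x.1 hξ x.2).1).2⟩
    have hg : Function.Injective g := by
      intro x y hxy
      have h1 : Φ ξ x.1 = Φ ξ y.1 := congrArg Subtype.val hxy
      have h2 := (hΦ ξ x.1 hξ x.2).2
      rw [h1, (hΦ ξ y.1 hξ y.2).2] at h2
      exact Subtype.ext h2.symm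
    let E : (fun x y : {η : Sq // IsSeq ξ η} => lt₁ ξ x.1 y.1) ↪r
        (fun x y : {η : Sq // IsSeq (a ξ) η} => lt (a ξ) x.1 y.1) := ⟨⟨g, hg⟩, Iff.rfl⟩
    exact E.isWellOrder
  refine ⟨c₁, lt₁, fun ξ x y => hc _ _ _, hWO, ?_⟩
  intro T A hTA
  have hA' : a '' A ⊆ A₀ := by
    rintro _ ⟨ξ, hξ, rfl⟩
    exact (e.mem _).2 ⟨ξ, hTA.sub ξ hξ, rfl⟩
  obtain ⟨δ, s, hδ⟩ := h (cT T₀ T a) (a '' A) (compose h₀ e hTA) (fun α ν hν => hν.1) hA'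
  have hδA : δ ∈ A₀ := by
    obtain ⟨β, hβ, x, hx, y, hy, hxs, hys, hx0, hy1, -⟩ := hδ ⟨0, hθ⟩
    have hδβ : δ < β := by
      by_contra hcon
      have h1 := (h₀.seq _ _ hy.1).2 δ (not_lt.1 hcon)
      rw [hy1] at h1
      exact absurd h1 (by decide)
    exact h₀.diff hx.1 hy.1 hδβ (by rw [hx0, hy1]; decide) (hxs.trans hys.symm)
  obtain ⟨ζ, hζ, rfl⟩ := (e.mem δ).1 hδA
  refine ⟨ζ, s ∘ a, fun i => ?_⟩
  obtain ⟨β, ⟨ξ, hξ, rfl⟩, x, hx, y, hy, hxs, hys, hx0, hy1, hl0, hl1, hcx⟩ := hδ i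
  have hξκ : ξ < κ.ord := hTA.sub ξ hξ
  have hxT : x ∘ a ∈ T ξ := by
    have h3 := hx.2
    rwa [rho_apply ha] at h3
  have hyT : y ∘ a ∈ T ξ := by
    have h3 := hy.2
    rwa [rho_apply ha] at h3
  have qx : Φ ξ (x ∘ a) = x := (hu ξ hξκ x hx.1).2
  have qy : Φ ξ (y ∘ a) = y := (hu ξ hξκ y hy.1).2
  refine ⟨ξ, hξ, x ∘ a, hxT, y ∘ a, hyT, ?_, ?_, hx0, hy1, ?_, ?_, ?_⟩
  · have h3 := res_comp ha (a ζ) x
    rw [hxs, rho_apply ha] at h3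
    exact h3.symm
  · have h3 := res_comp ha (a ζ) y
    rw [hys, rho_apply ha] at h3
    exact h3.symm
  · intro hτ
    show lt (a ξ) (Φ ξ (x ∘ a)) (Φ ξ (y ∘ a))
    rw [qx, qy]
    exact hl0 hτ
  · intro hτ
    show lt (a ξ) (Φ ξ (y ∘ a)) (Φ ξ (x ∘ a))
    rw [qx, qy]
    exact hl1 hτ
  · show c (a ξ) (Φ ξ (x ∘ a)) (Φ ξ (y ∘ a)) = i
    rw [qx, qy]
    exact hcx

end HLP
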