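import Pool.Agent.H54.HL.X0
import Pool.Agent.H54.HL.B

/-!
ROW HL/X4. Unfold `HLb` (`push Not`). For suitable `(T, A)` there are `η₀ ≠ η₁` in `T α` such that all colours occur on `S T A lt α η₀ η₁`. `exists_diff`: `δ < α`, `s = res δ η₀ = res δ η₁`. If `η₀ δ = false`, `η₁ δ = true`: `Bad false` at `(δ, s)` (`p = (β, x, y)`; `res_res`, `res_apply` for `x δ = η₀ δ`);
if `η₀ δ = true`, `η₁ δ = false`: `Bad true` with the pair `(y, x)` (symmetry of `c`).
-/

set_option autoImplicit false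

namespace HLP

open Cardinal Ordinal

theorem exists_bad {κ : Cardinal.{0}} {θ : ℕ} (h : ¬ HLb κ θ) :
    ∃ (c : Ordinal.{0} → Sq → Sq → Fin θ) (lt : Ordinal.{0} → Sq → Sq → Prop), Sym c ∧ WO κ lt ∧
      ∀ (T : Ordinal.{0} → Set Sq) (A : Set Ordinal.{0}), Suitable κ T A → Bad false c lt T A ∨ Bad true c lt T A := by
  unfold HLb at h
  push Not at h
  obtain ⟨lt, hlt, c, hc, h⟩ := h
  refine ⟨c, lt, hc, hlt, fun T A hs => ?_⟩
  obtain ⟨α, η₀, η₁, h0, h1, hne, hi⟩ := h T A hs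
  obtain ⟨δ, hδ, hd, hr⟩ := exists_diff (hs.seq _ _ h0).2 (hs.seq _ _ h1).2 hne
  cases e0 : η₀ δ with
  | false =>
    cases e1 : η₁ δ with
    | false => exact absurd (e0.trans e1.symm) hd
    | true =>
      left
      refine ⟨δ, res δ η₀, fun i => ?_⟩
      obtain ⟨p, hp, hpc⟩ := hi i
      obtain ⟨hp1, hp2, hp3, hp4, hp5, hp6, hp7⟩ := hp
      refine ⟨p.1, hp2, p.2.1, hp3, p.2.2, hp4, ?_, ?_, ?_, ?_, fun _ => hp7, fun h => Bool.noConfusion h, hpc⟩
      · rw [← hp5, res_res hδ.le]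
      · rw [hr, ← hp6, res_res hδ.le]
      · rw [← e0, ← hp5, res_apply hδ]
      · rw [← e1, ← hp6, res_apply hδ]
  | true =>
    cases e1 : η₁ δ with
    | true => exact absurd (e0.trans e1.symm) hd
    | false =>
      right
      refine ⟨δ, res δ η₀, fun i => ?_⟩
      obtain ⟨p, hp, hpc⟩ := hi i
      obtain ⟨hp1, hp2, hp3, hp4, hp5, hp6, hp7⟩ := hp
      refine ⟨p.1, hp2, p.2.2, hp4, p.2.1, hp3, ?_, ?_, ?_, ?_, fun h => Bool.noConfusion h, fun _ => hp7,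
        (hc _ _ _).trans hpc⟩
      · rw [hr, ← hp6, res_res hδ.le]
      · rw [← hp5, res_res hδ.le]
      · rw [← e1, ← hp6, res_apply hδ]
      · rw [← e0, ← hp5, res_apply hδ]

end HLP
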