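import Pool.Agent.H54.HL.X0
import Pool.Agent.H54.HL.W5

/-!
ROW HL/X5. Counting. `ty lt β x y : Bool` (for unordered pairs, symmetric): `decide` of: the lexicographically smaller one of `x, y` is NOT `lt`-smaller, e.g. `ty = true` iff `∃ δ, (res δ x = res δ y ∧ x δ = false ∧ y δ = true ∧ lt β y x) ∨ (res δ x = res δ y ∧ y δ = false ∧ x δ = true ∧ lt β x y)`.
`d β x y` = code in `Fin m` of `(c₁ β x y, c₂ β x y, ty lt₂ β x y)` (`Fintype.equivFin` of `Fin θ × Fin θ × Bool`), symmetric. `hD` gives `T, A, F`; `agree_rel` gives `T' ⊆ T`, `A' ⊆ A` with `lt₁ = lt₂` on `T'`. `Bad false c₁ lt₁ T' A'`: for every `i` a pair with `c₁ = i`, `ty lt₂ = false`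
(asymmetry of the well-order; the first difference is unique); `Bad true c₂ lt₂ T' A'`: for every `i` a pair with `c₂ = i`, `ty lt₂ = true`. So the code set has `2 θ` different elements, all in `F` (an injection of `Fin θ ⊕ Fin θ`), against `F.ncard ≤ 2 * θ - 1`.
-/

set_option autoImplicit false

namespace HLP

open Cardinal Ordinal

/-- the lexicographic order disagrees with `lt` on the pair `x, y` -/
private def ty (lt : Ordinal.{0} → Sq → Sq → Prop) (β : Ordinal.{0}) (x y : Sq) : Prop :=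
  ∃ δ, res δ x = res δ y ∧ ((x δ = false ∧ y δ = true ∧ lt β y x) ∨ (y δ = false ∧ x δ = true ∧ lt β x y))

private theorem ty_symm (lt : Ordinal.{0} → Sq → Sq → Prop) (β : Ordinal.{0}) (x y : Sq) : ty lt β x y ↔ ty lt β y x := by
  constructor
  · rintro ⟨δ, h1, h2⟩
    exact ⟨δ, h1.symm, h2.symm⟩
  · rintro ⟨δ, h1, h2⟩
    exact ⟨δ, h1.symm, h2.symm⟩

private theorem ty_iff {lt : Ordinal.{0} → Sq → Sq → Prop} {β δ : Ordinal.{0}} {x y : Sq} (h : res δ x = res δ y)
    (hx : x δ = false) (hy : y δ = true) : ty lt β x y ↔ lt β y x := by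
  constructor
  · rintro ⟨δ', h1, h2⟩
    have hne : x δ' ≠ y δ' := by
      rcases h2 with ⟨h3, h4, _⟩ | ⟨h3, h4, _⟩
      · rw [h3, h4]; decide
      · rw [h3, h4]; decide
    have e : δ' = δ := by
      rcases lt_trichotomy δ' δ with hlt | he | hgt
      · have h3 := congrFun h δ'
        rw [res_apply hlt, res_apply hlt] at h3
        exact absurd h3 hne
      · exact he
      · have h3 := congrFun h1 δ
        rw [res_apply hgt, res_apply hgt, hx, hy] at h3
        exact absurd h3 (by decide)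
    subst e
    rcases h2 with ⟨_, _, h5⟩ | ⟨h3, _, _⟩
    · exact h5
    · rw [hy] at h3
      exact absurd h3 (by decide)
  · intro h1
    exact ⟨δ, h, Or.inl ⟨hx, hy, h1⟩⟩

theorem count {κ : Cardinal.{0}} (hκ : Mahlo κ) {θ : ℕ} (hθ : 0 < θ) (hD : Deg κ (2 * θ - 1))
    {c₁ c₂ : Ordinal.{0} → Sq → Sq → Fin θ} (hc₁ : Sym c₁) (hc₂ : Sym c₂) {lt₁ lt₂ : Ordinal.{0} → Sq → Sq → Prop} (h₁ : WO κ lt₁) (h₂ : WO κ lt₂)
    (hb₁ : ∀ (T : Ordinal.{0} → Set Sq) (A : Set Ordinal.{0}), Suitable κ T A → Bad false c₁ lt₁ T A)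
    (hb₂ : ∀ (T : Ordinal.{0} → Set Sq) (A : Set Ordinal.{0}), Suitable κ T A → Bad true c₂ lt₂ T A) : False := by
  classical
  let e : (Fin θ × Fin θ × Bool) ≃ Fin (Fintype.card (Fin θ × Fin θ × Bool)) := Fintype.equivFin _
  obtain ⟨T, A, F, hTA, hF, hdF⟩ := hD _ (fun β x y => e (c₁ β x y, c₂ β x y, decide (ty lt₂ β x y))) (by
    intro β x y
    have h3 : decide (ty lt₂ β x y) = decide (ty lt₂ β y x) := by
      rw [decide_eq_decide]
      exact ty_symm _ _ _ _
    show e _ = e _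
    rw [hc₁ β x y, hc₂ β x y, h3])
  obtain ⟨T', A', hTA', hTT, hAA, hag⟩ := agree_rel hκ h₁ h₂ hTA
  obtain ⟨δ₁, s₁, hi₁⟩ := hb₁ T' A' hTA'
  obtain ⟨δ₂, s₂, hi₂⟩ := hb₂ T' A' hTA'
  have hu : ∀ i : Fin θ, ∃ j : Fin θ, e (i, j, false) ∈ F := by
    intro i
    obtain ⟨β, hβ, x, hx, y, hy, r1, r2, v1, v2, l1, _, hc⟩ := hi₁ i
    have hne : x ≠ y := by
      intro hxy
      rw [hxy, v2] at v1
      exact absurd v1 (by decide)
    have h3 := hdF β (hAA hβ) x (hTT β hx) y (hTT β hy) hne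
    have hlt : lt₂ β x y := (hag β hβ x hx y hy).1 (l1 rfl)
    have hnty : ¬ ty lt₂ β x y := by
      rw [ty_iff (r1.trans r2.symm) v1 v2]
      intro h4
      have := h₂ β (hTA'.sub β hβ)
      exact asymm_of (fun x y : {η : Sq // IsSeq β η} => lt₂ β x.1 y.1)
        (a := ⟨x, (hTA'.seq _ _ hx).2⟩) (b := ⟨y, (hTA'.seq _ _ hy).2⟩) hlt h4
    refine ⟨c₂ β x y, ?_⟩
    have h5 : decide (ty lt₂ β x y) = false := decide_eq_false hnty
    rw [← hc, ← h5]
    exact h3
  have hv : ∀ i : Fin θ, ∃ j : Fin θ, e (j, i, true) ∈ F := by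
    intro i
    obtain ⟨β, hβ, x, hx, y, hy, r1, r2, v1, v2, _, l2, hc⟩ := hi₂ i
    have hne : x ≠ y := by
      intro hxy
      rw [hxy, v2] at v1
      exact absurd v1 (by decide)
    have h3 := hdF β (hAA hβ) x (hTT β hx) y (hTT β hy) hne
    have hty : ty lt₂ β x y := (ty_iff (r1.trans r2.symm) v1 v2).2 (l2 rfl)
    refine ⟨c₁ β x y, ?_⟩
    have h5 : decide (ty lt₂ β x y) = true := decide_eq_true hty
    rw [← hc, ← h5]
    exact h3
  choose u hu using hu
  choose v hv using hv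
  let g : Fin θ ⊕ Fin θ → Fin (Fintype.card (Fin θ × Fin θ × Bool)) :=
    Sum.elim (fun i => e (i, u i, false)) (fun i => e (v i, i, true))
  have hg : Function.Injective g := by
    rintro (i | i) (j | j) hij
    · have h3 := e.injective hij
      rw [Prod.mk.injEq] at h3
      rw [h3.1]
    · have h3 := e.injective hij
      rw [Prod.mk.injEq, Prod.mk.injEq] at h3
      exact absurd h3.2.2 (by decide)
    · have h3 := e.injective hij
      rw [Prod.mk.injEq, Prod.mk.injEq] at h3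
      exact absurd h3.2.2 (by decide)
    · have h3 := e.injective hij
      rw [Prod.mk.injEq, Prod.mk.injEq] at h3
      rw [h3.2.1]
  have hsub : g '' Set.univ ⊆ F := by
    rintro _ ⟨i | i, _, rfl⟩
    · exact hu i
    · exact hv i
  have h3 := Set.ncard_le_ncard hsub F.toFinite
  rw [Set.ncard_image_of_injective _ hg, Set.ncard_univ, Nat.card_eq_fintype_card, Fintype.card_sum, Fintype.card_fin] at h3
  omega

end HLP
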