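import Pool.Agent.H54.HL.G5
import Pool.Agent.H54.HL.X0

/-!
ROW HL/X6. A sequence of well-orderings exists (`WellOrderingRel` on `Sq`, restricted to the subtypes: `RelEmbedding.preimage` or `Subrel`). `degree` gives `T, A, F₀, F₁`; `F = F₀ ∪ F₁`, `ncard ≤ (θ - 1) + (θ - 1)` (`Set.ncard_union_le`). For `x ≠ y` in `T β`, `β ∈ A`: `exists_diff`, the two cases for the values at `δ`
(use symmetry of `c`), trichotomy of the well-order (`T β` consists of sequences of length `β < κ.ord`).
-/

set_option autoImplicit false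

namespace HLP

open Cardinal Ordinal

theorem deg_of_HLb {κ : Cardinal.{0}} (hκ : κ.IsInaccessible) {θ : ℕ} (hθ0 : 0 < θ) (hθ : HLb κ θ) : Deg κ (2 * θ - 2) := by
  intro m c hc
  have hWO : WO κ (fun _ x y => WellOrderingRel x y) := by
    intro α _
    let E : (fun x y : {η : Sq // IsSeq α η} => WellOrderingRel x.1 y.1) ↪r (WellOrderingRel : Sq → Sq → Prop) :=
      ⟨⟨Subtype.val, Subtype.val_injective⟩, Iff.rfl⟩
    exact E.isWellOrder
  obtain ⟨T, A, F₀, F₁, hS, h0, h1, h⟩ := degree hκ hθ0 hθ hWO c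
  refine ⟨T, A, F₀ ∪ F₁, hS, ?_, ?_⟩
  · have h2 := Set.ncard_union_le F₀ F₁
    omega
  · have key : ∀ β ∈ A, ∀ x ∈ T β, ∀ y ∈ T β, (∃ δ, res δ x = res δ y ∧ x δ = false ∧ y δ = true) → c β x y ∈ F₀ ∪ F₁ := by
      intro β hβ x hx y hy hd
      obtain ⟨k0, k1⟩ := h β hβ x hx y hy hd
      rcases trichotomous_of (WellOrderingRel : Sq → Sq → Prop) x y with h3 | h3 | h3
      · exact Or.inl (k0 h3)
      · obtain ⟨δ, -, hxδ, hyδ⟩ := hd
        rw [h3, hyδ] at hxδ
        exact absurd hxδ (by decide)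
      · right
        rw [hc β x y]
        exact k1 h3
    intro β hβ x hx y hy hxy
    obtain ⟨δ, -, hne, hr⟩ := exists_diff (hS.seq β x hx).2 (hS.seq β y hy).2 hxy
    cases e : x δ with
    | false =>
      cases e' : y δ with
      | false => exact absurd (e.trans e'.symm) hne
      | true => exact key β hβ x hx y hy ⟨δ, hr, e, e'⟩
    | true =>
      cases e' : y δ with
      | true => exact absurd (e.trans e'.symm) hne
      | false =>
        rw [hc β x y]
        exact key β hβ y hy x hx ⟨δ, hr.symm, e', e⟩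

end HLP
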