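import Pool.Agent.H54.HL.X2
import Pool.Agent.H54.HL.X3
import Pool.Agent.H54.HL.X4
import Pool.Agent.H54.HL.X5
import Pool.Agent.H54.HL.X6

/-!
# HL: `HL⁺_{2,θ}[κ]` for finite `θ` is the statement that the degree of level pairs is at most `2 θ - 2` (or `2 θ - 1`)
-/

set_option autoImplicit false

namespace HLP

open Cardinal Ordinal

theorem HLb_of_deg {κ : Cardinal.{0}} (hκ : Mahlo κ) {θ : ℕ} (hθ : 0 < θ) (hD : Deg κ (2 * θ - 1)) : HLb κ θ := by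
  by_contra hn
  obtain ⟨c, lt, hc, hlt, hb⟩ := exists_bad hn
  have fin0 : ∀ {τ : Bool} {c₁ : Ordinal.{0} → Sq → Sq → Fin θ} {lt₁ : Ordinal.{0} → Sq → Sq → Prop}, Sym c₁ → WO κ lt₁ →
      (∀ (T : Ordinal.{0} → Set Sq) (A : Set Ordinal.{0}), Suitable κ T A → Bad τ c₁ lt₁ T A) → False := by
    intro τ c₁ lt₁ hc₁ hlt₁ hb₁
    have hb₂ : ∀ (T : Ordinal.{0} → Set Sq) (A : Set Ordinal.{0}), Suitable κ T A →
        Bad (!τ) (fun β x y => c₁ β (fl β x) (fl β y)) (fun β x y => lt₁ β (fl β x) (fl β y)) T A :=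
      fun T A hT => Bad_fl hc₁ (hb₁ (fT T) A (fT_suitable hT))
    cases τ with
    | false => exact count hκ hθ hD hc₁ (fun β x y => hc₁ β _ _) hlt₁ (WO_fl hlt₁) hb₁ hb₂
    | true => exact count hκ hθ hD (fun β x y => hc₁ β _ _) hc₁ (WO_fl hlt₁) hlt₁ hb₂ hb₁
  by_cases h0 : ∀ (T : Ordinal.{0} → Set Sq) (A : Set Ordinal.{0}), Suitable κ T A → Bad false c lt T A
  · exact fin0 hc hlt h0
  · push Not at h0
    obtain ⟨T₀, A₀, hT₀, hn0⟩ := h0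
    obtain ⟨c₁, lt₁, hc₁, hlt₁, hb₁⟩ := pull_bad (τ := true) hθ hc hlt hT₀ (fun T A hT hs hA => by
      refine (hb T A hT).resolve_left fun hf => hn0 ?_
      obtain ⟨δ, s, hi⟩ := hf
      refine ⟨δ, s, fun i => ?_⟩
      obtain ⟨β, hβ, x, hx, y, hy, h⟩ := hi i
      exact ⟨β, hA hβ, x, hs β hx, y, hs β hy, h⟩)
    exact fin0 hc₁ hlt₁ hb₁

theorem deg_iff {κ : Cardinal.{0}} (hκ : Mahlo κ) {θ : ℕ} (hθ : 0 < θ) :
    (HLb κ θ → Deg κ (2 * θ - 2)) ∧ (Deg κ (2 * θ - 1) → HLb κ θ) :=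
  ⟨fun h => deg_of_HLb hκ.inacc (by omega) h, fun h => HLb_of_deg hκ (by omega) h⟩

theorem Deg.mono {κ : Cardinal.{0}} {N N' : ℕ} (h : Deg κ N) (hN : N ≤ N') : Deg κ N' := by
  intro m c hc
  obtain ⟨T, A, F, hT, hF, h1⟩ := h m c hc
  exact ⟨T, A, F, hT, hF.trans hN, h1⟩

theorem deg_tfae {κ : Cardinal.{0}} (hκ : Mahlo κ) {θ : ℕ} (hθ : 0 < θ) :
    (HLb κ θ ↔ Deg κ (2 * θ - 2)) ∧ (HLb κ θ ↔ Deg κ (2 * θ - 1)) := by
  obtain ⟨h1, h2⟩ := deg_iff hκ hθ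
  exact ⟨⟨h1, fun h => h2 (h.mono (by omega))⟩, ⟨fun h => (h1 h).mono (by omega), h2⟩⟩

end HLP
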