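import Pool.Agent.H54.HL.Eh

/-!
# HL: the theorem (induction on the number of colours)
-/

set_option autoImplicit false

namespace HLP

open Cardinal Ordinal

theorem main {κ : Cardinal.{0}} (hκ : ℵ₀ ≤ κ) {θ : ℕ} (hθ0 : 0 < θ) (hθ : HLb κ θ) {lt : Ordinal.{0} → Sq → Sq → Prop} (hlt : WO κ lt)
    {m : ℕ} (c : Ordinal.{0} → Sq → Sq → Fin m) :
    ∃ (T : Ordinal.{0} → Set Sq) (A : Set Ordinal.{0}), Suitable κ T A ∧
      ∀ α η₀ η₁, η₀ ∈ T α → η₁ ∈ T α → η₀ ≠ η₁ →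
        {i : Fin m | ∃ p ∈ S T A lt α η₀ η₁, c p.1 p.2.1 p.2.2 = i}.ncard < θ := by
  have key : ∀ j : ℕ, ∃ (T : Ordinal.{0} → Set Sq) (A : Set Ordinal.{0}), Suitable κ T A ∧
      ∀ α η₀ η₁, η₀ ∈ T α → η₁ ∈ T α → η₀ ≠ η₁ →
        {i : Fin m | ∃ p ∈ S T A lt α η₀ η₁, c p.1 p.2.1 p.2.2 = i}.ncard ≤ max (m - j) (θ - 1) := by
    intro j
    induction j with
    | zero =>
      refine ⟨Fu κ (Set.Iio κ.ord), Set.Iio κ.ord, Fu_suitable hκ (fun α h => h) (all_card κ), fun α η₀ η₁ _ _ _ => ?_⟩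
      have h1 := Set.ncard_le_card {i : Fin m | ∃ p ∈ S (Fu κ (Set.Iio κ.ord)) (Set.Iio κ.ord) lt α η₀ η₁, c p.1 p.2.1 p.2.2 = i}
      rw [Nat.card_fin] at h1
      exact h1.trans (le_max_left _ _)
    | succ j ih =>
      obtain ⟨T, A, h, hC⟩ := ih
      by_cases hj : θ ≤ m - j
      · obtain ⟨T', A', h', hC'⟩ := step hκ hθ0 hθ hlt c h (k := m - j) hj (fun α η₀ η₁ h0 h1 hne => by
          have h2 := hC α η₀ η₁ h0 h1 hne
          rwa [max_eq_left (by omega)] at h2)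
        refine ⟨T', A', h', fun α η₀ η₁ h0 h1 hne => (hC' α η₀ η₁ h0 h1 hne).trans ?_⟩
        refine le_trans ?_ (le_max_left _ _)
        omega
      · refine ⟨T, A, h, fun α η₀ η₁ h0 h1 hne => (hC α η₀ η₁ h0 h1 hne).trans ?_⟩
        refine max_le ?_ (le_max_right _ _)
        refine le_trans ?_ (le_max_right _ _)
        omega
  obtain ⟨T, A, h, hC⟩ := key m
  refine ⟨T, A, h, fun α η₀ η₁ h0 h1 hne => ?_⟩
  have h2 := hC α η₀ η₁ h0 h1 hne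
  rw [max_eq_right (by omega)] at h2
  omega

end HLP
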